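import Mathlib

set_option autoImplicit false

/-!
# Symbols: power series in the derivative acting on polynomials

`act φ f = ∑ φ_k f^{(k)}`; `pol d φ = act φ (X^d)`; `sym d p` is the (truncated) symbol of a
polynomial of degree at most `d`; `conv d p q` is the finite free additive convolution.
-/

open Polynomial Finset

namespace Pool.Agent.Lib_helper19.FF

section General

variable {K : Type*} [Field K]

/-- The monic polynomial with root vector `x`. -/
noncomputable def rp {d : ℕ} (x : Fin d → K) : K[X] := ∏ i, (X - C (x i))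

/-- The action of a power series in the derivative on a polynomial. -/
noncomputable def act (φ : PowerSeries K) (f : K[X]) : K[X] :=
  ∑ k ∈ range (f.natDegree + 1), PowerSeries.coeff k φ • derivative^[k] f

lemma act_eq_sum (φ : PowerSeries K) {f : K[X]} {n : ℕ} (hn : f.natDegree < n) :
    act φ f = ∑ k ∈ range n, PowerSeries.coeff k φ • derivative^[k] f := by
  unfold act
  apply sum_subset
  · intro k hk
    simp only [mem_range] at hk ⊢
    omega
  · intro k _ hk
    rw [iterate_derivative_eq_zero, smul_zero]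
    simp only [mem_range] at hk
    omega

lemma act_add (φ : PowerSeries K) (f g : K[X]) : act φ (f + g) = act φ f + act φ g := by
  have h1 : f.natDegree < max f.natDegree g.natDegree + 1 := by omega
  have h2 : g.natDegree < max f.natDegree g.natDegree + 1 := by omega
  have h3 : (f + g).natDegree < max f.natDegree g.natDegree + 1 :=
    Nat.lt_succ_of_le (natDegree_add_le f g)
  rw [act_eq_sum φ h1, act_eq_sum φ h2, act_eq_sum φ h3, ← sum_add_distrib]
  apply sum_congr rfl
  intro k _
  rw [iterate_map_add, smul_add]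

lemma act_smul (φ : PowerSeries K) (c : K) (f : K[X]) : act φ (c • f) = c • act φ f := by
  have h3 : (c • f).natDegree < f.natDegree + 1 := Nat.lt_succ_of_le (natDegree_smul_le c f)
  rw [act_eq_sum φ h3, act, smul_sum]
  apply sum_congr rfl
  intro k _
  rw [iterate_derivative_smul, smul_comm]

@[simp] lemma act_zero (φ : PowerSeries K) : act φ (0 : K[X]) = 0 := by
  have := act_smul φ 0 (0 : K[X])
  simpa using this

/-- The action as a linear map. -/
noncomputable def actL (φ : PowerSeries K) : K[X] →ₗ[K] K[X] where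
  toFun := act φ
  map_add' := act_add φ
  map_smul' := by intro c f; simp [act_smul]

@[simp] lemma actL_apply (φ : PowerSeries K) (f : K[X]) : actL φ f = act φ f := rfl

lemma act_sum {ι : Type*} (φ : PowerSeries K) (s : Finset ι) (f : ι → K[X]) :
    act φ (∑ i ∈ s, f i) = ∑ i ∈ s, act φ (f i) := map_sum (actL φ) f s

lemma act_sub (φ : PowerSeries K) (f g : K[X]) : act φ (f - g) = act φ f - act φ g :=
  map_sub (actL φ) f g

lemma act_neg (φ : PowerSeries K) (f : K[X]) : act φ (-f) = -act φ f :=
  map_neg (actL φ) f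

lemma act_C_mul (φ : PowerSeries K) (c : K) (f : K[X]) : act φ (C c * f) = C c * act φ f := by
  rw [← smul_eq_C_mul, act_smul, smul_eq_C_mul]

lemma add_act (φ ψ : PowerSeries K) (f : K[X]) : act (φ + ψ) f = act φ f + act ψ f := by
  unfold act
  rw [← sum_add_distrib]
  apply sum_congr rfl
  intro k _
  rw [map_add, add_smul]

lemma smul_act (c : K) (φ : PowerSeries K) (f : K[X]) : act (c • φ) f = c • act φ f := by
  unfold act
  rw [smul_sum]
  apply sum_congr rfl
  intro k _
  rw [map_smul, smul_assoc]

@[simp] lemma one_act (f : K[X]) : act (1 : PowerSeries K) f = f := by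
  unfold act
  rw [sum_eq_single 0]
  · simp
  · intro k _ hk
    rw [PowerSeries.coeff_one, if_neg hk, zero_smul]
  · simp

lemma natDegree_act_le (φ : PowerSeries K) (f : K[X]) : (act φ f).natDegree ≤ f.natDegree := by
  unfold act
  apply natDegree_sum_le_of_forall_le
  intro k _
  refine (natDegree_smul_le _ _).trans ((natDegree_iterate_derivative f k).trans ?_)
  omega

lemma act_congr {φ ψ : PowerSeries K} {f : K[X]} {n : ℕ} (hf : f.natDegree ≤ n)
    (h : ∀ k ≤ n, PowerSeries.coeff k φ = PowerSeries.coeff k ψ) : act φ f = act ψ f := by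
  unfold act
  apply sum_congr rfl
  intro k hk
  rw [h k]
  simp only [mem_range] at hk
  omega

lemma iterate_derivative_act (φ : PowerSeries K) (f : K[X]) (j : ℕ) :
    derivative^[j] (act φ f) = act φ (derivative^[j] f) := by
  have h : (derivative^[j] f).natDegree < f.natDegree + 1 :=
    Nat.lt_succ_of_le ((natDegree_iterate_derivative f j).trans (Nat.sub_le _ _))
  rw [act_eq_sum φ h, act, iterate_derivative_sum]
  apply sum_congr rfl
  intro k _
  rw [iterate_derivative_smul, ← Function.iterate_add_apply, ← Function.iterate_add_apply,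
    add_comm]

lemma derivative_act (φ : PowerSeries K) (f : K[X]) :
    derivative (act φ f) = act φ (derivative f) := iterate_derivative_act φ f 1

lemma mul_act (φ ψ : PowerSeries K) (f : K[X]) : act (φ * ψ) f = act φ (act ψ f) := by
  set n := f.natDegree + 1 with hn
  have hf : f.natDegree < n := by omega
  have hψ : (act ψ f).natDegree < n := lt_of_le_of_lt (natDegree_act_le ψ f) hf
  rw [act_eq_sum φ hψ, act_eq_sum (φ * ψ) hf]
  have h1 : ∀ i ∈ range n, PowerSeries.coeff i φ • derivative^[i] (act ψ f) =
      ∑ j ∈ range n, (PowerSeries.coeff i φ * PowerSeries.coeff j ψ) • derivative^[i + j] f := by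
    intro i _
    rw [act_eq_sum ψ hf, iterate_derivative_sum, smul_sum]
    apply sum_congr rfl
    intro j _
    rw [iterate_derivative_smul, smul_smul, ← Function.iterate_add_apply]
  rw [sum_congr rfl h1, ← sum_product']
  have h2 : ∀ m ∈ range n, PowerSeries.coeff m (φ * ψ) • derivative^[m] f =
      ∑ x ∈ antidiagonal m, (PowerSeries.coeff x.1 φ * PowerSeries.coeff x.2 ψ) •
        derivative^[x.1 + x.2] f := by
    intro m _
    rw [PowerSeries.coeff_mul, sum_smul]
    apply sum_congr rfl
    intro x hx
    rw [HasAntidiagonal.mem_antidiagonal.mp hx]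
  rw [sum_congr rfl h2, sum_sigma']
  symm
  apply sum_bij_ne_zero (fun (x : ℕ × ℕ) _ _ => (⟨x.1 + x.2, x⟩ : Σ _ : ℕ, ℕ × ℕ))
  · intro x hx hne
    simp only [mem_sigma, mem_range, HasAntidiagonal.mem_antidiagonal, and_true]
    by_contra hcon
    apply hne
    rw [iterate_derivative_eq_zero (by omega), smul_zero]
  · intro x _ _ y _ _ h
    simp only [Sigma.mk.injEq, heq_eq_eq] at h
    exact h.2
  · rintro ⟨m, x⟩ hx hne
    simp only [mem_sigma, mem_range, HasAntidiagonal.mem_antidiagonal] at hx
    refine ⟨x, ?_, hne, ?_⟩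
    · simp only [mem_product, mem_range]
      omega
    · simp only [Sigma.mk.injEq, heq_eq_eq, and_true]
      exact hx.2
  · intro x _ _
    rfl

lemma act_comm (φ ψ : PowerSeries K) (f : K[X]) : act φ (act ψ f) = act ψ (act φ f) := by
  rw [← mul_act, ← mul_act, mul_comm]

lemma X_act (f : K[X]) : act (PowerSeries.X : PowerSeries K) f = derivative f := by
  rw [act_eq_sum (n := f.natDegree + 2) _ (by omega), sum_eq_single 1]
  · simp
  · intro k _ hk
    rw [PowerSeries.coeff_X, if_neg hk, zero_smul]
  · intro h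
    simp at h

lemma X_pow_act (m : ℕ) (f : K[X]) :
    act ((PowerSeries.X : PowerSeries K) ^ m) f = derivative^[m] f := by
  induction m with
  | zero => simp
  | succ m ih => rw [pow_succ', mul_act, ih, X_act, Function.iterate_succ_apply']

/-- The polynomial `φ(D) x^d`. -/
noncomputable def pol (d : ℕ) (φ : PowerSeries K) : K[X] := act φ (X ^ d)

lemma natDegree_pol_le (d : ℕ) (φ : PowerSeries K) : (pol d φ).natDegree ≤ d := by
  refine (natDegree_act_le φ _).trans ?_
  simp

lemma pol_eq_sum (d : ℕ) (φ : PowerSeries K) :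
    pol d φ = ∑ k ∈ range (d + 1), C (PowerSeries.coeff k φ * (d.descFactorial k : K)) *
      X ^ (d - k) := by
  unfold pol
  rw [act_eq_sum (n := d + 1) _ (by simp)]
  apply sum_congr rfl
  intro k _
  rw [iterate_derivative_X_pow_eq_smul, smul_eq_C_mul, C_mul, mul_assoc]
  congr 1
  rw [smul_eq_C_mul]

lemma coeff_pol (d : ℕ) (φ : PowerSeries K) {k : ℕ} (hk : k ≤ d) :
    (pol d φ).coeff (d - k) = PowerSeries.coeff k φ * (d.descFactorial k : K) := by
  rw [pol_eq_sum, finsetSum_coeff, sum_eq_single k]
  · rw [coeff_C_mul, coeff_X_pow, if_pos rfl, mul_one]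
  · intro j hj hjk
    simp only [mem_range] at hj
    rw [coeff_C_mul, coeff_X_pow, if_neg (by omega), mul_zero]
  · intro h
    simp only [mem_range] at h
    omega

lemma coeff_pol' (d : ℕ) (φ : PowerSeries K) {j : ℕ} (hj : j ≤ d) :
    (pol d φ).coeff j = PowerSeries.coeff (d - j) φ * (d.descFactorial (d - j) : K) := by
  have := coeff_pol d φ (k := d - j) (by omega)
  rwa [Nat.sub_sub_self hj] at this

/-- The symbol of a polynomial of degree at most `d`. -/
noncomputable def sym (d : ℕ) (p : K[X]) : PowerSeries K :=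
  PowerSeries.mk fun k => if k ≤ d then p.coeff (d - k) / (d.descFactorial k : K) else 0

lemma coeff_sym (d : ℕ) (p : K[X]) {k : ℕ} (hk : k ≤ d) :
    PowerSeries.coeff k (sym d p) = p.coeff (d - k) / (d.descFactorial k : K) := by
  rw [sym, PowerSeries.coeff_mk, if_pos hk]

variable [CharZero K]

lemma descFactorial_ne_zero {d k : ℕ} (hk : k ≤ d) : (d.descFactorial k : K) ≠ 0 := by
  rw [Nat.cast_ne_zero]
  intro h
  rw [Nat.descFactorial_eq_zero_iff_lt] at h
  omega

lemma pol_sym {d : ℕ} {p : K[X]} (hp : p.natDegree ≤ d) : pol d (sym d p) = p := by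
  ext j
  by_cases hj : j ≤ d
  · rw [coeff_pol' d _ hj, coeff_sym d p (by omega), Nat.sub_sub_self hj,
      div_mul_cancel₀ _ (descFactorial_ne_zero (by omega))]
  · rw [coeff_eq_zero_of_natDegree_lt (lt_of_le_of_lt (natDegree_pol_le d _) (by omega)),
      coeff_eq_zero_of_natDegree_lt (by omega)]

lemma coeff_sym_pol (d : ℕ) (φ : PowerSeries K) {k : ℕ} (hk : k ≤ d) :
    PowerSeries.coeff k (sym d (pol d φ)) = PowerSeries.coeff k φ := by
  rw [coeff_sym d _ hk, coeff_pol d φ hk, mul_div_cancel_right₀ _ (descFactorial_ne_zero hk)]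

/-- The finite free additive convolution (in operator form). -/
noncomputable def conv (d : ℕ) (p q : K[X]) : K[X] := act (sym d p) q

lemma conv_eq_pol {d : ℕ} (p : K[X]) {q : K[X]} (hq : q.natDegree ≤ d) :
    conv d p q = pol d (sym d p * sym d q) := by
  unfold conv
  conv_lhs => rw [← pol_sym hq]
  rw [pol, pol, mul_act]

lemma conv_comm {d : ℕ} {p q : K[X]} (hp : p.natDegree ≤ d) (hq : q.natDegree ≤ d) :
    conv d p q = conv d q p := by
  rw [conv_eq_pol p hq, conv_eq_pol q hp, mul_comm]

omit [CharZero K] in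
lemma conv_add_right (d : ℕ) (p q r : K[X]) : conv d p (q + r) = conv d p q + conv d p r :=
  act_add _ _ _

omit [CharZero K] in
lemma sym_add (d : ℕ) (p q : K[X]) : sym d (p + q) = sym d p + sym d q := by
  ext k
  rw [map_add]
  by_cases hk : k ≤ d
  · rw [coeff_sym d _ hk, coeff_sym d _ hk, coeff_sym d _ hk, coeff_add, add_div]
  · simp [sym, hk]

omit [CharZero K] in
lemma sym_smul (d : ℕ) (c : K) (p : K[X]) : sym d (c • p) = c • sym d p := by
  ext k
  rw [map_smul]
  by_cases hk : k ≤ d
  · rw [coeff_sym d _ hk, coeff_sym d _ hk, coeff_smul, smul_eq_mul, smul_eq_mul, mul_div_assoc]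
  · simp [sym, hk]

omit [CharZero K] in
lemma conv_add_left (d : ℕ) (p q r : K[X]) : conv d (p + q) r = conv d p r + conv d q r := by
  unfold conv
  rw [sym_add, add_act]

omit [CharZero K] in
lemma conv_smul_left (d : ℕ) (c : K) (p r : K[X]) : conv d (c • p) r = c • conv d p r := by
  unfold conv
  rw [sym_smul, smul_act]

omit [CharZero K] in
lemma conv_act_right (d : ℕ) (p : K[X]) (φ : PowerSeries K) (q : K[X]) :
    conv d p (act φ q) = act φ (conv d p q) := by
  unfold conv
  rw [act_comm]

omit [CharZero K] in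
lemma natDegree_conv_le {d : ℕ} (p : K[X]) {q : K[X]} (hq : q.natDegree ≤ d) :
    (conv d p q).natDegree ≤ d := (natDegree_act_le _ _).trans hq

lemma conv_act_left {d : ℕ} {p q : K[X]} (hp : p.natDegree ≤ d) (hq : q.natDegree ≤ d)
    (φ : PowerSeries K) : conv d (act φ p) q = act φ (conv d p q) := by
  rw [conv_comm ((natDegree_act_le φ p).trans hp) hq, conv_act_right, conv_comm hq hp]

lemma coeff_conv {d : ℕ} (p : K[X]) {q : K[X]} (hq : q.natDegree ≤ d) {i : ℕ} (hi : i ≤ d) :
    (conv d p q).coeff (d - i) = (d.descFactorial i : K) *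
      ∑ x ∈ antidiagonal i, (p.coeff (d - x.1) / (d.descFactorial x.1 : K)) *
        (q.coeff (d - x.2) / (d.descFactorial x.2 : K)) := by
  rw [conv_eq_pol p hq, coeff_pol d _ hi, PowerSeries.coeff_mul, mul_comm]
  congr 1
  apply sum_congr rfl
  intro x hx
  have := HasAntidiagonal.mem_antidiagonal.mp hx
  rw [coeff_sym d p (by omega), coeff_sym d q (by omega)]

/-! ### Root polynomials -/

omit [CharZero K] in
lemma rp_monic {d : ℕ} (x : Fin d → K) : (rp x).Monic := monic_prod_X_sub_C _ _

omit [CharZero K] in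
lemma natDegree_rp {d : ℕ} (x : Fin d → K) : (rp x).natDegree = d := by
  unfold rp
  rw [natDegree_prod_of_monic _ _ (fun j _ => monic_X_sub_C _)]
  simp

omit [CharZero K] in
lemma coeff_rp_top {d : ℕ} (x : Fin d → K) : (rp x).coeff d = 1 := by
  have := (rp_monic x).coeff_natDegree
  rwa [natDegree_rp] at this

lemma coeff_conv_top {d : ℕ} (x : Fin d → K) {q : K[X]} (hq : q.natDegree ≤ d) :
    (conv d (rp x) q).coeff d = q.coeff d := by
  have := coeff_conv (rp x) hq (i := 0) (by omega)
  simpa [coeff_rp_top] using this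

lemma conv_monic {d : ℕ} (x y : Fin d → K) : (conv d (rp x) (rp y)).Monic := by
  apply monic_of_natDegree_le_of_coeff_eq_one d
  · exact natDegree_conv_le _ (natDegree_rp y).le
  · rw [coeff_conv_top x (natDegree_rp y).le, coeff_rp_top]

lemma natDegree_conv {d : ℕ} (x y : Fin d → K) : (conv d (rp x) (rp y)).natDegree = d := by
  apply le_antisymm (natDegree_conv_le _ (natDegree_rp y).le)
  apply le_natDegree_of_ne_zero
  rw [coeff_conv_top x (natDegree_rp y).le, coeff_rp_top]
  exact one_ne_zero

omit [CharZero K] in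
lemma eval_rp {d : ℕ} (x : Fin d → K) (z : K) : (rp x).eval z = ∏ i, (z - x i) := by
  unfold rp
  rw [eval_prod]
  simp

omit [CharZero K] in
lemma eval_rp_self {d : ℕ} (x : Fin d → K) (i : Fin d) : (rp x).eval (x i) = 0 := by
  rw [eval_rp]
  exact prod_eq_zero (mem_univ i) (sub_self _)

omit [CharZero K] in
lemma eval_derivative_rp_self {d : ℕ} (x : Fin d → K) (i : Fin d) :
    (rp x).derivative.eval (x i) = ∏ j ∈ univ.erase i, (x i - x j) := by
  unfold rp
  rw [derivative_prod_finset, eval_finsetSum, sum_eq_single i]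
  · rw [eval_mul, eval_prod]
    simp
  · intro j _ hji
    rw [eval_mul, eval_prod, prod_eq_zero (i := i), zero_mul]
    · exact mem_erase.mpr ⟨hji.symm, mem_univ i⟩
    · simp
  · simp

omit [CharZero K] in
lemma eval_derivative_rp_ne_zero {d : ℕ} {x : Fin d → K} (hx : Function.Injective x) (i : Fin d) :
    (rp x).derivative.eval (x i) ≠ 0 := by
  rw [eval_derivative_rp_self, prod_ne_zero_iff]
  intro j hj
  rw [sub_ne_zero]
  intro h
  exact (mem_erase.mp hj).1 (hx h).symm

end General

section Map

variable {K L : Type*} [Field K] [Field L]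

lemma act_map (ι : K →+* L) (φ : PowerSeries K) (f : K[X]) :
    (act φ f).map ι = act (φ.map ι) (f.map ι) := by
  rw [act_eq_sum (φ.map ι) (n := f.natDegree + 1)
    (by rw [natDegree_map_eq_of_injective ι.injective]; omega), act, Polynomial.map_sum]
  apply sum_congr rfl
  intro k _
  rw [PowerSeries.coeff_map, iterate_derivative_map, smul_eq_C_mul, smul_eq_C_mul,
    Polynomial.map_mul, map_C]

lemma sym_map (ι : K →+* L) (d : ℕ) (p : K[X]) : (sym d p).map ι = sym d (p.map ι) := by
  ext k
  rw [PowerSeries.coeff_map]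
  by_cases hk : k ≤ d
  · rw [coeff_sym d _ hk, coeff_sym d _ hk, coeff_map, map_div₀, map_natCast]
  · simp [sym, hk]

lemma conv_map (ι : K →+* L) (d : ℕ) (p q : K[X]) :
    (conv d p q).map ι = conv d (p.map ι) (q.map ι) := by
  unfold conv
  rw [act_map, sym_map]

lemma rp_map (ι : K →+* L) {d : ℕ} (x : Fin d → K) : (rp x).map ι = rp (fun i => ι (x i)) := by
  unfold rp
  rw [Polynomial.map_prod]
  simp

end Map

end Pool.Agent.Lib_helper19.FF
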