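import Mathlib
import Pool.Agent.Lib_helper19.FF.Basic

set_option autoImplicit false

/-!
# Differentiable curves of roots
-/

open Polynomial Finset Filter
open scoped Topology

namespace Pool.Agent.Lib_helper19.FF

variable {𝕜 : Type*} [RCLike 𝕜]

/-- Scalar implicit function theorem. -/
lemma exists_implicit_curve {F : 𝕜 × 𝕜 → 𝕜} {t₀ z₀ a b : 𝕜} (hF : ContDiffAt 𝕜 1 F (t₀, z₀))
    (h0 : F (t₀, z₀) = 0) (ha : HasDerivAt (fun t => F (t, z₀)) a t₀)
    (hb : HasDerivAt (fun z => F (t₀, z)) b z₀) (hb0 : b ≠ 0) :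
    ∃ ρ : 𝕜 → 𝕜, ρ t₀ = z₀ ∧ HasDerivAt ρ (-a / b) t₀ ∧ ∀ᶠ t in 𝓝 t₀, F (t, ρ t) = 0 := by
  have hs : HasStrictFDerivAt F (fderiv 𝕜 F (t₀, z₀)) (t₀, z₀) :=
    hF.hasStrictFDerivAt (by norm_num)
  have hfd : HasFDerivAt F (fderiv 𝕜 F (t₀, z₀)) (t₀, z₀) := hs.hasFDerivAt
  have e1 : fderiv 𝕜 F (t₀, z₀) (1, 0) = a := by
    have h1 : HasDerivAt (fun t : 𝕜 => ((t, z₀) : 𝕜 × 𝕜)) (1, 0) t₀ :=
      (hasDerivAt_id t₀).prodMk (hasDerivAt_const t₀ z₀)
    exact (hfd.comp_hasDerivAt t₀ h1).unique ha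
  have e2 : fderiv 𝕜 F (t₀, z₀) (0, 1) = b := by
    have h1 : HasDerivAt (fun z : 𝕜 => ((t₀, z) : 𝕜 × 𝕜)) (0, 1) z₀ :=
      (hasDerivAt_const z₀ t₀).prodMk (hasDerivAt_id z₀)
    exact (hfd.comp_hasDerivAt z₀ h1).unique hb
  have hinv : ((fderiv 𝕜 F (t₀, z₀)) ∘L .inr 𝕜 𝕜 𝕜).IsInvertible := by
    refine ⟨ContinuousLinearEquiv.unitsEquivAut 𝕜 (Units.mk0 b hb0), ?_⟩
    ext
    simp [e2]
  refine ⟨hs.implicitFunctionOfProdDomain hinv, ?_, ?_, ?_⟩
  · exact (hs.eventually_apply_eq_iff_implicitFunctionOfProdDomain hinv).self_of_nhds.mp rfl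
  · have hd := (hs.hasStrictFDerivAt_implicitFunctionOfProdDomain hinv).hasFDerivAt.hasDerivAt
    set ρ' := (-(((fderiv 𝕜 F (t₀, z₀)) ∘L .inr 𝕜 𝕜 𝕜).inverse ∘L
      ((fderiv 𝕜 F (t₀, z₀)) ∘L .inl 𝕜 𝕜 𝕜)) : 𝕜 →L[𝕜] 𝕜) 1 with hρ'
    have hd' : HasDerivAt (hs.implicitFunctionOfProdDomain hinv) ρ' t₀ := by
      convert! hd using 1
    have hz : hs.implicitFunctionOfProdDomain hinv t₀ = z₀ :=
      (hs.eventually_apply_eq_iff_implicitFunctionOfProdDomain hinv).self_of_nhds.mp rfl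
    have hev := hs.eventually_apply_implicitFunctionOfProdDomain hinv
    have h1 : HasDerivAt (fun t : 𝕜 => ((t, hs.implicitFunctionOfProdDomain hinv t) : 𝕜 × 𝕜))
        (1, ρ') t₀ := (hasDerivAt_id t₀).prodMk hd'
    have hfd' : HasFDerivAt F (fderiv 𝕜 F (t₀, z₀))
        (t₀, hs.implicitFunctionOfProdDomain hinv t₀) := by rw [hz]; exact hfd
    have h2 := hfd'.comp_hasDerivAt t₀ h1
    have h3 : HasDerivAt (F ∘ fun t : 𝕜 => ((t, hs.implicitFunctionOfProdDomain hinv t) : 𝕜 × 𝕜))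
        0 t₀ := by
      apply (hasDerivAt_const t₀ (F (t₀, z₀))).congr_of_eventuallyEq
      exact hev
    have h4 := h2.unique h3
    have h5 : ((1 : 𝕜), ρ') = (1, 0) + ρ' • ((0 : 𝕜), (1 : 𝕜)) := by simp
    rw [h5, map_add, map_smul, e1, e2, smul_eq_mul] at h4
    have h6 : ρ' = -a / b := by
      rw [eq_div_iff hb0]
      linear_combination h4
    rw [← h6]
    exact hd'
  · have hev := hs.eventually_apply_implicitFunctionOfProdDomain hinv
    filter_upwards [hev] with t ht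
    rw [ht, h0]

/-- A monic polynomial of degree `d` vanishing at `d` distinct points. -/
lemma eq_rp_of_roots {K : Type*} [Field K] {d : ℕ} {p : K[X]} (hp : p.Monic)
    (hd : p.natDegree = d) {x : Fin d → K} (hx : Function.Injective x)
    (h : ∀ i, p.eval (x i) = 0) : p = rp x := by
  classical
  have h1 : (p - rp x).degree < d := by
    have h2 : p.degree = d := by rw [degree_eq_natDegree hp.ne_zero, hd]
    have h3 : (rp x).degree = d := by rw [degree_eq_natDegree (rp_monic x).ne_zero, natDegree_rp]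
    rw [← h2]
    apply degree_sub_lt_left
    · rw [h2, h3]
    · exact hp.ne_zero
    · rw [hp.leadingCoeff, (rp_monic x).leadingCoeff]
  have h4 : p - rp x = 0 := by
    apply eq_zero_of_degree_lt_of_eval_finset_eq_zero (univ.image x)
    · rw [card_image_of_injective _ hx]
      simpa using h1
    · intro z hz
      rw [mem_image] at hz
      obtain ⟨i, -, rfl⟩ := hz
      rw [eval_sub, h i, eval_rp_self, sub_zero]
  exact sub_eq_zero.mp h4

/-- **Root curves.** -/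
theorem exists_root_curves {d : ℕ} {P : 𝕜 → 𝕜[X]} (hm : ∀ t, (P t).Monic)
    (hd : ∀ t, (P t).natDegree = d) (hc : ∀ k, ContDiff 𝕜 1 fun t => (P t).coeff k) {t₀ : 𝕜}
    {ν : Fin d → 𝕜} (h0 : P t₀ = rp ν) (hν : Function.Injective ν) {a : Fin d → 𝕜}
    (ha : ∀ i, HasDerivAt (fun t => (P t).eval (ν i)) (a i) t₀) :
    ∃ ρ : Fin d → 𝕜 → 𝕜, (∀ i, ρ i t₀ = ν i) ∧
      (∀ i, HasDerivAt (ρ i) (-(a i) / (rp ν).derivative.eval (ν i)) t₀) ∧
      ∀ᶠ t in 𝓝 t₀, P t = rp (fun i => ρ i t) := by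
  have hF : ContDiff 𝕜 1 (fun v : 𝕜 × 𝕜 => (P v.1).eval v.2) := by
    have : (fun v : 𝕜 × 𝕜 => (P v.1).eval v.2) =
        fun v : 𝕜 × 𝕜 => ∑ k ∈ range (d + 1), (P v.1).coeff k * v.2 ^ k := by
      ext v
      rw [eval_eq_sum_range, hd]
    rw [this]
    apply ContDiff.sum
    intro k _
    exact ((hc k).comp contDiff_fst).mul (contDiff_snd.pow k)
  have hex : ∀ i, ∃ ρ : 𝕜 → 𝕜, ρ t₀ = ν i ∧
      HasDerivAt ρ (-(a i) / (rp ν).derivative.eval (ν i)) t₀ ∧
      ∀ᶠ t in 𝓝 t₀, (P t).eval (ρ t) = 0 := by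
    intro i
    apply exists_implicit_curve (F := fun v : 𝕜 × 𝕜 => (P v.1).eval v.2) hF.contDiffAt
    · simp only
      rw [h0, eval_rp_self]
    · exact ha i
    · simp only
      rw [h0]
      exact (rp ν).hasDerivAt (ν i)
    · exact eval_derivative_rp_ne_zero hν i
  choose ρ hρ1 hρ2 hρ3 using hex
  refine ⟨ρ, hρ1, hρ2, ?_⟩
  have hinj : ∀ᶠ t in 𝓝 t₀, Function.Injective (fun i => ρ i t) := by
    have h1 : ∀ i j, i ≠ j → ∀ᶠ t in 𝓝 t₀, ρ i t ≠ ρ j t := by
      intro i j hij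
      have h2 : Tendsto (fun t => ρ i t - ρ j t) (𝓝 t₀) (𝓝 (ν i - ν j)) := by
        have h4 := ((hρ2 i).continuousAt.sub (hρ2 j).continuousAt).tendsto
        rw [Pi.sub_apply, hρ1, hρ1] at h4
        exact h4
      have h3 : ν i - ν j ≠ 0 := sub_ne_zero.mpr (fun h => hij (hν h))
      filter_upwards [h2.eventually_ne h3] with t ht h
      exact ht (sub_eq_zero.mpr h)
    have h2 : ∀ᶠ t in 𝓝 t₀, ∀ i j, i ≠ j → ρ i t ≠ ρ j t := by
      rw [eventually_all]
      intro i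
      rw [eventually_all]
      intro j
      by_cases hij : i = j
      · simp [hij]
      · filter_upwards [h1 i j hij] with t ht _
        exact ht
    filter_upwards [h2] with t ht i j hij
    by_contra hne
    exact ht i j hne hij
  have hall : ∀ᶠ t in 𝓝 t₀, ∀ i, (P t).eval (ρ i t) = 0 := by
    rw [eventually_all]
    exact hρ3
  filter_upwards [hinj, hall] with t h1 h2
  exact eq_rp_of_roots (hm t) (hd t) h1 h2

/-- Coefficients of products of linear factors depend smoothly on the roots. -/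
lemma contDiff_coeff_prod {E : Type*} [NormedAddCommGroup E] [NormedSpace 𝕜 E] {ι : Type*}
    {n : WithTop ℕ∞} (s : Finset ι) (f : ι → E → 𝕜) (hf : ∀ i, ContDiff 𝕜 n (f i)) (k : ℕ) :
    ContDiff 𝕜 n (fun e => (∏ i ∈ s, (X - C (f i e))).coeff k) := by
  classical
  induction s using Finset.induction_on generalizing k with
  | empty => simpa using! contDiff_const
  | insert a s ha ih =>
    simp only [prod_insert ha, sub_mul, coeff_sub, coeff_C_mul]
    rcases k with _ | k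
    · simp only [mul_coeff_zero, coeff_X_zero, zero_mul]
      exact contDiff_const.sub ((hf a).mul (by simpa using! ih 0))
    · simp only [coeff_X_mul]
      exact (ih k).sub ((hf a).mul (ih (k + 1)))

end Pool.Agent.Lib_helper19.FF
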