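import Mathlib
import Pool.Agent.Lib_helper19.FF.Basic
import Pool.Agent.Lib_helper19.FF.RootCurve

set_option autoImplicit false

/-!
# The permutation polynomial

For `a : Fin d → ℂ` there is a function `E a x e`, polynomial in `x` and in `e : Fin d → ℂ`, with
`E a x e = ∏_π (x - ∑ a_i ρ_{π i})` whenever `e` is the vector of elementary symmetric functions of
`ρ`, that is, the vector of signed coefficients of `rp ρ`.
-/

open Polynomial Finset

namespace Pool.Agent.Lib_helper19.FF

lemma coeff_rp {K : Type*} [Field K] {d : ℕ} (x : Fin d → K) {k : ℕ} (hk : k ≤ d) :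
    (rp x).coeff (d - k) = (-1) ^ k * ∑ t ∈ powersetCard k (univ : Finset (Fin d)), ∏ i ∈ t, x i := by
  have h1 : rp x = ∏ i ∈ (univ : Finset (Fin d)), (X + C (-x i)) := by
    unfold rp
    apply prod_congr rfl
    intro i _
    rw [C_neg, sub_eq_add_neg]
  rw [h1, Finset.prod_X_add_C_coeff _ _ (by simp), mul_sum]
  have h2 : #(univ : Finset (Fin d)) - (d - k) = k := by
    rw [card_univ, Fintype.card_fin]
    omega
  rw [h2]
  apply sum_congr rfl
  intro t ht
  rw [prod_neg, (mem_powersetCard.mp ht).2]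

lemma coeff_rp_mul {K : Type*} [Field K] {d : ℕ} (c : K) (x : Fin d → K) {k : ℕ} (hk : k ≤ d) :
    (rp (fun i => c * x i)).coeff (d - k) = c ^ k * (rp x).coeff (d - k) := by
  rw [coeff_rp _ hk, coeff_rp _ hk, mul_left_comm]
  congr 1
  rw [mul_sum]
  apply sum_congr rfl
  intro t ht
  rw [prod_mul_distrib, prod_const, (mem_powersetCard.mp ht).2]

lemma ext_coeff_sub {K : Type*} [Field K] {d : ℕ} {p q : K[X]} (hp : p.natDegree ≤ d)
    (hq : q.natDegree ≤ d) (h : ∀ k ≤ d, p.coeff (d - k) = q.coeff (d - k)) : p = q := by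
  ext j
  by_cases hj : j ≤ d
  · have := h (d - j) (by omega)
    rwa [Nat.sub_sub_self hj] at this
  · rw [coeff_eq_zero_of_natDegree_lt (by omega), coeff_eq_zero_of_natDegree_lt (by omega)]

lemma conv_rp_mul {K : Type*} [Field K] [CharZero K] {d : ℕ} (c : K) {x y z : Fin d → K}
    (h : conv d (rp x) (rp y) = rp z) :
    conv d (rp (fun i => c * x i)) (rp (fun i => c * y i)) = rp (fun i => c * z i) := by
  apply ext_coeff_sub (natDegree_conv_le _ (natDegree_rp _).le) (natDegree_rp _).le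
  intro k hk
  rw [coeff_rp_mul c z hk, ← h, coeff_conv _ (natDegree_rp _).le hk,
    coeff_conv _ (natDegree_rp _).le hk, mul_left_comm]
  congr 1
  rw [mul_sum]
  apply sum_congr rfl
  intro s hs
  have h1 := HasAntidiagonal.mem_antidiagonal.mp hs
  rw [coeff_rp_mul c x (by omega), coeff_rp_mul c y (by omega), ← h1, pow_add]
  ring

variable {d : ℕ}

/-- The symmetric polynomial `∏_π (X - ∑ a_i Y_{π i})`. -/
noncomputable def permPoly (a : Fin d → ℂ) : MvPolynomial (Fin d) ℂ[X] :=
  ∏ π : Equiv.Perm (Fin d), (MvPolynomial.C X -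
    ∑ i, MvPolynomial.C (C (a i)) * MvPolynomial.X (π i))

lemma permPoly_symm (a : Fin d → ℂ) : (permPoly a).IsSymmetric := by
  intro σ
  unfold permPoly
  rw [map_prod]
  refine Eq.trans ?_ (Equiv.prod_comp (Equiv.mulLeft σ) (fun π : Equiv.Perm (Fin d) =>
    (MvPolynomial.C X - ∑ i, MvPolynomial.C (C (a i)) * MvPolynomial.X (π i) :
      MvPolynomial (Fin d) ℂ[X])))
  apply prod_congr rfl
  intro π _
  simp [map_sub, map_sum, map_mul]

lemma exists_esymm (a : Fin d → ℂ) : ∃ g : MvPolynomial (Fin d) ℂ[X],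
    MvPolynomial.aeval (fun i : Fin d => MvPolynomial.esymm (Fin d) ℂ[X] (i + 1)) g =
      permPoly a := by
  obtain ⟨g, hg⟩ := MvPolynomial.esymmAlgHom_fin_surjective (R := ℂ[X]) (le_refl d)
    ⟨permPoly a, permPoly_symm a⟩
  refine ⟨g, ?_⟩
  rw [← MvPolynomial.esymmAlgHom_apply, hg]

/-- The polynomial in the elementary symmetric functions. -/
noncomputable def gPoly (a : Fin d → ℂ) : MvPolynomial (Fin d) ℂ[X] := (exists_esymm a).choose

lemma gPoly_spec (a : Fin d → ℂ) :
    MvPolynomial.aeval (fun i : Fin d => MvPolynomial.esymm (Fin d) ℂ[X] (i + 1)) (gPoly a) =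
      permPoly a := (exists_esymm a).choose_spec

/-- The evaluation of `gPoly`. -/
noncomputable def E (a : Fin d → ℂ) (x : ℂ) (e : Fin d → ℂ) : ℂ :=
  (gPoly a).eval₂ (evalRingHom x) e

lemma E_eq_sum (a : Fin d → ℂ) (x : ℂ) (e : Fin d → ℂ) :
    E a x e = ∑ m ∈ (gPoly a).support, ((gPoly a).coeff m).eval x * ∏ i, e i ^ m i := by
  unfold E
  rw [MvPolynomial.eval₂_eq']
  rfl

lemma E_of_roots (a : Fin d → ℂ) (x : ℂ) (ρ : Fin d → ℂ) :
    E a x (fun i => (-1) ^ (i.val + 1) * (rp ρ).coeff (d - (i.val + 1))) =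
      ∏ π : Equiv.Perm (Fin d), (x - ∑ i, a i * ρ (π i)) := by
  have h1 : ∀ f : MvPolynomial (Fin d) ℂ[X],
      MvPolynomial.eval₂ (evalRingHom x) ρ (MvPolynomial.aeval
        (fun i : Fin d => MvPolynomial.esymm (Fin d) ℂ[X] (i + 1)) f) =
      MvPolynomial.eval₂ (evalRingHom x)
        (fun i => (-1) ^ (i.val + 1) * (rp ρ).coeff (d - (i.val + 1))) f := by
    intro f
    have h2 : ∀ i : Fin d, MvPolynomial.eval₂ (evalRingHom x) ρ
        (MvPolynomial.esymm (Fin d) ℂ[X] (i + 1)) =
        (-1) ^ (i.val + 1) * (rp ρ).coeff (d - (i.val + 1)) := by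
      intro i
      rw [coeff_rp ρ (by omega), ← mul_assoc, ← mul_pow]
      simp only [mul_neg, mul_one, neg_neg, one_pow, one_mul]
      unfold MvPolynomial.esymm
      rw [← MvPolynomial.coe_eval₂Hom, map_sum]
      apply sum_congr rfl
      intro t _
      rw [map_prod]
      simp
    induction f using MvPolynomial.induction_on with
    | C r => simp
    | add p q hp hq => rw [map_add, MvPolynomial.eval₂_add, MvPolynomial.eval₂_add, hp, hq]
    | mul_X p i hp =>
      rw [map_mul, MvPolynomial.eval₂_mul, MvPolynomial.eval₂_mul, hp, MvPolynomial.aeval_X,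
        MvPolynomial.eval₂_X, h2]
  unfold E
  rw [← h1, gPoly_spec]
  unfold permPoly
  rw [← MvPolynomial.coe_eval₂Hom, map_prod]
  apply prod_congr rfl
  intro π _
  simp

lemma continuous_E (a : Fin d → ℂ) : Continuous (fun v : ℂ × (Fin d → ℂ) => E a v.1 v.2) := by
  have : (fun v : ℂ × (Fin d → ℂ) => E a v.1 v.2) = fun v : ℂ × (Fin d → ℂ) =>
      ∑ m ∈ (gPoly a).support, ((gPoly a).coeff m).eval v.1 * ∏ i, v.2 i ^ m i := by
    ext v
    exact E_eq_sum a v.1 v.2
  rw [this]
  apply continuous_finsetSum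
  intro m _
  apply Continuous.mul
  · exact ((gPoly a).coeff m).continuous.comp continuous_fst
  · fun_prop

lemma differentiable_E (a : Fin d → ℂ) {x : ℂ → ℂ} {e : ℂ → Fin d → ℂ} (hx : Differentiable ℂ x)
    (he : ∀ i, Differentiable ℂ (fun t => e t i)) :
    Differentiable ℂ (fun t => E a (x t) (e t)) := by
  have : (fun t => E a (x t) (e t)) = fun t =>
      ∑ m ∈ (gPoly a).support, ((gPoly a).coeff m).eval (x t) * ∏ i, e t i ^ m i := by
    ext t
    exact E_eq_sum a (x t) (e t)
  rw [this]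
  apply Differentiable.fun_sum
  intro m _
  apply Differentiable.fun_mul
  · exact ((gPoly a).coeff m).differentiable.comp hx
  · fun_prop

end Pool.Agent.Lib_helper19.FF
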