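import Mathlib
import Pool.Agent.Lib_helper19.FF.Basic

set_option autoImplicit false

/-!
# Real-rootedness of the finite free convolution
-/

open Polynomial Finset

namespace Pool.Agent.Lib_helper19.FF

/-- `p` has degree at most `n` and does not vanish in the open upper half plane. -/
def LH (n : ℕ) (p : ℂ[X]) : Prop := p.natDegree ≤ n ∧ ∀ z : ℂ, 0 < z.im → p.eval z ≠ 0

/-- The polar derivative of order `n + 1`. -/
noncomputable def polar (n : ℕ) (c : ℂ) (p : ℂ[X]) : ℂ[X] :=
  p + C (1 / (n + 1 : ℂ)) * ((C c - X) * derivative p)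

lemma iterate_derivative_C_sub_X_mul (c : ℂ) (f : ℂ[X]) (k : ℕ) :
    derivative^[k] ((C c - X) * f) =
      (C c - X) * derivative^[k] f - C (k : ℂ) * derivative^[k - 1] f := by
  induction k with
  | zero => simp
  | succ k ih =>
    rw [Function.iterate_succ_apply', ih]
    rcases k with _ | k
    · simp
      ring
    · simp only [Nat.add_sub_cancel, derivative_sub, derivative_mul, derivative_C, derivative_X,
        ← Function.iterate_succ_apply' derivative]
      push_cast
      simp only [C_add, C_1]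
      ring

lemma eval_iterate_polar (n : ℕ) (x c : ℂ) (p : ℂ[X]) (k : ℕ) :
    (derivative^[k] (polar n (x - c) p)).eval x =
      ((n + 1 - k : ℂ) / (n + 1)) * (derivative^[k] p).eval x -
        (c / (n + 1)) * (derivative^[k + 1] p).eval x := by
  have hn : (n + 1 : ℂ) ≠ 0 := by exact_mod_cast Nat.succ_ne_zero n
  unfold polar
  rw [iterate_map_add, iterate_derivative_C_mul, iterate_derivative_C_sub_X_mul]
  simp only [← Function.iterate_succ_apply, eval_add, eval_mul, eval_sub, eval_C, eval_X]
  rcases k with _ | k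
  · simp
    field_simp
    ring
  · simp only [Nat.succ_eq_add_one, Nat.add_sub_cancel]
    push_cast
    field_simp
    ring

lemma coeff_sym_succ_zero (n : ℕ) (c : ℂ) {q : ℂ[X]} (hq : q.natDegree ≤ n) :
    PowerSeries.coeff 0 (sym (n + 1) ((X - C c) * q)) = PowerSeries.coeff 0 (sym n q) := by
  rw [coeff_sym _ _ (by omega), coeff_sym _ _ (by omega)]
  simp only [Nat.sub_zero, Nat.descFactorial_zero, Nat.cast_one, div_one]
  have h0 : q.coeff (n + 1) = 0 := coeff_eq_zero_of_natDegree_lt (by omega)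
  rw [sub_mul, coeff_sub, coeff_X_mul, coeff_C_mul, h0]
  simp

lemma coeff_sym_succ_succ (n : ℕ) (c : ℂ) {q : ℂ[X]} {j : ℕ} (hj : j ≤ n) :
    PowerSeries.coeff (j + 1) (sym (n + 1) ((X - C c) * q)) =
      ((n - j : ℂ) / (n + 1)) * PowerSeries.coeff (j + 1) (sym n q) -
        (c / (n + 1)) * PowerSeries.coeff j (sym n q) := by
  have hn : (n + 1 : ℂ) ≠ 0 := by exact_mod_cast Nat.succ_ne_zero n
  have hd : (n.descFactorial j : ℂ) ≠ 0 := descFactorial_ne_zero hj
  rw [coeff_sym _ _ (by omega), coeff_sym n q hj]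
  have e1 : n + 1 - (j + 1) = n - j := by omega
  rw [e1, Nat.succ_descFactorial_succ, sub_mul, coeff_sub, coeff_C_mul]
  push_cast
  rcases hj.eq_or_lt with rfl | hlt
  · have : PowerSeries.coeff (j + 1) (sym j q) = 0 := by simp [sym]
    rw [this, Nat.sub_self]
    simp only [mul_coeff_zero, coeff_X_zero, zero_mul, zero_sub, mul_zero]
    field_simp
  · rw [coeff_sym n q (by omega), Nat.descFactorial_succ]
    obtain ⟨m, hm⟩ : ∃ m, n - j = m + 1 := ⟨n - j - 1, by omega⟩
    have e2 : n - (j + 1) = m := by omega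
    rw [hm, e2, coeff_X_mul]
    have e3 : (n : ℂ) - j = (m : ℂ) + 1 := by
      have : n = j + (m + 1) := by omega
      rw [this]; push_cast; ring
    have hm1 : (m + 1 : ℂ) ≠ 0 := by exact_mod_cast Nat.succ_ne_zero m
    rw [e3]
    push_cast
    field_simp

lemma eval_act_recursion (n : ℕ) (x c : ℂ) {p q : ℂ[X]} (hp : p.natDegree ≤ n + 1)
    (hq : q.natDegree ≤ n) :
    (act (sym (n + 1) ((X - C c) * q)) p).eval x =
      (act (sym n q) (polar n (x - c) p)).eval x := by
  have hn : (n + 1 : ℂ) ≠ 0 := by exact_mod_cast Nat.succ_ne_zero n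
  have hpol : (polar n (x - c) p).natDegree < n + 2 := by
    unfold polar
    refine lt_of_le_of_lt (natDegree_add_le _ _) ?_
    rw [max_lt_iff]
    refine ⟨by omega, ?_⟩
    rcases Nat.eq_zero_or_pos p.natDegree with h0 | h0
    · have : derivative p = 0 := by
        rw [eq_C_of_natDegree_eq_zero h0, derivative_C]
      rw [this]; simp
    · refine lt_of_le_of_lt (natDegree_C_mul_le _ _) ?_
      refine lt_of_le_of_lt natDegree_mul_le ?_
      have h1 : (C (x - c) - X : ℂ[X]).natDegree ≤ 1 := by
        refine (natDegree_sub_le _ _).trans ?_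
        simp
      have h2 := natDegree_derivative_lt (p := p) (by omega)
      omega
  rw [act_eq_sum _ (n := n + 2) (by omega), act_eq_sum _ hpol, eval_finsetSum, eval_finsetSum]
  simp only [eval_smul, smul_eq_mul, eval_iterate_polar]
  set P : ℕ → ℂ := fun k => (derivative^[k] p).eval x with hP
  set β : ℕ → ℂ := fun k => PowerSeries.coeff k (sym n q) with hβ
  have hβtop : β (n + 1) = 0 := by simp [hβ, sym]
  have hR : ∑ k ∈ range (n + 2), β k * (((n + 1 - k : ℂ) / (n + 1)) * P k -
      (c / (n + 1)) * P (k + 1)) =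
      ∑ k ∈ range (n + 2), ((n + 1 - k : ℂ) / (n + 1)) * β k * P k -
        ∑ k ∈ range (n + 1), (c / (n + 1)) * β k * P (k + 1) := by
    have h2 : ∑ k ∈ range (n + 2), (c / (n + 1)) * β k * P (k + 1) =
        ∑ k ∈ range (n + 1), (c / (n + 1)) * β k * P (k + 1) := by
      rw [sum_range_succ, hβtop]; ring
    rw [← h2, ← sum_sub_distrib]
    apply sum_congr rfl
    intro k _
    ring
  change _ = ∑ k ∈ range (n + 2), β k * (((n + 1 - k : ℂ) / (n + 1)) * P k -
      (c / (n + 1)) * P (k + 1))
  rw [hR, sum_range_succ' _ (n + 1), sum_range_succ' _ (n + 1), coeff_sym_succ_zero n c hq]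
  have h3 : ∑ j ∈ range (n + 1), PowerSeries.coeff (j + 1) (sym (n + 1) ((X - C c) * q)) *
      (derivative^[j + 1] p).eval x =
      ∑ j ∈ range (n + 1), (((n - j : ℂ) / (n + 1)) * β (j + 1) - (c / (n + 1)) * β j) *
        P (j + 1) := by
    apply sum_congr rfl
    intro j hj
    rw [coeff_sym_succ_succ n c (by simp only [mem_range] at hj; omega)]
  rw [h3]
  simp only [sub_mul, sum_sub_distrib]
  have h4 : ((n + 1 - ((0 : ℕ) : ℂ)) / (n + 1)) = 1 := by
    rw [Nat.cast_zero, sub_zero, div_self hn]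
  rw [h4, one_mul]
  have h5 : ∀ j : ℕ, ((n : ℂ) + 1 - ((j + 1 : ℕ) : ℂ)) / (n + 1) = (n - j) / (n + 1) := by
    intro j; push_cast; congr 1; ring
  simp only [h5]
  ring

/-! ### Nonvanishing -/

lemma disc_bound {w : ℂ} {h : ℝ} (hh : 0 < h) (hw : h ≤ w.im) :
    ‖1 / w + Complex.I / (2 * h)‖ ≤ 1 / (2 * h) := by
  have hw0 : w ≠ 0 := by
    rintro rfl
    simp at hw
    linarith
  have hwn : 0 < ‖w‖ := norm_pos_iff.mpr hw0
  have hhC : (h : ℂ) ≠ 0 := by exact_mod_cast hh.ne'
  have h2 : (2 * h : ℂ) ≠ 0 := by simpa using hhC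
  have e1 : 1 / w + Complex.I / (2 * h) = (2 * h + Complex.I * w) / (w * (2 * h)) := by
    rw [div_add_div _ _ hw0 h2]
    congr 1
    ring
  rw [e1, norm_div, norm_mul]
  have e2 : ‖(2 * h : ℂ)‖ = 2 * h := by
    have : (2 * h : ℂ) = ((2 * h : ℝ) : ℂ) := by push_cast; ring
    rw [this, Complex.norm_real, Real.norm_of_nonneg (by positivity)]
  rw [e2, div_le_div_iff₀ (by positivity) (by positivity)]
  have e3 : ‖(2 * h : ℂ) + Complex.I * w‖ ≤ ‖w‖ := by
    rw [← sq_le_sq₀ (norm_nonneg _) (norm_nonneg _), Complex.sq_norm, Complex.sq_norm,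
      Complex.normSq_apply, Complex.normSq_apply]
    simp only [Complex.add_re, Complex.mul_re, Complex.add_im, Complex.mul_im, Complex.I_re,
      Complex.I_im, Complex.ofReal_re, Complex.ofReal_im, Complex.re_ofNat, Complex.im_ofNat]
    nlinarith
  nlinarith

lemma sum_disc_bound {z : ℂ} (hz : 0 < z.im) (s : Multiset ℂ) (hs : ∀ r ∈ s, r.im ≤ 0) :
    ‖(s.map fun r => 1 / (z - r)).sum + (Multiset.card s : ℂ) * (Complex.I / (2 * z.im))‖ ≤
      (Multiset.card s : ℝ) / (2 * z.im) := by
  induction s using Multiset.induction_on with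
  | empty => simp
  | cons a s ih =>
    have h1 := ih (fun r hr => hs r (Multiset.mem_cons_of_mem hr))
    have h2 : ‖1 / (z - a) + Complex.I / (2 * z.im)‖ ≤ 1 / (2 * z.im) := by
      apply disc_bound hz
      have := hs a (Multiset.mem_cons_self a s)
      simp only [Complex.sub_im]
      linarith
    rw [Multiset.map_cons, Multiset.sum_cons, Multiset.card_cons]
    push_cast
    calc ‖1 / (z - a) + (s.map fun r => 1 / (z - r)).sum +
          ((Multiset.card s : ℂ) + 1) * (Complex.I / (2 * z.im))‖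
        = ‖(1 / (z - a) + Complex.I / (2 * z.im)) + ((s.map fun r => 1 / (z - r)).sum +
          (Multiset.card s : ℂ) * (Complex.I / (2 * z.im)))‖ := by congr 1; ring
      _ ≤ 1 / (2 * z.im) + (Multiset.card s : ℝ) / (2 * z.im) := (norm_add_le _ _).trans
          (add_le_add h2 h1)
      _ = ((Multiset.card s : ℝ) + 1) / (2 * z.im) := by ring

lemma coeff_polar (n : ℕ) (y : ℂ) (p : ℂ[X]) (k : ℕ) :
    (polar n y p).coeff k = p.coeff k + (1 / (n + 1 : ℂ)) *
      (y * (p.coeff (k + 1) * (k + 1)) - p.coeff k * k) := by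
  unfold polar
  rw [coeff_add, coeff_C_mul, sub_mul, coeff_sub, coeff_C_mul, coeff_derivative]
  rcases k with _ | k
  · simp
  · rw [coeff_X_mul, coeff_derivative]
    push_cast
    ring

lemma polar_LH {n : ℕ} {p : ℂ[X]} (hp : LH (n + 1) p) {y : ℂ} (hy : 0 < y.im) :
    LH n (polar n y p) := by
  have hn : (n + 1 : ℂ) ≠ 0 := by exact_mod_cast Nat.succ_ne_zero n
  constructor
  · rw [natDegree_le_iff_coeff_eq_zero]
    intro k hk
    rw [coeff_polar]
    have h1 : p.coeff (k + 1) = 0 :=
      coeff_eq_zero_of_natDegree_lt (lt_of_le_of_lt hp.1 (by omega))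
    rw [h1]
    rcases (Nat.succ_le_of_lt hk).eq_or_lt with h2 | h2
    · rw [← h2]
      push_cast
      field_simp
      ring
    · have h3 : p.coeff k = 0 := coeff_eq_zero_of_natDegree_lt (lt_of_le_of_lt hp.1 h2)
      rw [h3]
      ring
  · intro z hz h0
    have hpz := hp.2 z hz
    have hsplit : p.Splits := IsAlgClosed.splits p
    have hder := hsplit.eval_derivative_eq_eval_mul_sum hpz
    set S := (p.roots.map fun r => 1 / (z - r)).sum with hS
    have hbound := sum_disc_bound hz p.roots (by
      intro r hr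
      by_contra hcon
      push Not at hcon
      exact hp.2 r hcon (isRoot_of_mem_roots hr))
    rw [← hS] at hbound
    set m := Multiset.card p.roots with hm
    have hmn : (m : ℝ) ≤ n + 1 := by
      have : m ≤ n + 1 := (card_roots' p).trans hp.1
      exact_mod_cast this
    have hm0 : (0 : ℝ) ≤ m := Nat.cast_nonneg m
    have hn0 : (0 : ℝ) ≤ n := Nat.cast_nonneg n
    unfold polar at h0
    simp only [eval_add, eval_mul, eval_sub, eval_C, eval_X] at h0
    rw [hder] at h0
    have h1 : (n + 1 : ℂ) + (y - z) * S = 0 := by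
      have h2 : p.eval z * ((n + 1 : ℂ) + (y - z) * S) = 0 := by
        have h3 : p.eval z * ((n + 1 : ℂ) + (y - z) * S) =
            (n + 1) * (p.eval z + 1 / (n + 1 : ℂ) * ((y - z) * (p.eval z * S))) := by
          field_simp
        rw [h3, h0, mul_zero]
      exact (mul_eq_zero.mp h2).resolve_left hpz
    -- the centre of the disc
    have h2 : (y - z) * (S + m * (Complex.I / (2 * z.im))) =
        -((n + 1 : ℂ) - (y - z) * (m * (Complex.I / (2 * z.im)))) := by
      linear_combination h1
    have h3 : ‖(n + 1 : ℂ) - (y - z) * (m * (Complex.I / (2 * z.im)))‖ ≤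
        ‖y - z‖ * (m / (2 * z.im)) := by
      rw [← norm_neg, ← h2, norm_mul]
      exact mul_le_mul_of_nonneg_left hbound (norm_nonneg _)
    have h4 : ‖(n + 1 : ℂ) - (y - z) * (m * (Complex.I / (2 * z.im)))‖ ^ 2 ≤
        (‖y - z‖ * (m / (2 * z.im))) ^ 2 := pow_le_pow_left₀ (norm_nonneg _) h3 2
    have e5 : (m : ℂ) * (Complex.I / (2 * z.im)) = Complex.I * ((m / (2 * z.im) : ℝ) : ℂ) := by
      push_cast
      ring
    rw [e5, mul_pow, Complex.sq_norm, Complex.sq_norm, Complex.normSq_apply,
      Complex.normSq_apply] at h4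
    simp only [Complex.add_re, Complex.mul_re, Complex.add_im, Complex.mul_im, Complex.I_re,
      Complex.I_im, Complex.ofReal_re, Complex.ofReal_im, Complex.sub_re, Complex.sub_im,
      Complex.natCast_re, Complex.natCast_im, Complex.one_re, Complex.one_im] at h4
    set t : ℝ := m / (2 * z.im) with ht
    have ht2 : 2 * z.im * t = m := by
      rw [ht]; field_simp
    have ht0 : 0 ≤ t := by positivity
    have key : ((n : ℝ) + 1) * ((n + 1) + 2 * t * (y.im - z.im)) ≤ 0 := by nlinarith
    have key2 : (0 : ℝ) < (n + 1) + 2 * t * (y.im - z.im) := by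
      have : 2 * t * (y.im - z.im) = 2 * t * y.im - m := by linarith
      rw [this]
      rcases hm0.eq_or_lt with h | h
      · have : t = 0 := by rw [ht, ← h]; simp
        rw [this, ← h]; linarith
      · have : 0 < t := by positivity
        have : 0 < 2 * t * y.im := by positivity
        linarith
    nlinarith

/-- The multiplier theorem (Walsh, Szegő, Grace): the convolution with a polynomial with real
roots keeps polynomials without zeros in the upper half plane. -/
lemma eval_act_ne_zero : ∀ (n : ℕ) (p : ℂ[X]) (_ : LH n p) (c : Fin n → ℝ) (x : ℂ) (_ : 0 < x.im),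
    (act (sym n (rp (fun i => (c i : ℂ)))) p).eval x ≠ 0 := by
  intro n
  induction n with
  | zero =>
    intro p hp c x hx
    have h1 : act (sym 0 (rp (fun i => (c i : ℂ)))) p = act 1 p := by
      apply act_congr hp.1
      intro k hk
      have : k = 0 := by omega
      subst this
      rw [coeff_sym _ _ le_rfl]
      simp [rp]
    rw [h1, one_act]
    exact hp.2 x hx
  | succ n ih =>
    intro p hp c x hx
    have h1 : rp (fun i => (c i : ℂ)) = (X - C (c 0 : ℂ)) * rp (fun i : Fin n => (c i.succ : ℂ)) := by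
      unfold rp
      rw [Fin.prod_univ_succ]
    rw [h1, eval_act_recursion n x (c 0) hp.1 (natDegree_rp _).le]
    apply ih _ _ (fun i => c i.succ) x hx
    apply polar_LH hp
    simpa using hx

lemma rp_ofReal_ne_zero {d : ℕ} (x : Fin d → ℝ) (z : ℂ) (hz : z.im ≠ 0) :
    (rp (fun i => (x i : ℂ))).eval z ≠ 0 := by
  rw [eval_rp, prod_ne_zero_iff]
  intro i _ h
  apply hz
  have := congrArg Complex.im h
  simpa using this

lemma LH_rp_ofReal {d : ℕ} (x : Fin d → ℝ) : LH d (rp (fun i => (x i : ℂ))) :=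
  ⟨(natDegree_rp _).le, fun z hz => rp_ofReal_ne_zero x z hz.ne'⟩

/-- A monic real polynomial of degree `d` without zeros in the open upper half plane is a product
of real linear factors. -/
lemma exists_rp_of_ne_zero {d : ℕ} {p : ℝ[X]} (hp : p.Monic) (hd : p.natDegree = d)
    (h : ∀ z : ℂ, 0 < z.im → (p.map (algebraMap ℝ ℂ)).eval z ≠ 0) :
    ∃ x : Fin d → ℝ, p = rp x := by
  have hreal : ∀ z ∈ (p.map (algebraMap ℝ ℂ)).roots, z.im = 0 := by
    intro z hz
    have hz0 : (p.map (algebraMap ℝ ℂ)).eval z = 0 := isRoot_of_mem_roots hz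
    by_contra hcon
    rcases lt_or_gt_of_ne hcon with h1 | h1
    · have h2 : (p.map (algebraMap ℝ ℂ)).eval (starRingEnd ℂ z) = 0 := by
        rw [eval_map_algebraMap] at hz0 ⊢
        rw [aeval_conj, hz0, map_zero]
      apply h (starRingEnd ℂ z) _ h2
      rw [Complex.conj_im]
      linarith
    · exact h z h1 hz0
  have hs : (p.map (algebraMap ℝ ℂ)).Splits := IsAlgClosed.splits _
  have hps : p.Splits := by
    apply Splits.of_splits_map (algebraMap ℝ ℂ) hs
    intro a ha
    refine ⟨a.re, ?_⟩
    apply Complex.ext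
    · simp
    · simp [hreal a ha]
  have hcard : Multiset.card p.roots = d := by rw [← hps.natDegree_eq_card_roots, hd]
  obtain ⟨l, hl⟩ : ∃ l : List ℝ, (l : Multiset ℝ) = p.roots := Quot.exists_rep _
  have hlen : l.length = d := by rw [← hcard, ← hl, Multiset.coe_card]
  subst hlen
  refine ⟨fun i => l.get i, ?_⟩
  rw [hps.eq_prod_roots_of_monic hp, ← hl, Multiset.map_coe, Multiset.prod_coe, rp]
  conv_lhs => rw [← List.ofFn_get l, List.map_ofFn, List.prod_ofFn]
  rfl

/-- **Real-rootedness of the convolution.** -/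
theorem exists_conv_eq_rp {d : ℕ} (x y : Fin d → ℝ) :
    ∃ z : Fin d → ℝ, conv d (rp x) (rp y) = rp z := by
  apply exists_rp_of_ne_zero (conv_monic x y) (natDegree_conv x y)
  intro z hz
  rw [conv_map, rp_map, rp_map]
  rw [conv_comm (natDegree_rp _).le (natDegree_rp _).le]
  exact eval_act_ne_zero d _ (LH_rp_ofReal x) y z hz

end Pool.Agent.Lib_helper19.FF
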