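import Mathlib
import Pool.Agent.Lib_helper19.FF.Basic
import Pool.Agent.Lib_helper19.FF.RealRooted
import Pool.Agent.Lib_helper19.FF.RootCurve
import Pool.Agent.Lib_helper19.FF.PermPoly

set_option autoImplicit false

/-!
# Stability of the permutation polynomial

We prove: if `λ + t u`, `μ + t v` are moved along a complex parameter `t` in the upper half plane and
`ρ` is the root vector of the convolution, then `Im (∑ a_i ρ_i) ≤ c Im t` for every `c` larger than
all `∑ a_i ω_{π i}`, where `ω` is the root vector of the convolution with root vectors `u`, `v`.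
-/

open Polynomial Finset Filter
open scoped Topology

namespace Pool.Agent.Lib_helper19.FF

variable {d : ℕ}

lemma exists_rp_complex {p : ℂ[X]} (hp : p.Monic) (hd : p.natDegree = d) :
    ∃ x : Fin d → ℂ, p = rp x := by
  have hps : p.Splits := IsAlgClosed.splits p
  have hcard : Multiset.card p.roots = d := by rw [← hps.natDegree_eq_card_roots, hd]
  obtain ⟨l, hl⟩ : ∃ l : List ℂ, (l : Multiset ℂ) = p.roots := Quot.exists_rep _
  have hlen : l.length = d := by rw [← hcard, ← hl, Multiset.coe_card]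
  subst hlen
  refine ⟨fun i => l.get i, ?_⟩
  rw [hps.eq_prod_roots_of_monic hp, ← hl, Multiset.map_coe, Multiset.prod_coe, rp]
  conv_lhs => rw [← List.ofFn_get l, List.map_ofFn, List.prod_ofFn]
  rfl

/-- The two-parameter family. -/
noncomputable def HH (lam u mu v : Fin d → ℝ) (s t : ℂ) : ℂ[X] :=
  conv d (rp fun i => s * lam i + t * u i) (rp fun i => s * mu i + t * v i)

variable (lam u mu v : Fin d → ℝ)

lemma HH_monic (s t : ℂ) : (HH lam u mu v s t).Monic := conv_monic _ _

lemma natDegree_HH (s t : ℂ) : (HH lam u mu v s t).natDegree = d := natDegree_conv _ _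

lemma HH_exists (s t : ℂ) : ∃ ρ : Fin d → ℂ, HH lam u mu v s t = rp ρ :=
  exists_rp_complex (HH_monic lam u mu v s t) (natDegree_HH lam u mu v s t)

lemma HH_exists_real (s t : ℝ) : ∃ ρ : Fin d → ℝ, HH lam u mu v s t = rp fun i => (ρ i : ℂ) := by
  obtain ⟨z, hz⟩ := exists_conv_eq_rp (fun i => s * lam i + t * u i) (fun i => s * mu i + t * v i)
  refine ⟨z, ?_⟩
  have := congrArg (Polynomial.map (algebraMap ℝ ℂ)) hz
  rw [conv_map, rp_map, rp_map, rp_map] at this
  unfold HH
  simpa using this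

lemma HH_mul {s t : ℂ} (k : ℂ) {ρ : Fin d → ℂ} (h : HH lam u mu v s t = rp ρ) :
    HH lam u mu v (k * s) (k * t) = rp fun i => k * ρ i := by
  unfold HH at h ⊢
  have := conv_rp_mul k h
  rw [← this]
  congr 2 <;> (ext i; ring)

lemma contDiff_coeff_conv {n : WithTop ℕ∞} {W : Type*} [NormedAddCommGroup W] [NormedSpace ℂ W]
    {f g : Fin d → W → ℂ} (hf : ∀ i, ContDiff ℂ n (f i)) (hg : ∀ i, ContDiff ℂ n (g i)) (k : ℕ) :
    ContDiff ℂ n (fun e => (conv d (rp fun i => f i e) (rp fun i => g i e)).coeff k) := by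
  by_cases hk : k ≤ d
  · have h1 : (fun e => (conv d (rp fun i => f i e) (rp fun i => g i e)).coeff k) = fun e =>
        (d.descFactorial (d - k) : ℂ) * ∑ x ∈ antidiagonal (d - k),
          ((rp fun i => f i e).coeff (d - x.1) / (d.descFactorial x.1 : ℂ)) *
          ((rp fun i => g i e).coeff (d - x.2) / (d.descFactorial x.2 : ℂ)) := by
      ext e
      rw [← coeff_conv _ (natDegree_rp _).le (by omega), Nat.sub_sub_self hk]
    rw [h1]
    apply contDiff_const.mul
    apply ContDiff.sum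
    intro x _
    apply ContDiff.mul
    · exact (contDiff_coeff_prod univ f hf _).div_const _
    · exact (contDiff_coeff_prod univ g hg _).div_const _
  · have h1 : (fun e => (conv d (rp fun i => f i e) (rp fun i => g i e)).coeff k) =
        fun _ => (0 : ℂ) := by
      ext e
      apply coeff_eq_zero_of_natDegree_lt
      rw [natDegree_conv]
      omega
    rw [h1]
    exact contDiff_const

lemma contDiff_coeff_HH (k : ℕ) :
    ContDiff ℂ 1 (fun w : ℂ × ℂ => (HH lam u mu v w.1 w.2).coeff k) := by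
  unfold HH
  apply contDiff_coeff_conv
  · intro i; fun_prop
  · intro i; fun_prop

attribute [local irreducible] HH E

/-- The vector of elementary symmetric functions of the roots. -/
noncomputable def ee (s t : ℂ) : Fin d → ℂ :=
  fun i => (-1) ^ (i.val + 1) * (HH lam u mu v s t).coeff (d - (i.val + 1))

/-- The permutation polynomial on the two-parameter family. -/
noncomputable def EE (a : Fin d → ℂ) (x s t : ℂ) : ℂ := E a x (ee lam u mu v s t)

lemma EE_eq {s t : ℂ} {ρ : Fin d → ℂ} (h : HH lam u mu v s t = rp ρ) (a : Fin d → ℂ) (x : ℂ) :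
    EE lam u mu v a x s t = ∏ π : Equiv.Perm (Fin d), (x - ∑ i, a i * ρ (π i)) := by
  unfold EE ee
  rw [h, E_of_roots]

lemma EE_mul (a : Fin d → ℂ) (k x s t : ℂ) :
    EE lam u mu v a (k * x) (k * s) (k * t) =
      k ^ (Fintype.card (Equiv.Perm (Fin d))) * EE lam u mu v a x s t := by
  obtain ⟨ρ, hρ⟩ := HH_exists lam u mu v s t
  rw [EE_eq lam u mu v hρ, EE_eq lam u mu v (HH_mul lam u mu v k hρ)]
  rw [← card_univ, ← prod_const, ← prod_mul_distrib]
  apply prod_congr rfl
  intro π _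
  rw [mul_sub, mul_sum]
  congr 1
  apply sum_congr rfl
  intro i _
  ring

lemma continuous_ee : Continuous (fun w : ℂ × ℂ => ee lam u mu v w.1 w.2) := by
  apply continuous_pi
  intro i
  exact continuous_const.mul (contDiff_coeff_HH lam u mu v (d - (i.val + 1))).continuous

lemma continuous_EE (a : Fin d → ℂ) :
    Continuous (fun w : ℂ × ℂ × ℂ => EE lam u mu v a w.1 w.2.1 w.2.2) := by
  have h1 : Continuous (fun w : ℂ × ℂ × ℂ => (w.1, ee lam u mu v w.2.1 w.2.2)) :=
    continuous_fst.prodMk ((continuous_ee lam u mu v).comp continuous_snd)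
  exact (continuous_E a).comp h1

lemma contDiff_coeff_HH_right (s : ℂ) (k : ℕ) :
    ContDiff ℂ 1 (fun t : ℂ => (HH lam u mu v s t).coeff k) := by
  have h1 : ContDiff ℂ 1 (fun t : ℂ => ((s, t) : ℂ × ℂ)) := contDiff_const.prodMk contDiff_id
  exact ContDiff.comp (g := fun w : ℂ × ℂ => (HH lam u mu v w.1 w.2).coeff k)
    (contDiff_coeff_HH lam u mu v k) h1

lemma differentiable_coeff_HH (s : ℂ) (k : ℕ) :
    Differentiable ℂ (fun t : ℂ => (HH lam u mu v s t).coeff k) := by
  have h1 : Differentiable ℂ (fun t : ℂ => ((s, t) : ℂ × ℂ)) :=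
    (differentiable_const s).prodMk differentiable_id
  have h2 : Differentiable ℂ (fun w : ℂ × ℂ => (HH lam u mu v w.1 w.2).coeff k) :=
    (contDiff_coeff_HH lam u mu v k).differentiable one_ne_zero
  exact Differentiable.comp (g := fun w : ℂ × ℂ => (HH lam u mu v w.1 w.2).coeff k) h2 h1

lemma differentiable_EE (a : Fin d → ℂ) (y c s : ℂ) :
    Differentiable ℂ (fun t => EE lam u mu v a (y + c * t) s t) := by
  apply differentiable_E (x := fun t => y + c * t) (e := fun t => ee lam u mu v s t)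
  · fun_prop
  · intro i
    exact (differentiable_const _).mul (differentiable_coeff_HH lam u mu v s (d - (i.val + 1)))

attribute [local irreducible] EE

/-- Lower bound on the real axis. -/
lemma norm_EE_real_ge (a : Fin d → ℝ) {x : ℂ} {ε : ℝ} (hε : 0 ≤ ε) (hx : ε ≤ x.im) (s t : ℝ) :
    ε ^ (Fintype.card (Equiv.Perm (Fin d))) ≤
      ‖EE lam u mu v (fun i => (a i : ℂ)) x s t‖ := by
  obtain ⟨ρ, hρ⟩ := HH_exists_real lam u mu v s t
  rw [EE_eq lam u mu v hρ, norm_prod, ← card_univ, ← prod_const]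
  apply Finset.prod_le_prod
  · intro _ _; exact hε
  · intro π _
    refine hx.trans ((le_abs_self _).trans ?_)
    have h1 : x.im = (x - ∑ i, (a i : ℂ) * (ρ (π i) : ℂ)).im := by
      have h2 : (∑ i, (a i : ℂ) * (ρ (π i) : ℂ)) = ((∑ i, a i * ρ (π i) : ℝ) : ℂ) := by
        push_cast; rfl
      rw [h2, Complex.sub_im, Complex.ofReal_im, sub_zero]
    rw [h1]
    exact Complex.abs_im_le_norm _

variable {om : Fin d → ℝ}

/-- The value at infinity. -/
lemma EE_top_ne_zero (hom : HH lam u mu v 0 1 = rp fun i => (om i : ℂ)) (a : Fin d → ℝ) {c : ℝ}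
    (hc : ∀ π : Equiv.Perm (Fin d), ∑ i, a i * om (π i) < c) :
    EE lam u mu v (fun i => (a i : ℂ)) c 0 1 ≠ 0 := by
  rw [EE_eq lam u mu v hom, prod_ne_zero_iff]
  intro π _ h
  have h2 : ((c : ℂ) - ∑ i, (a i : ℂ) * (om (π i) : ℂ)) = ((c - ∑ i, a i * om (π i) : ℝ) : ℂ) := by
    push_cast; rfl
  rw [h2, Complex.ofReal_eq_zero] at h
  linarith [hc π]

/-- The homotopy. -/
noncomputable def GG (a : Fin d → ℝ) (c x₀ ε : ℝ) (θ t : ℂ) : ℂ :=
  EE lam u mu v (fun i => (a i : ℂ)) (θ * x₀ + ε * Complex.I + c * t) θ t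

lemma continuous_GG (a : Fin d → ℝ) (c x₀ ε : ℝ) :
    Continuous (fun w : ℂ × ℂ => GG lam u mu v a c x₀ ε w.1 w.2) := by
  unfold GG
  have h1 : Continuous (fun w : ℂ × ℂ => (w.1 * x₀ + ε * Complex.I + c * w.2, w.1, w.2)) := by
    fun_prop
  exact (continuous_EE lam u mu v (fun i => (a i : ℂ))).comp h1

lemma differentiable_GG (a : Fin d → ℝ) (c x₀ ε : ℝ) (θ : ℂ) :
    Differentiable ℂ (GG lam u mu v a c x₀ ε θ) := by
  unfold GG
  exact differentiable_EE lam u mu v _ _ _ _

lemma norm_GG_real_ge (a : Fin d → ℝ) (c x₀ : ℝ) {ε : ℝ} (hε : 0 ≤ ε) (θ t : ℝ) :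
    ε ^ (Fintype.card (Equiv.Perm (Fin d))) ≤ ‖GG lam u mu v a c x₀ ε θ t‖ := by
  unfold GG
  apply norm_EE_real_ge lam u mu v a hε
  simp

/-- Growth at infinity, uniformly for `θ ∈ [0,1]`. -/
lemma exists_growth (hom : HH lam u mu v 0 1 = rp fun i => (om i : ℂ)) (a : Fin d → ℝ) {c : ℝ}
    (hc : ∀ π : Equiv.Perm (Fin d), ∑ i, a i * om (π i) < c) (x₀ : ℝ) {ε : ℝ} (hε : 0 < ε) :
    ∃ R : ℝ, 0 < R ∧ ∀ θ : ℝ, θ ∈ Set.Icc (0 : ℝ) 1 → ∀ t : ℂ, R ≤ ‖t‖ →
      ε ^ (Fintype.card (Equiv.Perm (Fin d))) ≤ ‖GG lam u mu v a c x₀ ε θ t‖ := by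
  set M := Fintype.card (Equiv.Perm (Fin d)) with hM
  have hM1 : 1 ≤ M := Fintype.card_pos
  set L := EE lam u mu v (fun i => (a i : ℂ)) c 0 1 with hL
  have hL0 : 0 < ‖L‖ := norm_pos_iff.mpr (EE_top_ne_zero lam u mu v hom a hc)
  have hcont := continuous_EE lam u mu v (fun i => (a i : ℂ))
  have hcont2 : Continuous (fun w : ℂ × ℂ =>
      ‖EE lam u mu v (fun i => (a i : ℂ)) (c + w.1) w.2 1‖) := by
    apply Continuous.norm
    have h1 : Continuous (fun w : ℂ × ℂ => ((c : ℂ) + w.1, w.2, (1 : ℂ))) := by fun_prop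
    exact hcont.comp h1
  have hnear : ∀ᶠ w : ℂ × ℂ in 𝓝 (0, 0), ‖L‖ / 2 <
      ‖EE lam u mu v (fun i => (a i : ℂ)) (c + w.1) w.2 1‖ := by
    apply hcont2.continuousAt.eventually_const_lt
    simp only [add_zero]
    rw [← hL]
    linarith
  rw [Metric.eventually_nhds_iff] at hnear
  obtain ⟨δ, hδ, hnear⟩ := hnear
  have hK : 0 < |x₀| + ε + 1 := by positivity
  set R := max 1 (max (2 * (|x₀| + ε + 1) / δ) (2 * ε ^ M / ‖L‖)) with hR
  have hR1 : 1 ≤ R := le_max_left _ _
  have hR2 : 2 * (|x₀| + ε + 1) / δ ≤ R := (le_max_left _ _).trans (le_max_right _ _)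
  have hR3 : 2 * ε ^ M / ‖L‖ ≤ R := (le_max_right _ _).trans (le_max_right _ _)
  refine ⟨R, by linarith, ?_⟩
  intro θ hθ t ht
  have ht0 : 0 < ‖t‖ := by linarith
  have htne : t ≠ 0 := norm_pos_iff.mp ht0
  have e1 : GG lam u mu v a c x₀ ε θ t = t ^ M *
      EE lam u mu v (fun i => (a i : ℂ)) (c + (θ * x₀ + ε * Complex.I) / t) (θ / t) 1 := by
    rw [hM, ← EE_mul]
    unfold GG
    congr 1
    · field_simp
      ring
    · field_simp
    · ring
  rw [e1, norm_mul, norm_pow]
  have h2 : ‖L‖ / 2 < ‖EE lam u mu v (fun i => (a i : ℂ))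
      (c + (θ * x₀ + ε * Complex.I) / t) (θ / t) 1‖ := by
    apply hnear (y := ((θ * x₀ + ε * Complex.I) / t, (θ : ℂ) / t))
    rw [Prod.dist_eq, dist_zero_right, dist_zero_right, max_lt_iff]
    have hθn : ‖(θ : ℂ)‖ ≤ 1 := by
      rw [Complex.norm_real, Real.norm_of_nonneg hθ.1]
      exact hθ.2
    have hnum : ‖(θ : ℂ) * x₀ + ε * Complex.I‖ ≤ |x₀| + ε := by
      refine (norm_add_le _ _).trans ?_
      rw [norm_mul, norm_mul, Complex.norm_I, mul_one, Complex.norm_real x₀, Complex.norm_real ε,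
        Real.norm_eq_abs, Real.norm_of_nonneg hε.le]
      have := mul_le_mul_of_nonneg_right hθn (abs_nonneg x₀)
      linarith
    have hδR : |x₀| + ε + 1 < δ * ‖t‖ := by
      have h3 : 2 * (|x₀| + ε + 1) ≤ δ * R := by
        rw [div_le_iff₀ hδ] at hR2
        linarith
      have h4 : δ * R ≤ δ * ‖t‖ := mul_le_mul_of_nonneg_left ht hδ.le
      linarith
    constructor
    · rw [norm_div, div_lt_iff₀ ht0]
      linarith
    · rw [norm_div, div_lt_iff₀ ht0]
      have := abs_nonneg x₀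
      linarith
  have h3 : R ≤ ‖t‖ ^ M := by
    have h4 : ‖t‖ ≤ ‖t‖ ^ M := by
      calc ‖t‖ = ‖t‖ ^ 1 := (pow_one _).symm
        _ ≤ ‖t‖ ^ M := pow_le_pow_right₀ (by linarith) hM1
    linarith
  have h5 : 2 * ε ^ M ≤ R * ‖L‖ := by
    rw [div_le_iff₀ hL0] at hR3
    linarith
  calc ε ^ M ≤ R * (‖L‖ / 2) := by linarith
    _ ≤ ‖t‖ ^ M * ‖EE lam u mu v (fun i => (a i : ℂ))
          (c + (θ * x₀ + ε * Complex.I) / t) (θ / t) 1‖ := by
        apply mul_le_mul h3 h2.le (by positivity) (by positivity)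

/-- Minimum modulus principle in the upper half plane. -/
lemma norm_GG_ge_of_ne_zero (a : Fin d → ℝ) (c x₀ : ℝ) {ε : ℝ} (hε : 0 < ε) (θ : ℝ) {R : ℝ}
    (hR : ∀ t : ℂ, R ≤ ‖t‖ →
      ε ^ (Fintype.card (Equiv.Perm (Fin d))) ≤ ‖GG lam u mu v a c x₀ ε θ t‖)
    (hne : ∀ t : ℂ, 0 ≤ t.im → GG lam u mu v a c x₀ ε θ t ≠ 0) (t : ℂ) (ht : 0 ≤ t.im) :
    ε ^ (Fintype.card (Equiv.Perm (Fin d))) ≤ ‖GG lam u mu v a c x₀ ε θ t‖ := by
  set M := Fintype.card (Equiv.Perm (Fin d)) with hM
  set R' := max R (‖t‖ + 1) with hR'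
  set U : Set ℂ := Metric.ball 0 R' ∩ {z | 0 < z.im} with hU
  have hUopen : IsOpen U := Metric.isOpen_ball.inter (isOpen_lt continuous_const Complex.continuous_im)
  have hUbd : Bornology.IsBounded U := Metric.isBounded_ball.subset Set.inter_subset_left
  have hUcl : closure U ⊆ {z | ‖z‖ ≤ R' ∧ 0 ≤ z.im} := by
    apply closure_minimal
    · rintro z ⟨h1, h2⟩
      rw [mem_ball_zero_iff] at h1
      exact ⟨h1.le, le_of_lt h2⟩
    · exact (isClosed_le continuous_norm continuous_const).inter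
        (isClosed_le continuous_const Complex.continuous_im)
  by_cases ht0 : t.im = 0
  · have h1 : t = ((t.re : ℝ) : ℂ) := by
      apply Complex.ext <;> simp [ht0]
    rw [h1]
    exact norm_GG_real_ge lam u mu v a c x₀ hε.le θ t.re
  · have htU : t ∈ U := by
      refine ⟨?_, lt_of_le_of_ne ht (Ne.symm ht0)⟩
      rw [mem_ball_zero_iff]
      have : ‖t‖ + 1 ≤ R' := le_max_right _ _
      linarith
    have hεM : 0 < ε ^ M := pow_pos hε M
    have hdiff : DiffContOnCl ℂ (fun z => (GG lam u mu v a c x₀ ε θ z)⁻¹) U := by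
      apply DifferentiableOn.diffContOnCl
      intro z hz
      apply DifferentiableAt.differentiableWithinAt
      exact ((differentiable_GG lam u mu v a c x₀ ε θ) z).inv (hne z (hUcl hz).2)
    have hfr : ∀ z ∈ frontier U, ‖(GG lam u mu v a c x₀ ε θ z)⁻¹‖ ≤ (ε ^ M)⁻¹ := by
      intro z hz
      rw [hUopen.frontier_eq] at hz
      have h1 := hUcl hz.1
      rw [norm_inv]
      apply inv_anti₀ hεM
      by_cases h2 : z.im = 0
      · have h3 : z = ((z.re : ℝ) : ℂ) := by
          apply Complex.ext <;> simp [h2]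
        rw [h3]
        exact norm_GG_real_ge lam u mu v a c x₀ hε.le θ z.re
      · have h3 : 0 < z.im := lt_of_le_of_ne h1.2 (Ne.symm h2)
        have h4 : R' ≤ ‖z‖ := by
          by_contra hcon
          push Not at hcon
          exact hz.2 ⟨mem_ball_zero_iff.mpr hcon, h3⟩
        exact hR z ((le_max_left _ _).trans h4)
    have h5 := Complex.norm_le_of_forall_mem_frontier_norm_le hUbd hdiff hfr (subset_closure htU)
    rw [norm_inv] at h5
    exact (inv_le_inv₀ (norm_pos_iff.mpr (hne t ht)) hεM).mp h5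

/-- The homotopy argument. -/
lemma GG_ne_zero (hom : HH lam u mu v 0 1 = rp fun i => (om i : ℂ)) (a : Fin d → ℝ) {c : ℝ}
    (hc : ∀ π : Equiv.Perm (Fin d), ∑ i, a i * om (π i) < c) (x₀ : ℝ) {ε : ℝ} (hε : 0 < ε)
    (t : ℂ) (ht : 0 ≤ t.im) : GG lam u mu v a c x₀ ε 1 t ≠ 0 := by
  set M := Fintype.card (Equiv.Perm (Fin d)) with hM
  have hεM : 0 < ε ^ M := pow_pos hε M
  obtain ⟨R, hR0, hR⟩ := exists_growth lam u mu v hom a hc x₀ hε
  have hcont := continuous_GG lam u mu v a c x₀ ε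
  set T : Set ℝ := {θ | ∀ t : ℂ, 0 ≤ t.im → ε ^ M ≤ ‖GG lam u mu v a c x₀ ε θ t‖} with hT
  have hclosed : IsClosed T := by
    have : T = ⋂ (t : ℂ) (_ : 0 ≤ t.im), {θ : ℝ | ε ^ M ≤ ‖GG lam u mu v a c x₀ ε θ t‖} := by
      ext θ
      simp [hT]
    rw [this]
    apply isClosed_iInter
    intro t
    apply isClosed_iInter
    intro _
    apply isClosed_le continuous_const
    apply Continuous.norm
    have h1 : Continuous (fun θ : ℝ => ((θ : ℂ), t)) := by fun_prop
    exact hcont.comp h1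
  have hsub : Set.Icc (0 : ℝ) 1 ⊆ T := by
    apply IsClosed.Icc_subset_of_forall_exists_gt (hclosed.inter isClosed_Icc)
    · -- the starting point
      intro t ht
      have h0 : HH lam u mu v (t * 0) (t * 1) = rp fun i => t * (om i : ℂ) :=
        HH_mul lam u mu v t hom
      rw [mul_zero, mul_one] at h0
      have h1 : GG lam u mu v a c x₀ ε ((0 : ℝ) : ℂ) t = ∏ π : Equiv.Perm (Fin d),
          (ε * Complex.I + c * t - ∑ i, (a i : ℂ) * (t * (om (π i) : ℂ))) := by
        unfold GG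
        rw [Complex.ofReal_zero, EE_eq lam u mu v h0]
        simp
      rw [h1, norm_prod, hM, ← card_univ, ← prod_const]
      apply Finset.prod_le_prod
      · intro _ _; exact hε.le
      · intro π _
        have h2 : (ε : ℂ) * Complex.I + c * t - ∑ i, (a i : ℂ) * (t * (om (π i) : ℂ)) =
            ε * Complex.I + ((c - ∑ i, a i * om (π i) : ℝ) : ℂ) * t := by
          have h3 : ∑ i, (a i : ℂ) * (t * (om (π i) : ℂ)) =
              ((∑ i, a i * om (π i) : ℝ) : ℂ) * t := by
            push_cast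
            rw [sum_mul]
            apply sum_congr rfl
            intro i _
            ring
          rw [h3]
          push_cast
          ring
        rw [h2]
        refine le_trans ?_ (Complex.abs_im_le_norm _)
        refine le_trans ?_ (le_abs_self _)
        have h4 : ((ε : ℂ) * Complex.I + ((c - ∑ i, a i * om (π i) : ℝ) : ℂ) * t).im =
            ε + (c - ∑ i, a i * om (π i)) * t.im := by
          simp
        rw [h4]
        have := mul_nonneg (sub_nonneg.mpr (hc π).le) ht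
        linarith
    · -- openness
      rintro θ ⟨hθT, hθ⟩ y hy
      set Kc : Set ℂ := Metric.closedBall 0 R ∩ {z | 0 ≤ z.im} with hKc
      have hKcomp : IsCompact Kc := (isCompact_closedBall 0 R).inter_right
        (isClosed_le continuous_const Complex.continuous_im)
      have hev : ∀ᶠ θ' : ℝ in 𝓝 θ, ∀ z ∈ Kc, ε ^ M / 2 < ‖GG lam u mu v a c x₀ ε θ' z‖ := by
        apply hKcomp.eventually_forall_of_forall_eventually
        intro z hz
        have h1 : Continuous (fun w : ℝ × ℂ => ‖GG lam u mu v a c x₀ ε w.1 w.2‖) := by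
          apply Continuous.norm
          have h2 : Continuous (fun w : ℝ × ℂ => ((w.1 : ℂ), w.2)) := by fun_prop
          exact hcont.comp h2
        apply h1.continuousAt.eventually_const_lt
        have := hθT z hz.2
        simp only
        linarith
      have hev2 : ∀ᶠ θ' : ℝ in 𝓝[>] θ, θ' ∈ Set.Ioc θ (min y 1) := by
        apply Ioc_mem_nhdsGT
        exact lt_min hy hθ.2
      obtain ⟨θ', h1, h2⟩ := ((hev.filter_mono nhdsWithin_le_nhds).and hev2).exists
      refine ⟨θ', ?_, h2.1, h2.2.trans (min_le_left _ _)⟩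
      have hθ' : θ' ∈ Set.Icc (0 : ℝ) 1 :=
        ⟨hθ.1.trans h2.1.le, h2.2.trans (min_le_right _ _)⟩
      apply norm_GG_ge_of_ne_zero lam u mu v a c x₀ hε θ' (hR θ' hθ')
      intro z hz hz0
      by_cases hzR : R ≤ ‖z‖
      · have := hR θ' hθ' z hzR
        rw [hz0, norm_zero] at this
        linarith
      · push Not at hzR
        have := h1 z ⟨by rw [mem_closedBall_zero_iff]; exact hzR.le, hz⟩
        rw [hz0, norm_zero] at this
        linarith
  have h1 := hsub (Set.right_mem_Icc.mpr zero_le_one) t ht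
  intro h0
  rw [Complex.ofReal_one, h0, norm_zero] at h1
  linarith

/-- **Stability of the permutation sums.** -/
theorem im_sum_le (hom : HH lam u mu v 0 1 = rp fun i => (om i : ℂ)) (a : Fin d → ℝ) {c : ℝ}
    (hc : ∀ π : Equiv.Perm (Fin d), ∑ i, a i * om (π i) < c) {t : ℂ} (ht : 0 ≤ t.im)
    {ρ : Fin d → ℂ} (hρ : HH lam u mu v 1 t = rp ρ) :
    (∑ i, (a i : ℂ) * ρ i).im ≤ c * t.im := by
  by_contra hcon
  push Not at hcon
  set Y : ℂ := ∑ i, (a i : ℂ) * ρ i - c * t with hY
  have hYim : 0 < Y.im := by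
    rw [hY, Complex.sub_im]
    simp only [Complex.mul_im, Complex.ofReal_re, Complex.ofReal_im, zero_mul, add_zero]
    linarith
  apply GG_ne_zero lam u mu v hom a hc Y.re hYim t ht
  unfold GG
  have h1 : (1 : ℂ) * (Y.re : ℂ) + (Y.im : ℂ) * Complex.I + c * t = ∑ i, (a i : ℂ) * ρ i := by
    rw [one_mul, Complex.re_add_im, hY]
    ring
  rw [h1, EE_eq lam u mu v hρ]
  apply prod_eq_zero (mem_univ (1 : Equiv.Perm (Fin d)))
  simp

end Pool.Agent.Lib_helper19.FF
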