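import Mathlib
import Pool.Agent.Lib_helper19.FF.Basic
import Pool.Agent.Lib_helper19.FF.RealRooted
import Pool.Agent.Lib_helper19.FF.RootCurve
import Pool.Agent.Lib_helper19.FF.PermPoly
import Pool.Agent.Lib_helper19.FF.Stab

set_option autoImplicit false

/-!
# The contraction inequality and the Stam inequality
-/

open Polynomial Finset Filter
open scoped Topology

namespace Pool.Agent.Lib_helper19.FF

variable {d : ℕ}

section Derivatives

variable {𝕜 : Type*} [RCLike 𝕜]

/-- Coefficientwise derivative of a curve of polynomials. -/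
def HasCoeffDeriv (P : 𝕜 → 𝕜[X]) (Q : 𝕜[X]) (t₀ : 𝕜) : Prop :=
  ∀ k, HasDerivAt (fun t => (P t).coeff k) (Q.coeff k) t₀

lemma HasCoeffDeriv.eval {P : 𝕜 → 𝕜[X]} {Q : 𝕜[X]} {t₀ : 𝕜} (h : HasCoeffDeriv P Q t₀)
    (hP : ∀ t, (P t).natDegree ≤ d) (hQ : Q.natDegree ≤ d) (z : 𝕜) :
    HasDerivAt (fun t => (P t).eval z) (Q.eval z) t₀ := by
  have h1 : (fun t => (P t).eval z) = fun t => ∑ k ∈ range (d + 1), (P t).coeff k * z ^ k := by
    ext t
    rw [eval_eq_sum_range' (Nat.lt_succ_of_le (hP t))]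
  rw [h1, eval_eq_sum_range' (Nat.lt_succ_of_le hQ)]
  apply HasDerivAt.fun_sum
  intro k _
  exact (h k).mul_const _

lemma hasCoeffDeriv_of_eval {P : 𝕜 → 𝕜[X]} {Q : 𝕜[X]} {t₀ : 𝕜}
    (hP : ∀ t, (P t).natDegree ≤ d) (hc : ∀ k, DifferentiableAt 𝕜 (fun t => (P t).coeff k) t₀)
    (he : ∀ z, HasDerivAt (fun t => (P t).eval z) (Q.eval z) t₀) : HasCoeffDeriv P Q t₀ := by
  set Q' : 𝕜[X] := ∑ k ∈ range (d + 1), C (deriv (fun t => (P t).coeff k) t₀) * X ^ k with hQ'
  have hcoef : ∀ k, Q'.coeff k = deriv (fun t => (P t).coeff k) t₀ := by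
    intro k
    rw [hQ', finsetSum_coeff]
    simp only [coeff_C_mul, coeff_X_pow, mul_ite, mul_one, mul_zero]
    rw [sum_ite_eq]
    split_ifs with hk
    · rfl
    · have : (fun t => (P t).coeff k) = fun _ => (0 : 𝕜) := by
        ext t
        apply coeff_eq_zero_of_natDegree_lt
        simp only [mem_range] at hk
        have := hP t
        omega
      rw [this, deriv_const]
  have h1 : HasCoeffDeriv P Q' t₀ := by
    intro k
    rw [hcoef]
    exact (hc k).hasDerivAt
  have hQd : Q'.natDegree ≤ d := by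
    apply natDegree_sum_le_of_forall_le
    intro k hk
    refine (natDegree_C_mul_X_pow_le _ _).trans ?_
    simp only [mem_range] at hk
    omega
  have h2 : Q' = Q := by
    apply Polynomial.funext
    intro z
    exact (h1.eval hP hQd z).unique (he z)
  rw [← h2]
  exact h1

/-- The derivative of `rp (x + t u)` at `t = 0`. -/
noncomputable def drp (x u : Fin d → 𝕜) : 𝕜[X] :=
  ∑ j, C (-u j) * ∏ k ∈ univ.erase j, (X - C (x k))

lemma natDegree_drp_le (x u : Fin d → 𝕜) : (drp x u).natDegree ≤ d := by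
  unfold drp
  apply natDegree_sum_le_of_forall_le
  intro j _
  refine (natDegree_C_mul_le _ _).trans ?_
  rw [natDegree_prod_of_monic _ _ (fun k _ => monic_X_sub_C _)]
  simp

lemma hasCoeffDeriv_rp (x u : Fin d → 𝕜) :
    HasCoeffDeriv (fun t => rp (fun i => x i + t * u i)) (drp x u) 0 := by
  apply hasCoeffDeriv_of_eval (d := d)
  · intro t; exact (natDegree_rp _).le
  · intro k
    have h1 : ContDiff 𝕜 1 (fun t : 𝕜 => (rp (fun i => x i + t * u i)).coeff k) := by
      apply contDiff_coeff_prod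
      intro i
      fun_prop
    exact (h1.differentiable one_ne_zero) 0
  · intro z
    have h1 : (fun t => (rp (fun i => x i + t * u i)).eval z) =
        fun t => ∏ i, (z - (x i + t * u i)) := by
      ext t
      rw [eval_rp]
    rw [h1]
    have h2 : ∀ i ∈ (univ : Finset (Fin d)),
        HasDerivAt (fun t : 𝕜 => z - (x i + t * u i)) (-u i) 0 := by
      intro i _
      have := (((hasDerivAt_id (0 : 𝕜)).mul_const (u i)).const_add (x i)).const_sub z
      simpa using! this
    have h3 := HasDerivAt.fun_finsetProd h2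
    convert! h3 using 1
    unfold drp
    rw [eval_finsetSum]
    apply sum_congr rfl
    intro j _
    rw [eval_mul, eval_prod, eval_C, smul_eq_mul, mul_comm]
    congr 1
    apply prod_congr rfl
    intro k _
    simp

lemma HasCoeffDeriv.conv {P R : 𝕜 → 𝕜[X]} {P' R' : 𝕜[X]} {t₀ : 𝕜} (hP : HasCoeffDeriv P P' t₀)
    (hR : HasCoeffDeriv R R' t₀) (hRd : ∀ t, (R t).natDegree ≤ d)
    (hRd' : R'.natDegree ≤ d) :
    HasCoeffDeriv (fun t => conv d (P t) (R t)) (conv d P' (R t₀) + conv d (P t₀) R') t₀ := by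
  intro k
  by_cases hk : k ≤ d
  · have h1 : ∀ p q : 𝕜[X], q.natDegree ≤ d → (FF.conv d p q).coeff k =
        (d.descFactorial (d - k) : 𝕜) * ∑ x ∈ antidiagonal (d - k),
          (p.coeff (d - x.1) / (d.descFactorial x.1 : 𝕜)) *
          (q.coeff (d - x.2) / (d.descFactorial x.2 : 𝕜)) := by
      intro p q hq
      rw [← coeff_conv _ hq (by omega), Nat.sub_sub_self hk]
    have h2 : (fun t => (FF.conv d (P t) (R t)).coeff k) = fun t =>
        (d.descFactorial (d - k) : 𝕜) * ∑ x ∈ antidiagonal (d - k),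
          ((P t).coeff (d - x.1) / (d.descFactorial x.1 : 𝕜)) *
          ((R t).coeff (d - x.2) / (d.descFactorial x.2 : 𝕜)) := by
      ext t
      exact h1 _ _ (hRd t)
    rw [h2, coeff_add, h1 _ _ (hRd t₀), h1 _ _ hRd', ← mul_add, ← sum_add_distrib]
    apply HasDerivAt.const_mul
    apply HasDerivAt.fun_sum
    intro x _
    exact ((hP _).div_const _).mul ((hR _).div_const _)
  · have h1 : ∀ p q : 𝕜[X], q.natDegree ≤ d → (FF.conv d p q).coeff k = 0 := by
      intro p q hq
      apply coeff_eq_zero_of_natDegree_lt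
      have := natDegree_conv_le p hq
      omega
    have h2 : (fun t => (FF.conv d (P t) (R t)).coeff k) = fun _ => (0 : 𝕜) := by
      ext t
      exact h1 _ _ (hRd t)
    rw [h2, coeff_add, h1 _ _ (hRd t₀), h1 _ _ hRd', add_zero]
    exact hasDerivAt_const _ _

end Derivatives

lemma drp_map (x u : Fin d → ℝ) :
    (drp x u).map (algebraMap ℝ ℂ) = drp (fun i => (x i : ℂ)) (fun i => (u i : ℂ)) := by
  unfold drp
  rw [Polynomial.map_sum]
  apply sum_congr rfl
  intro j _
  rw [Polynomial.map_mul, Polynomial.map_prod]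
  simp

/-- Power sums and the second coefficient. -/
lemma coeff_rp_one {K : Type*} [Field K] (x : Fin d → K) (hd : 1 ≤ d) :
    (rp x).coeff (d - 1) = -∑ i, x i := by
  rw [coeff_rp x hd]
  simp [powersetCard_one]

lemma e2_identity {K : Type*} [Field K] (x : Fin d → K) :
    2 * ∑ t ∈ powersetCard 2 (univ : Finset (Fin d)), ∏ i ∈ t, x i =
      (∑ i, x i) ^ 2 - ∑ i, x i ^ 2 := by
  have h := MvPolynomial.psum_eq_mul_esymm_sub_sum (Fin d) K 2 (by norm_num)
  have h1 : (antidiagonal 2).filter (fun a : ℕ × ℕ => a.1 ∈ Set.Ioo 0 2) = {(1, 1)} := by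
    decide
  rw [h1] at h
  have h2 := congrArg (MvPolynomial.aeval x) h
  simp [MvPolynomial.psum, MvPolynomial.esymm, powersetCard_one] at h2
  linear_combination h2

lemma coeff_rp_two {K : Type*} [Field K] (x : Fin d → K) (hd : 2 ≤ d) :
    2 * (rp x).coeff (d - 2) = (∑ i, x i) ^ 2 - ∑ i, x i ^ 2 := by
  rw [coeff_rp x hd, ← e2_identity]
  ring

/-- Additivity of the mean. -/
lemma sum_conv {K : Type*} [Field K] [CharZero K] {x y z : Fin d → K} (hd : 1 ≤ d)
    (h : conv d (rp x) (rp y) = rp z) : ∑ i, z i = ∑ i, x i + ∑ i, y i := by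
  have h1 := coeff_conv (rp x) (natDegree_rp y).le hd
  rw [h, coeff_rp_one z hd] at h1
  have h2 : antidiagonal 1 = {(0, 1), (1, 0)} := by decide
  have hd0 : (d : K) ≠ 0 := by
    rw [Nat.cast_ne_zero]; omega
  rw [h2, sum_insert (by decide), sum_singleton] at h1
  simp only [Nat.sub_zero, coeff_rp_top, coeff_rp_one x hd, coeff_rp_one y hd,
    Nat.descFactorial_zero, Nat.descFactorial_one, Nat.cast_one] at h1
  field_simp at h1
  linear_combination -h1

/-- Additivity of the sum of squares for centred root vectors. -/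
lemma sum_sq_conv {K : Type*} [Field K] [CharZero K] {x y z : Fin d → K} (hd : 2 ≤ d)
    (h : conv d (rp x) (rp y) = rp z) (hx : ∑ i, x i = 0) (hy : ∑ i, y i = 0) :
    ∑ i, z i ^ 2 = ∑ i, x i ^ 2 + ∑ i, y i ^ 2 := by
  have hz : ∑ i, z i = 0 := by rw [sum_conv (by omega) h, hx, hy, add_zero]
  have h1 := coeff_conv (rp x) (natDegree_rp y).le hd
  have h2 : antidiagonal 2 = {(0, 2), (1, 1), (2, 0)} := by decide
  have hd0 : (d : K) ≠ 0 := by
    rw [Nat.cast_ne_zero]; omega
  have hdd : (d.descFactorial 2 : K) ≠ 0 := descFactorial_ne_zero hd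
  have cx := coeff_rp_two x hd
  have cy := coeff_rp_two y hd
  have cz := coeff_rp_two z hd
  rw [hx] at cx
  rw [hy] at cy
  rw [hz] at cz
  rw [h, h2, sum_insert (by decide), sum_insert (by decide), sum_singleton] at h1
  simp only [Nat.sub_zero, coeff_rp_top, coeff_rp_one x (by omega : 1 ≤ d),
    coeff_rp_one y (by omega : 1 ≤ d), hx, hy, Nat.descFactorial_zero, Nat.cast_one] at h1
  have h3 : (rp z).coeff (d - 2) = (rp x).coeff (d - 2) + (rp y).coeff (d - 2) := by
    rw [h1]
    field_simp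
    ring
  linear_combination cz - cx - cy - 2 * h3

/-- **The contraction inequality.** -/
theorem contraction (hd : 2 ≤ d) {lam u mu v : Fin d → ℝ} (hu : ∑ i, u i = 0) (hv : ∑ i, v i = 0)
    {ν ν' : Fin d → ℝ} (hν : Function.Injective ν) (hc : conv d (rp lam) (rp mu) = rp ν)
    (hν' : ∀ i, ν' i * (rp ν).derivative.eval (ν i) =
      -(conv d (drp lam u) (rp mu) + conv d (rp lam) (drp mu v)).eval (ν i)) :
    ∑ i, ν' i ^ 2 ≤ ∑ i, u i ^ 2 + ∑ i, v i ^ 2 := by
  -- the family over ℂ
  have h0 : HH lam u mu v 1 0 = rp (fun i => (ν i : ℂ)) := by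
    have := congrArg (Polynomial.map (algebraMap ℝ ℂ)) hc
    rw [conv_map, rp_map, rp_map, rp_map] at this
    unfold HH
    simpa using this
  have hνc : Function.Injective (fun i => (ν i : ℂ)) := fun i j hij =>
    hν (Complex.ofReal_injective hij)
  have hdiffk : ∀ k, ContDiff ℂ 1 fun t : ℂ => (HH lam u mu v 1 t).coeff k :=
    contDiff_coeff_HH_right lam u mu v 1
  -- derivative of the family
  set Dc : ℂ[X] := conv d (drp (fun i => (lam i : ℂ)) (fun i => (u i : ℂ)))
      (rp (fun i => (mu i : ℂ))) + conv d (rp (fun i => (lam i : ℂ)))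
      (drp (fun i => (mu i : ℂ)) (fun i => (v i : ℂ))) with hDc
  have hDmap : Dc = (conv d (drp lam u) (rp mu) + conv d (rp lam) (drp mu v)).map
      (algebraMap ℝ ℂ) := by
    rw [Polynomial.map_add, conv_map, conv_map, drp_map, drp_map, rp_map, rp_map]
    rfl
  have hder : HasCoeffDeriv (fun t : ℂ => HH lam u mu v 1 t) Dc 0 := by
    have h1 := hasCoeffDeriv_rp (fun i => (lam i : ℂ)) (fun i => (u i : ℂ))
    have h2 := hasCoeffDeriv_rp (fun i => (mu i : ℂ)) (fun i => (v i : ℂ))
    have h3 := h1.conv h2 (fun t => (natDegree_rp _).le) (natDegree_drp_le _ _)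
    simp only [zero_mul, add_zero] at h3
    have h4 : (fun t : ℂ => HH lam u mu v 1 t) = fun t : ℂ =>
        conv d (rp fun i => (lam i : ℂ) + t * (u i : ℂ)) (rp fun i => (mu i : ℂ) + t * (v i : ℂ)) := by
      ext1 t
      unfold HH
      simp only [one_mul]
    rw [h4]
    exact h3
  have hDdeg : Dc.natDegree ≤ d := by
    refine (natDegree_add_le _ _).trans ?_
    apply max_le
    · exact natDegree_conv_le _ (natDegree_rp _).le
    · exact natDegree_conv_le _ (natDegree_drp_le _ _)
  obtain ⟨ρ, hρ1, hρ2, hρ3⟩ := exists_root_curves (P := fun t : ℂ => HH lam u mu v 1 t)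
    (HH_monic lam u mu v 1) (natDegree_HH lam u mu v 1) hdiffk h0 hνc
    (a := fun i => Dc.eval (ν i : ℂ))
    (fun i => hder.eval (fun t => (natDegree_HH lam u mu v 1 t).le) hDdeg _)
  have hval : ∀ i, -(Dc.eval (ν i : ℂ)) / (rp (fun i => (ν i : ℂ))).derivative.eval (ν i : ℂ) =
      (ν' i : ℂ) := by
    intro i
    have h1 : (rp (fun i => (ν i : ℂ))).derivative.eval (ν i : ℂ) =
        (((rp ν).derivative.eval (ν i) : ℝ) : ℂ) := by
      have : rp (fun i => (ν i : ℂ)) = (rp ν).map (algebraMap ℝ ℂ) := by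
        rw [rp_map]; rfl
      rw [this, derivative_map, eval_map_algebraMap]
      exact (Polynomial.aeval_ofReal _ _)
    have h2 : Dc.eval (ν i : ℂ) =
        (((conv d (drp lam u) (rp mu) + conv d (rp lam) (drp mu v)).eval (ν i) : ℝ) : ℂ) := by
      rw [hDmap, eval_map_algebraMap]
      exact (Polynomial.aeval_ofReal _ _)
    rw [h1, h2, div_eq_iff]
    · rw [← Complex.ofReal_mul, hν' i, Complex.ofReal_neg]
    · rw [Complex.ofReal_ne_zero]
      exact eval_derivative_rp_ne_zero hν i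
  obtain ⟨om, hom⟩ := HH_exists_real lam u mu v 0 1
  rw [Complex.ofReal_zero, Complex.ofReal_one] at hom
  -- sum of squares of the roots at infinity
  have hW : ∑ i, om i ^ 2 = ∑ i, u i ^ 2 + ∑ i, v i ^ 2 := by
    have h1 : conv d (rp (fun i => (u i : ℂ))) (rp (fun i => (v i : ℂ))) =
        rp (fun i => (om i : ℂ)) := by
      rw [← hom]
      unfold HH
      simp
    have h2 := sum_sq_conv hd h1 (by exact_mod_cast hu) (by exact_mod_cast hv)
    exact_mod_cast h2
  set A := ∑ i, ν' i ^ 2 with hA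
  set W := ∑ i, om i ^ 2 with hWdef
  have hA0 : 0 ≤ A := sum_nonneg (fun i _ => sq_nonneg _)
  have hW0 : 0 ≤ W := sum_nonneg (fun i _ => sq_nonneg _)
  -- main inequality
  have hmain : ∀ c : ℝ, Real.sqrt (A * W) < c → A ≤ c := by
    intro c hcW
    have hcπ : ∀ π : Equiv.Perm (Fin d), ∑ i, ν' i * om (π i) < c := by
      intro π
      refine lt_of_le_of_lt ?_ hcW
      apply Real.le_sqrt_of_sq_le
      refine (sum_mul_sq_le_sq_mul_sq univ ν' (fun i => om (π i))).trans (le_of_eq ?_)
      rw [Equiv.sum_comp π (fun i => om i ^ 2)]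
    -- the function h(y) = Im ∑ ν'_i ρ_i(i y)
    have hcurve : HasDerivAt (fun t : ℂ => ∑ i, (ν' i : ℂ) * ρ i t) (A : ℂ) 0 := by
      have h1 : HasDerivAt (fun t : ℂ => ∑ i, (ν' i : ℂ) * ρ i t)
          (∑ i, (ν' i : ℂ) * (ν' i : ℂ)) 0 := by
        apply HasDerivAt.fun_sum
        intro i _
        apply HasDerivAt.const_mul
        rw [← hval i]
        exact hρ2 i
      convert! h1 using 1
      rw [hA]
      push_cast
      apply sum_congr rfl
      intro i _
      ring
    have hline : HasDerivAt (fun y : ℝ => Complex.I * (y : ℂ)) Complex.I 0 := by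
      have := (Complex.ofRealCLM.hasDerivAt (x := (0 : ℝ))).const_mul Complex.I
      simpa using! this
    have hcomp : HasDerivAt (fun y : ℝ => ∑ i, (ν' i : ℂ) * ρ i (Complex.I * (y : ℂ)))
        ((A : ℂ) * Complex.I) 0 := by
      have h1 : HasDerivAt (fun t : ℂ => ∑ i, (ν' i : ℂ) * ρ i t) (A : ℂ)
          (Complex.I * ((0 : ℝ) : ℂ)) := by
        simpa using hcurve
      exact h1.comp (0 : ℝ) hline
    have him : HasDerivAt (fun y : ℝ => (∑ i, (ν' i : ℂ) * ρ i (Complex.I * (y : ℂ))).im) A 0 := by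
      have h1 := Complex.imCLM.hasFDerivAt.comp_hasDerivAt (0 : ℝ) hcomp
      have h2 : Complex.imCLM ((A : ℂ) * Complex.I) = A := by simp
      rw [h2] at h1
      exact h1
    have hzero : (∑ i, (ν' i : ℂ) * ρ i (Complex.I * ((0 : ℝ) : ℂ))).im = 0 := by
      simp [hρ1]
    have hslope := him.tendsto_slope_zero_right
    simp only [zero_add, hzero, sub_zero] at hslope
    have htend : Tendsto (fun y : ℝ => Complex.I * (y : ℂ)) (𝓝[>] 0) (𝓝 0) := by
      have h1 : Tendsto (fun y : ℝ => Complex.I * (y : ℂ)) (𝓝 0) (𝓝 (Complex.I * ((0 : ℝ) : ℂ))) :=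
        hline.continuousAt.tendsto
      simp only [Complex.ofReal_zero, mul_zero] at h1
      exact h1.mono_left nhdsWithin_le_nhds
    apply le_of_tendsto hslope
    filter_upwards [htend.eventually hρ3, self_mem_nhdsWithin] with y hy hy0
    have hy0' : 0 < y := hy0
    have h1 : (∑ i, (ν' i : ℂ) * ρ i (Complex.I * (y : ℂ))).im ≤ c * y := by
      have h2 := im_sum_le lam u mu v hom ν' hcπ (t := Complex.I * (y : ℂ)) (by simpa using hy0'.le)
        hy
      simpa using h2
    rw [smul_eq_mul, inv_mul_le_iff₀ hy0']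
    linarith
  have h1 : A ≤ Real.sqrt (A * W) := le_of_forall_gt_imp_ge_of_dense hmain
  have h2 : A ^ 2 ≤ A * W := by
    have := (Real.le_sqrt' (x := A) (y := A * W))
    rcases hA0.eq_or_lt with h | h
    · rw [← h]; simp
    · exact (this h).mp h1
  rw [← hW]
  rcases hA0.eq_or_lt with h | h
  · rw [← h]; exact hW0
  · exact le_of_mul_le_mul_left (by rw [← sq]; exact h2) h

end Pool.Agent.Lib_helper19.FF
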