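import Mathlib
import Pool.Agent.Lib_helper19.FF.Basic
import Pool.Agent.Lib_helper19.FF.RealRooted
import Pool.Agent.Lib_helper19.FF.RootCurve
import Pool.Agent.Lib_helper19.FF.Key

set_option autoImplicit false

/-!
# Score vectors, the Stam inequality, and preservation of simple roots
-/

open Polynomial Finset Filter
open scoped Topology

namespace Pool.Agent.Lib_helper19.FF

variable {d : ℕ}

/-- The score vector. -/
noncomputable def J (x : Fin d → ℝ) (i : Fin d) : ℝ := ∑ j ∈ univ.erase i, 1 / (x i - x j)

lemma sum_offdiag_antisymm (f : Fin d → Fin d → ℝ) (hf : ∀ i j, f j i = -f i j) :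
    ∑ i, ∑ j ∈ univ.erase i, f i j = 0 := by
  have h1 : ∑ i, ∑ j ∈ univ.erase i, f i j = ∑ i, ∑ j, f i j := by
    apply sum_congr rfl
    intro i _
    rw [← add_sum_erase univ (fun j => f i j) (mem_univ i)]
    have := hf i i
    have : f i i = 0 := by linarith
    rw [this, zero_add]
  rw [h1]
  have h2 : ∑ i, ∑ j, f i j = -∑ i, ∑ j, f i j := by
    conv_lhs => rw [sum_comm]
    rw [← sum_neg_distrib]
    apply sum_congr rfl
    intro i _
    rw [← sum_neg_distrib]
    apply sum_congr rfl
    intro j _
    exact hf i j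
  linarith

lemma sum_J (x : Fin d → ℝ) : ∑ i, J x i = 0 := by
  unfold J
  apply sum_offdiag_antisymm (fun i j => 1 / (x i - x j))
  intro i j
  rw [← neg_sub, div_neg]

lemma eval_derivative_prod (s : Finset (Fin d)) (x : Fin d → ℝ) (z : ℝ) (hz : ∀ i ∈ s, z ≠ x i) :
    (∏ i ∈ s, (X - C (x i))).derivative.eval z =
      (∏ i ∈ s, (z - x i)) * ∑ i ∈ s, 1 / (z - x i) := by
  rw [derivative_prod_finset, eval_finsetSum, mul_sum]
  apply sum_congr rfl
  intro i hi
  rw [eval_mul, eval_prod, ← mul_prod_erase s (fun i => z - x i) hi]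
  have h1 : z - x i ≠ 0 := sub_ne_zero.mpr (hz i hi)
  simp only [eval_sub, eval_X, eval_C, derivative_sub, derivative_X, derivative_C, sub_zero,
    eval_one, mul_one]
  field_simp

/-- `p'' (λ_i) = 2 J_i p' (λ_i)`. -/
lemma eval_second_derivative {x : Fin d → ℝ} (hx : Function.Injective x) (i : Fin d) :
    (derivative (derivative (rp x))).eval (x i) = 2 * (J x i * (rp x).derivative.eval (x i)) := by
  have h1 : rp x = (X - C (x i)) * ∏ j ∈ univ.erase i, (X - C (x j)) := by
    unfold rp
    rw [mul_prod_erase univ (fun j => X - C (x j)) (mem_univ i)]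
  rw [eval_derivative_rp_self]
  rw [h1]
  simp only [derivative_mul, derivative_sub, derivative_X, derivative_C, sub_zero, one_mul,
    derivative_add, eval_add, eval_mul, eval_sub, eval_X, eval_C, sub_self, zero_mul, add_zero]
  rw [eval_derivative_prod]
  · unfold J
    ring
  · intro j hj h
    exact (mem_erase.mp hj).1 (hx h).symm

lemma eval_drp_self (x u : Fin d → ℝ) (i : Fin d) :
    (drp x u).eval (x i) = -u i * (rp x).derivative.eval (x i) := by
  unfold drp
  rw [eval_finsetSum, sum_eq_single i, eval_derivative_rp_self]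
  · rw [eval_mul, eval_C, eval_prod]
    simp
  · intro j _ hji
    rw [eval_mul, eval_prod, prod_eq_zero (i := i), mul_zero]
    · exact mem_erase.mpr ⟨hji.symm, mem_univ i⟩
    · simp
  · simp

lemma natDegree_drp_le' (x u : Fin d → ℝ) : (drp x u).natDegree ≤ d - 1 := by
  unfold drp
  apply natDegree_sum_le_of_forall_le
  intro j _
  refine (natDegree_C_mul_le _ _).trans ?_
  rw [natDegree_prod_of_monic _ _ (fun k _ => monic_X_sub_C _)]
  simp

lemma drp_J {x : Fin d → ℝ} (hx : Function.Injective x) (a : ℝ) :
    drp x (fun i => a * J x i) = C (-(a / 2)) * derivative (derivative (rp x)) := by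
  rcases Nat.eq_zero_or_pos d with rfl | hd
  · simp [drp, rp]
  · apply eq_of_degree_sub_lt_of_eval_finset_eq (univ.image x)
    · rw [card_image_of_injective _ hx, card_univ, Fintype.card_fin]
      have h1 : (drp x (fun i => a * J x i) -
          C (-(a / 2)) * derivative (derivative (rp x))).natDegree ≤ d - 1 := by
        refine (natDegree_sub_le _ _).trans (max_le (natDegree_drp_le' _ _) ?_)
        refine (natDegree_C_mul_le _ _).trans ?_
        refine (natDegree_derivative_le _).trans ?_
        have h3 : (rp x).derivative.natDegree ≤ (rp x).natDegree - 1 := natDegree_derivative_le _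
        rw [natDegree_rp] at h3
        omega
      have h2 : d - 1 < d := by omega
      exact degree_le_natDegree.trans_lt (by exact_mod_cast lt_of_le_of_lt h1 h2)
    · intro z hz
      rw [mem_image] at hz
      obtain ⟨i, -, rfl⟩ := hz
      rw [eval_drp_self, eval_mul, eval_C, eval_second_derivative hx]
      ring

lemma conv_derivative_two_left {x : Fin d → ℝ} {q : ℝ[X]} (hq : q.natDegree ≤ d) (c : ℝ) :
    conv d (C c * derivative (derivative (rp x))) q =
      C c * derivative (derivative (conv d (rp x) q)) := by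
  have h1 : derivative (derivative (rp x)) = act (PowerSeries.X ^ 2) (rp x) := by
    rw [X_pow_act]; rfl
  have h2 : derivative (derivative (conv d (rp x) q)) =
      act (PowerSeries.X ^ 2) (conv d (rp x) q) := by
    rw [X_pow_act]; rfl
  rw [← smul_eq_C_mul, conv_smul_left, h1, conv_act_left (natDegree_rp x).le hq, ← h2,
    smul_eq_C_mul]

lemma conv_derivative_two_right {x y : Fin d → ℝ} (c : ℝ) :
    conv d (rp x) (C c * derivative (derivative (rp y))) =
      C c * derivative (derivative (conv d (rp x) (rp y))) := by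
  have h1 : derivative (derivative (rp y)) = act (PowerSeries.X ^ 2) (rp y) := by
    rw [X_pow_act]; rfl
  have h2 : derivative (derivative (conv d (rp x) (rp y))) =
      act (PowerSeries.X ^ 2) (conv d (rp x) (rp y)) := by
    rw [X_pow_act]; rfl
  rw [h2, ← conv_act_right, ← h1]
  unfold conv
  rw [act_C_mul]

/-- **The finite free Stam inequality** in the form used for the flow. -/
theorem stam (hd : 2 ≤ d) {x y z : Fin d → ℝ} (hx : Function.Injective x)
    (hy : Function.Injective y) (hz : Function.Injective z) (h : conv d (rp x) (rp y) = rp z)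
    {a b : ℝ} (hab : a + b = 1) :
    ∑ i, J z i ^ 2 ≤ a ^ 2 * ∑ i, J x i ^ 2 + b ^ 2 * ∑ i, J y i ^ 2 := by
  have h1 := contraction hd (lam := x) (u := fun i => a * J x i) (mu := y)
    (v := fun i => b * J y i) (by rw [← mul_sum, sum_J, mul_zero])
    (by rw [← mul_sum, sum_J, mul_zero]) (ν := z) (ν' := J z) hz h (by
      intro i
      rw [drp_J hx, drp_J hy, conv_derivative_two_left (natDegree_rp y).le,
        conv_derivative_two_right, h, eval_add, eval_mul, eval_mul, eval_C, eval_C,
        eval_second_derivative hz]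
      linear_combination (-(J z i * (rp z).derivative.eval (z i))) * hab)
  simp only [mul_pow, ← mul_sum] at h1
  exact h1

/-! ### Simple roots -/

lemma second_derivative_lt {x : Fin d → ℝ} (hd : 1 ≤ d) {z : ℝ} (hz : (rp x).eval z ≠ 0)
    (hz' : (rp x).derivative.eval z = 0) :
    (derivative (derivative (rp x))).eval z * (rp x).eval z < 0 := by
  have hne : ∀ i, z ≠ x i := by
    intro i h
    apply hz
    rw [h, eval_rp_self]
  have hS : HasDerivAt (fun w => ∑ i, 1 / (w - x i)) (∑ i, -(1 / (z - x i) ^ 2)) z := by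
    apply HasDerivAt.fun_sum
    intro i _
    have h1 : HasDerivAt (fun w : ℝ => w - x i) 1 z := (hasDerivAt_id z).sub_const _
    have h2 := h1.inv (sub_ne_zero.mpr (hne i))
    convert! h2 using 1
    · ext w
      simp
    · ring
  have hev : (fun w => (rp x).derivative.eval w) =ᶠ[𝓝 z]
      fun w => (rp x).eval w * ∑ i, 1 / (w - x i) := by
    have h1 : ∀ᶠ w in 𝓝 z, ∀ i, w ≠ x i := by
      rw [eventually_all]
      intro i
      exact isOpen_ne.mem_nhds (hne i)
    filter_upwards [h1] with w hw
    have := eval_derivative_prod univ x w (fun i _ => hw i)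
    rw [eval_rp]
    exact this
  have h1 : HasDerivAt (fun w => (rp x).derivative.eval w)
      ((rp x).derivative.eval z * (∑ i, 1 / (z - x i)) +
        (rp x).eval z * ∑ i, -(1 / (z - x i) ^ 2)) z := by
    apply HasDerivAt.congr_of_eventuallyEq _ hev
    exact ((rp x).hasDerivAt z).mul hS
  have h2 := (derivative (rp x)).hasDerivAt z
  have h3 := h2.unique h1
  rw [h3, hz', zero_mul, zero_add, sum_neg_distrib]
  have h4 : 0 < ∑ i, 1 / (z - x i) ^ 2 := by
    apply sum_pos
    · intro i _
      have := sub_ne_zero.mpr (hne i)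
      positivity
    · exact ⟨⟨0, by omega⟩, mem_univ _⟩
  have h5 : 0 < (rp x).eval z ^ 2 := by positivity
  nlinarith [mul_pos h5 h4]

lemma conv_C {q : ℝ[X]} (hq : q.natDegree = d) (hm : q.Monic) (δ : ℝ) :
    conv d (C δ) q = C δ := by
  apply ext_coeff_sub (natDegree_conv_le _ hq.le) (by simp)
  intro k hk
  rw [coeff_conv _ hq.le hk]
  have hqd : q.coeff d = 1 := by rw [← hq]; exact hm.coeff_natDegree
  rcases hk.eq_or_lt with rfl | hlt
  · rw [sum_eq_single (k, 0)]
    · have h0 : (k.descFactorial k : ℝ) ≠ 0 := descFactorial_ne_zero le_rfl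
      simp [hqd]
      field_simp
    · intro x hx hne
      have h1 := HasAntidiagonal.mem_antidiagonal.mp hx
      have h2 : k - x.1 ≠ 0 := by
        intro h
        apply hne
        ext
        · simp; omega
        · simp; omega
      rw [coeff_C, if_neg h2, zero_div, zero_mul]
    · intro h
      exact absurd (HasAntidiagonal.mem_antidiagonal.mpr (by simp)) h
  · rw [coeff_C, if_neg (by omega)]
    apply mul_eq_zero_of_right
    apply sum_eq_zero
    intro x hx
    have h1 := HasAntidiagonal.mem_antidiagonal.mp hx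
    rw [coeff_C, if_neg (by omega), zero_div, zero_mul]

/-- Small constant perturbations keep simple real roots. -/
lemma eventually_add_C {x : Fin d → ℝ} (hd : 1 ≤ d) (hx : Function.Injective x) :
    ∀ᶠ δ in 𝓝 (0 : ℝ), ∃ ξ : Fin d → ℝ, rp x + C δ = rp ξ := by
  have hdeg : ∀ δ : ℝ, (C δ : ℝ[X]).degree < (rp x).degree := by
    intro δ
    rw [degree_eq_natDegree (rp_monic x).ne_zero, natDegree_rp]
    exact degree_C_le.trans_lt (by exact_mod_cast hd)
  obtain ⟨ρ, -, -, hρ⟩ := exists_root_curves (P := fun δ : ℝ => rp x + C δ) (t₀ := 0) (d := d)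
    (fun δ => (rp_monic x).add_of_left (hdeg δ))
    (fun δ => by rw [natDegree_add_eq_left_of_degree_lt (hdeg δ), natDegree_rp])
    (fun k => by
      simp only [coeff_add]
      apply contDiff_const.add
      by_cases hk : k = 0
      · subst hk
        simp only [coeff_C_zero]
        exact contDiff_id
      · simp only [coeff_C, hk, if_false]
        exact contDiff_const)
    (ν := x) (by simp) hx (a := fun _ => 1) (fun i => by
      simp only [eval_add, eval_C]
      exact (hasDerivAt_id (0 : ℝ)).const_add _)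
  filter_upwards [hρ] with δ hδ
  exact ⟨_, hδ⟩

/-- **Convolution with a real-rooted polynomial preserves simple roots.** -/
theorem conv_injective (hd : 1 ≤ d) {x y z : Fin d → ℝ} (hx : Function.Injective x)
    (h : conv d (rp x) (rp y) = rp z) : Function.Injective z := by
  intro i j hij
  by_contra hne
  -- a double root
  set w := z i with hw
  have h0 : (rp z).eval w = 0 := eval_rp_self z i
  have h1 : (rp z).derivative.eval w = 0 := by
    rw [hw, eval_derivative_rp_self]
    apply prod_eq_zero (i := j) (mem_erase.mpr ⟨fun h => hne h.symm, mem_univ j⟩)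
    rw [← hij]
    exact sub_self _
  have hev := eventually_add_C hd hx
  have hev2 : ∀ᶠ δ in 𝓝 (0 : ℝ), ∃ ξ : Fin d → ℝ, rp x + C (-δ) = rp ξ := by
    have : Tendsto (fun δ : ℝ => -δ) (𝓝 0) (𝓝 0) := by
      have := (continuous_neg (G := ℝ)).tendsto 0
      simpa using this
    exact this.eventually hev
  obtain ⟨δ, ⟨⟨ξ₁, hξ₁⟩, ⟨ξ₂, hξ₂⟩⟩, hδ⟩ :=
    ((hev.and hev2).filter_mono nhdsWithin_le_nhds |>.and
      (self_mem_nhdsWithin (a := (0 : ℝ)) (s := Set.Ioi 0))).exists
  have hδ' : 0 < δ := hδ
  have key : ∀ (δ : ℝ) (ξ : Fin d → ℝ), δ ≠ 0 → rp x + C δ = rp ξ →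
      (derivative (derivative (rp z))).eval w * δ < 0 := by
    intro δ ξ hδ0 hξ
    obtain ⟨ζ, hζ⟩ := exists_conv_eq_rp ξ y
    have h2 : rp ζ = rp z + C δ := by
      rw [← hζ, ← hξ, conv_add_left, h, conv_C (natDegree_rp y) (rp_monic y)]
    have h3 : (rp ζ).eval w = δ := by rw [h2, eval_add, eval_C, h0, zero_add]
    have h4 : (rp ζ).derivative.eval w = 0 := by
      rw [h2, derivative_add, derivative_C, add_zero, h1]
    have h5 := second_derivative_lt hd (x := ζ) (z := w) (by rw [h3]; exact hδ0) h4
    rw [h3, h2] at h5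
    simpa using h5
  have k1 := key δ ξ₁ hδ'.ne' hξ₁
  have k2 := key (-δ) ξ₂ (neg_ne_zero.mpr hδ'.ne') hξ₂
  nlinarith

end Pool.Agent.Lib_helper19.FF
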