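import Mathlib
import Pool.Agent.Lib_helper19.FF.Basic
import Pool.Agent.Lib_helper19.FF.RealRooted
import Pool.Agent.Lib_helper19.FF.RootCurve
import Pool.Agent.Lib_helper19.FF.Key
import Pool.Agent.Lib_helper19.FF.Stam

set_option autoImplicit false

/-!
# The heat symbol `exp (-σ T² / 2)` and Hermite polynomials
-/

open Polynomial Finset Filter
open scoped Topology

namespace Pool.Agent.Lib_helper19.FF

section Heat

variable {K : Type*} [Field K] [CharZero K]

/-- The power series `exp (-σ T² / 2)`. -/
noncomputable def heat (σ : K) : PowerSeries K :=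
  PowerSeries.mk fun n => if Even n then (-σ / 2) ^ (n / 2) / (Nat.factorial (n / 2) : K) else 0

omit [CharZero K] in
@[simp] lemma coeff_heat_zero (σ : K) : PowerSeries.coeff 0 (heat σ) = 1 := by
  simp [heat]

omit [CharZero K] in
@[simp] lemma coeff_heat_one (σ : K) : PowerSeries.coeff 1 (heat σ) = 0 := by
  simp [heat]

omit [CharZero K] in
lemma coeff_heat_two (σ : K) : PowerSeries.coeff 2 (heat σ) = -σ / 2 := by
  simp [heat]

lemma coeff_heat_succ_succ (σ : K) (n : ℕ) :
    PowerSeries.coeff (n + 2) (heat σ) * (n + 2) = -σ * PowerSeries.coeff n (heat σ) := by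
  unfold heat
  rw [PowerSeries.coeff_mk, PowerSeries.coeff_mk]
  by_cases hn : Even n
  · have h2 : Even (n + 2) := hn.add (by decide)
    rw [if_pos h2, if_pos hn]
    obtain ⟨m, rfl⟩ := hn
    have e1 : (m + m + 2) / 2 = m + 1 := by omega
    have e2 : (m + m) / 2 = m := by omega
    rw [e1, e2, Nat.factorial_succ, pow_succ]
    have h3 : (Nat.factorial m : K) ≠ 0 := by exact_mod_cast Nat.factorial_ne_zero m
    have h4 : ((m : K) + 1) ≠ 0 := by exact_mod_cast Nat.succ_ne_zero m
    push_cast
    field_simp
    ring
  · have h2 : ¬ Even (n + 2) := by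
      intro h
      exact hn ((Nat.even_add.mp h).mpr (by decide))
    rw [if_neg h2, if_neg hn]
    simp

/-- `φ' = -σ T φ`. -/
lemma derivative_heat (σ : K) :
    PowerSeries.derivative K (heat σ) = (-σ) • (PowerSeries.X * heat σ) := by
  ext n
  rw [PowerSeries.coeff_derivative, map_smul, smul_eq_mul]
  rcases n with _ | n
  · simp
  · rw [PowerSeries.coeff_succ_X_mul]
    have := coeff_heat_succ_succ σ n
    push_cast
    linear_combination this

/-- Uniqueness for `φ' = c T φ`. -/
lemma ode_unique {c : K} {φ ψ : PowerSeries K}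
    (hφ : PowerSeries.derivative K φ = c • (PowerSeries.X * φ))
    (hψ : PowerSeries.derivative K ψ = c • (PowerSeries.X * ψ))
    (h0 : PowerSeries.coeff 0 φ = PowerSeries.coeff 0 ψ) : φ = ψ := by
  have key : ∀ n, PowerSeries.coeff n φ = PowerSeries.coeff n ψ ∧
      PowerSeries.coeff (n + 1) φ = PowerSeries.coeff (n + 1) ψ := by
    intro n
    induction n with
    | zero =>
      refine ⟨h0, ?_⟩
      have h1 := congrArg (PowerSeries.coeff 0) hφ
      have h2 := congrArg (PowerSeries.coeff 0) hψ
      rw [PowerSeries.coeff_derivative] at h1 h2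
      simp at h1 h2
      rw [zero_add, h1, h2]
    | succ n ih =>
      refine ⟨ih.2, ?_⟩
      have h1 := congrArg (PowerSeries.coeff (n + 1)) hφ
      have h2 := congrArg (PowerSeries.coeff (n + 1)) hψ
      rw [PowerSeries.coeff_derivative, map_smul, PowerSeries.coeff_succ_X_mul] at h1 h2
      rw [ih.1] at h1
      rw [← h2] at h1
      have h3 : (((n + 1 : ℕ) : K) + 1) ≠ 0 := by exact_mod_cast Nat.succ_ne_zero (n + 1)
      exact mul_right_cancel₀ h3 h1
  ext n
  exact (key n).1

lemma heat_mul (σ τ : K) : heat σ * heat τ = heat (σ + τ) := by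
  apply ode_unique (c := -(σ + τ))
  · rw [Derivation.leibniz, derivative_heat, derivative_heat]
    simp only [smul_eq_mul, PowerSeries.smul_eq_C_mul, map_neg, map_add]
    ring
  · exact derivative_heat _
  · simp [PowerSeries.coeff_mul]

omit [CharZero K] in
lemma heat_zero : heat (0 : K) = 1 := by
  ext n
  rw [PowerSeries.coeff_one]
  unfold heat
  rw [PowerSeries.coeff_mk]
  rcases n with _ | _ | n
  · simp
  · simp
  · have : (n + 1 + 1) / 2 ≠ 0 := by omega
    simp [this]

omit [CharZero K] in
/-- The Pincherle commutation relation. -/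
lemma act_X_mul (φ : PowerSeries K) (f : K[X]) :
    act φ (X * f) = X * act φ f + act (PowerSeries.derivative K φ) f := by
  have h1 : (X * f).natDegree < f.natDegree + 2 := by
    refine lt_of_le_of_lt natDegree_mul_le ?_
    have := natDegree_X_le (R := K)
    omega
  rw [act_eq_sum φ h1, act_eq_sum φ (f := f) (n := f.natDegree + 2) (by omega),
    act_eq_sum (PowerSeries.derivative K φ) (f := f) (n := f.natDegree + 1) (by omega), mul_sum]
  have h2 : ∀ k, derivative^[k] (X * f) = X * derivative^[k] f +
      (k : K) • derivative^[k - 1] f := by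
    intro k
    rw [mul_comm X f, iterate_derivative_mul_X, mul_comm, Nat.cast_smul_eq_nsmul]
  simp only [h2, smul_add, sum_add_distrib]
  congr 1
  · apply sum_congr rfl
    intro k _
    rw [mul_smul_comm]
  · rw [sum_range_succ']
    simp only [Nat.cast_zero, zero_smul, smul_zero, add_zero, Nat.add_sub_cancel]
    apply sum_congr rfl
    intro k _
    rw [PowerSeries.coeff_derivative, smul_smul]
    push_cast
    rfl

lemma act_heat_X_mul (σ : K) (f : K[X]) :
    act (heat σ) (X * f) = X * act (heat σ) f - C σ * derivative (act (heat σ) f) := by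
  rw [act_X_mul, derivative_heat, smul_act, mul_act, X_act, neg_smul, smul_eq_C_mul]
  ring

/-- The Hermite polynomial of variance parameter `σ`. -/
noncomputable def Her (d : ℕ) (σ : K) : K[X] := pol d (heat σ)

lemma Her_succ (d : ℕ) (σ : K) :
    Her (d + 1) σ = X * Her d σ - C σ * derivative (Her d σ) := by
  unfold Her pol
  rw [pow_succ', act_heat_X_mul]

omit [CharZero K] in
lemma derivative_Her (d : ℕ) (σ : K) :
    derivative (Her (d + 1) σ) = C ((d : K) + 1) * Her d σ := by
  unfold Her pol
  rw [derivative_act, derivative_X_pow, act_C_mul]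
  simp

/-- The Hermite differential equation. -/
lemma Her_ode (d : ℕ) (σ : K) :
    C σ * derivative (derivative (Her d σ)) = X * derivative (Her d σ) - C (d : K) * Her d σ := by
  rcases d with _ | d
  · have : derivative (Her 0 σ) = 0 := by
      unfold Her pol
      rw [pow_zero, derivative_act]
      simp
    rw [this]; simp
  · have h1 := Her_succ d σ
    have h2 := derivative_Her d σ
    rw [h2, derivative_C_mul, h1]
    simp only [Nat.cast_add, Nat.cast_one, C_add, C_1]
    ring

omit [CharZero K] in
lemma natDegree_Her_le (d : ℕ) (σ : K) : (Her d σ).natDegree ≤ d := natDegree_pol_le d _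

omit [CharZero K] in
lemma coeff_Her_top (d : ℕ) (σ : K) : (Her d σ).coeff d = 1 := by
  have := coeff_pol d (heat σ) (Nat.zero_le d)
  rw [Nat.sub_zero] at this
  unfold Her
  rw [this]
  simp

omit [CharZero K] in
lemma Her_monic (d : ℕ) (σ : K) : (Her d σ).Monic :=
  monic_of_natDegree_le_of_coeff_eq_one d (natDegree_Her_le d σ) (coeff_Her_top d σ)

omit [CharZero K] in
lemma natDegree_Her (d : ℕ) (σ : K) : (Her d σ).natDegree = d := by
  apply le_antisymm (natDegree_Her_le d σ)
  apply le_natDegree_of_ne_zero
  rw [coeff_Her_top]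
  exact one_ne_zero

end Heat

lemma heat_map (σ : ℝ) : (heat σ).map (algebraMap ℝ ℂ) = heat (σ : ℂ) := by
  ext n
  rw [PowerSeries.coeff_map]
  unfold heat
  rw [PowerSeries.coeff_mk, PowerSeries.coeff_mk]
  split_ifs
  · simp
  · simp

lemma Her_map (d : ℕ) (σ : ℝ) : (Her d σ).map (algebraMap ℝ ℂ) = Her d (σ : ℂ) := by
  unfold Her pol
  rw [act_map, heat_map, Polynomial.map_pow, map_X]

/-- The operator `X - σ D` keeps polynomials without zeros in the upper half plane. -/
lemma LH_X_sub_D {n : ℕ} {p : ℂ[X]} (hp : LH n p) {σ : ℝ} (hσ : 0 ≤ σ) :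
    LH (n + 1) (X * p - C (σ : ℂ) * derivative p) := by
  constructor
  · refine (natDegree_sub_le _ _).trans (max_le ?_ ?_)
    · refine natDegree_mul_le.trans ?_
      have := hp.1
      have := natDegree_X_le (R := ℂ)
      omega
    · refine (natDegree_C_mul_le _ _).trans ((natDegree_derivative_le _).trans ?_)
      have := hp.1
      omega
  · intro z hz h0
    have hpz := hp.2 z hz
    have hsplit : p.Splits := IsAlgClosed.splits p
    have hder := hsplit.eval_derivative_eq_eval_mul_sum hpz
    rw [eval_sub, eval_mul, eval_mul, eval_X, eval_C, hder] at h0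
    have h1 : z - σ * (p.roots.map fun r => 1 / (z - r)).sum = 0 := by
      have : p.eval z * (z - σ * (p.roots.map fun r => 1 / (z - r)).sum) = 0 := by
        linear_combination h0
      exact (mul_eq_zero.mp this).resolve_left hpz
    have h2 : ∀ s : Multiset ℂ, (∀ r ∈ s, r.im ≤ 0) → (s.map fun r => 1 / (z - r)).sum.im ≤ 0 := by
      intro s
      induction s using Multiset.induction_on with
      | empty => intro _; simp
      | cons a s ih =>
        intro hs
        rw [Multiset.map_cons, Multiset.sum_cons, Complex.add_im]
        have h3 := ih (fun r hr => hs r (Multiset.mem_cons_of_mem hr))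
        have h4 : (1 / (z - a)).im ≤ 0 := by
          rw [one_div, Complex.inv_im]
          apply div_nonpos_of_nonpos_of_nonneg
          · have := hs a (Multiset.mem_cons_self a s)
            simp only [Complex.sub_im]
            linarith
          · exact Complex.normSq_nonneg _
        linarith
    have h3 := h2 p.roots (by
      intro r hr
      by_contra hcon
      push Not at hcon
      exact hp.2 r hcon (isRoot_of_mem_roots hr))
    have h4 := congrArg Complex.im h1
    simp only [Complex.sub_im, Complex.mul_im, Complex.ofReal_re, Complex.ofReal_im, zero_mul,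
      add_zero, Complex.zero_im] at h4
    have h5 := mul_nonneg hσ (neg_nonneg.mpr h3)
    linarith

lemma LH_Her (d : ℕ) {σ : ℝ} (hσ : 0 ≤ σ) : LH d (Her d (σ : ℂ)) := by
  induction d with
  | zero =>
    constructor
    · exact natDegree_Her_le _ _
    · intro z _
      unfold Her pol
      have : act (heat (σ : ℂ)) ((X : ℂ[X]) ^ 0) = 1 := by
        rw [act_eq_sum (n := 1) _ (by simp)]
        simp
      rw [this]
      simp
  | succ d ih =>
    rw [Her_succ]
    exact LH_X_sub_D ih hσ

/-- Hermite polynomials are real-rooted. -/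
theorem exists_Her_eq_rp (d : ℕ) {σ : ℝ} (hσ : 0 ≤ σ) : ∃ x : Fin d → ℝ, Her d σ = rp x := by
  apply exists_rp_of_ne_zero (Her_monic d σ) (natDegree_Her d σ)
  intro z hz
  rw [Her_map]
  exact (LH_Her d hσ).2 z hz

/-- The roots of Hermite polynomials are simple. -/
theorem Her_injective {d : ℕ} {σ : ℝ} (hσ : 0 < σ) {x : Fin d → ℝ} (h : Her d σ = rp x) :
    Function.Injective x := by
  intro i j hij
  by_contra hne
  have h0 : (Her d σ).eval (x i) = 0 := by rw [h]; exact eval_rp_self x i
  have h1 : (Her d σ).derivative.eval (x i) = 0 := by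
    rw [h, eval_derivative_rp_self]
    apply prod_eq_zero (i := j) (mem_erase.mpr ⟨fun h => hne h.symm, mem_univ j⟩)
    rw [← hij]
    exact sub_self _
  -- all derivatives vanish
  have hode : ∀ k, C σ * derivative^[k + 2] (Her d σ) = X * derivative^[k + 1] (Her d σ) +
      C ((k : ℝ) - d) * derivative^[k] (Her d σ) := by
    intro k
    induction k with
    | zero =>
      have := Her_ode d σ
      simp only [Nat.cast_zero, zero_sub, C_neg, Function.iterate_zero, id_eq, zero_add,
        Function.iterate_succ, Function.comp_apply] at this ⊢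
      rw [this]
      ring
    | succ k ih =>
      have h2 := congrArg derivative ih
      rw [derivative_C_mul, derivative_add, derivative_mul, derivative_C_mul, derivative_X,
        ← Function.iterate_succ_apply' derivative, ← Function.iterate_succ_apply' derivative,
        ← Function.iterate_succ_apply' derivative] at h2
      have e : C (((k + 1 : ℕ) : ℝ) - d) = C ((k : ℝ) - d) + (1 : ℝ[X]) := by
        rw [← C_1, ← C_add]
        congr 1
        push_cast
        ring
      rw [e]
      linear_combination h2
  have hall : ∀ k, (derivative^[k] (Her d σ)).eval (x i) = 0 ∧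
      (derivative^[k + 1] (Her d σ)).eval (x i) = 0 := by
    intro k
    induction k with
    | zero => exact ⟨h0, h1⟩
    | succ k ih =>
      refine ⟨ih.2, ?_⟩
      have h2 := congrArg (eval (x i)) (hode k)
      rw [eval_mul, eval_C, eval_add, eval_mul, eval_mul, ih.1, ih.2, mul_zero, mul_zero,
        add_zero] at h2
      exact (mul_eq_zero.mp h2).resolve_left hσ.ne'
  have htop := (hall d).1
  have h3 : derivative^[d] (Her d σ) = C (Nat.factorial d : ℝ) := by
    apply Polynomial.ext
    intro m
    rw [coeff_iterate_derivative, coeff_C]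
    split_ifs with hm
    · subst hm
      rw [zero_add, coeff_Her_top, Nat.descFactorial_self]
      simp
    · rw [coeff_eq_zero_of_natDegree_lt, smul_zero]
      rw [natDegree_Her]
      omega
  rw [h3, eval_C] at htop
  exact Nat.factorial_ne_zero d (by exact_mod_cast htop)

/-- The score of the Hermite root vector. -/
lemma J_Her {d : ℕ} {σ : ℝ} (hσ : 0 < σ) {x : Fin d → ℝ} (h : Her d σ = rp x) (i : Fin d) :
    J x i = x i / (2 * σ) := by
  have hx := Her_injective hσ h
  have h1 := congrArg (eval (x i)) (Her_ode d σ)
  rw [h, eval_mul, eval_sub, eval_mul, eval_mul, eval_C, eval_C, eval_X, eval_rp_self,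
    eval_second_derivative hx] at h1
  have h2 := eval_derivative_rp_ne_zero hx i
  have h3 : 2 * σ * J x i = x i := by
    have : (2 * σ * J x i) * (rp x).derivative.eval (x i) =
        x i * (rp x).derivative.eval (x i) := by linear_combination h1
    exact mul_right_cancel₀ h2 this
  field_simp
  linarith

end Pool.Agent.Lib_helper19.FF
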