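import Mathlib
import Pool.Agent.Lib_helper19.FF.Basic
import Pool.Agent.Lib_helper19.FF.RealRooted
import Pool.Agent.Lib_helper19.FF.RootCurve
import Pool.Agent.Lib_helper19.FF.PermPoly
import Pool.Agent.Lib_helper19.FF.Key
import Pool.Agent.Lib_helper19.FF.Stam
import Pool.Agent.Lib_helper19.FF.Heat

set_option autoImplicit false

/-!
# The logarithmic discriminant along the heat flow
-/

open Polynomial Finset Filter
open scoped Topology

namespace Pool.Agent.Lib_helper19.FF

variable {d : ℕ}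

/-- The logarithm of (the absolute value of) the discriminant, as a function of the polynomial. -/
noncomputable def lD (p : ℝ[X]) : ℝ := Real.log ((p.roots.map fun r => p.derivative.eval r).prod)

/-- The logarithmic discriminant as a function of the root vector. -/
noncomputable def LD (x : Fin d → ℝ) : ℝ := ∑ i, ∑ j ∈ univ.erase i, Real.log (x i - x j)

lemma roots_rp (x : Fin d → ℝ) : (rp x).roots = (univ : Finset (Fin d)).val.map x := by
  unfold rp
  rw [roots_prod _ _ (prod_ne_zero_iff.mpr (fun i _ => X_sub_C_ne_zero _))]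
  simp only [roots_X_sub_C]
  rw [Multiset.bind_singleton]

lemma lD_rp {x : Fin d → ℝ} (hx : Function.Injective x) : lD (rp x) = LD x := by
  unfold lD LD
  rw [roots_rp, Multiset.map_map]
  have h1 : (Multiset.map ((fun r => (rp x).derivative.eval r) ∘ x) (univ : Finset (Fin d)).val).prod
      = ∏ i, (rp x).derivative.eval (x i) := rfl
  rw [h1, Real.log_prod]
  · apply sum_congr rfl
    intro i _
    rw [eval_derivative_rp_self, Real.log_prod]
    intro j hj
    rw [sub_ne_zero]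
    intro h
    exact (mem_erase.mp hj).1 (hx h).symm
  · intro i _
    exact eval_derivative_rp_ne_zero hx i

lemma hasDerivAt_LD {ρ : Fin d → ℝ → ℝ} {ρ' x : Fin d → ℝ} {t₀ : ℝ}
    (h0 : ∀ i, ρ i t₀ = x i) (hx : Function.Injective x)
    (h : ∀ i, HasDerivAt (ρ i) (ρ' i) t₀) :
    HasDerivAt (fun t => LD (fun i => ρ i t))
      (∑ i, ∑ j ∈ univ.erase i, (ρ' i - ρ' j) / (x i - x j)) t₀ := by
  unfold LD
  apply HasDerivAt.fun_sum
  intro i _
  apply HasDerivAt.fun_sum
  intro j hj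
  have h1 := ((h i).sub (h j)).log (by
    rw [Pi.sub_apply, h0, h0, sub_ne_zero]
    intro h
    exact (mem_erase.mp hj).1 (hx h).symm)
  simpa [h0] using! h1

lemma continuousAt_LD {ρ : Fin d → ℝ → ℝ} {x : Fin d → ℝ} {t₀ : ℝ}
    (h0 : ∀ i, ρ i t₀ = x i) (hx : Function.Injective x)
    (h : ∀ i, ContinuousAt (ρ i) t₀) : ContinuousAt (fun t => LD (fun i => ρ i t)) t₀ := by
  unfold LD
  apply tendsto_finsetSum
  intro i _
  apply tendsto_finsetSum
  intro j hj
  apply ContinuousAt.log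
  · exact (h i).sub (h j)
  · change ρ i t₀ - ρ j t₀ ≠ 0
    rw [h0, h0, sub_ne_zero]
    intro h
    exact (mem_erase.mp hj).1 (hx h).symm

lemma sum_J_identity (x : Fin d → ℝ) :
    ∑ i, ∑ j ∈ univ.erase i, (J x i - J x j) / (x i - x j) = 2 * ∑ i, J x i ^ 2 := by
  have h1 : ∑ i, ∑ j ∈ univ.erase i, (J x i - J x j) / (x i - x j) =
      ∑ i, ∑ j ∈ univ.erase i, J x i / (x i - x j) -
        ∑ i, ∑ j ∈ univ.erase i, J x j / (x i - x j) := by
    rw [← sum_sub_distrib]
    apply sum_congr rfl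
    intro i _
    rw [← sum_sub_distrib]
    apply sum_congr rfl
    intro j _
    rw [sub_div]
  have h2 : ∑ i, ∑ j ∈ univ.erase i, J x i / (x i - x j) = ∑ i, J x i ^ 2 := by
    apply sum_congr rfl
    intro i _
    rw [sq]
    conv_rhs => rw [J, mul_sum]
    apply sum_congr rfl
    intro j _
    rw [mul_one_div]
    rfl
  have h3 : ∑ i, ∑ j ∈ univ.erase i, J x j / (x i - x j) = -∑ i, J x i ^ 2 := by
    rw [← h2, ← sum_neg_distrib]
    have h4 : ∀ f : Fin d → Fin d → ℝ, ∑ i, ∑ j ∈ univ.erase i, f i j =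
        ∑ i, ∑ j ∈ univ.erase i, f j i := by
      intro f
      apply sum_comm'
      intro i j
      simp only [mem_univ, mem_erase, ne_eq, and_true, true_and]
      exact ⟨fun h => fun h' => h h'.symm, fun h => fun h' => h h'.symm⟩
    rw [h4]
    apply sum_congr rfl
    intro i _
    rw [← sum_neg_distrib]
    apply sum_congr rfl
    intro j _
    rw [← neg_sub (x i) (x j), div_neg]
  rw [h1, h2, h3]
  ring

/-! ### Action of unital symbols on root polynomials -/

lemma coeff_zero_sym_rp (x : Fin d → ℝ) : PowerSeries.coeff 0 (sym d (rp x)) = 1 := by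
  rw [coeff_sym d _ (Nat.zero_le d), Nat.sub_zero, coeff_rp_top]
  simp

lemma pol_monic {φ : PowerSeries ℝ} (hφ : PowerSeries.coeff 0 φ = 1) : (pol d φ).Monic := by
  apply monic_of_natDegree_le_of_coeff_eq_one d (natDegree_pol_le d _)
  have := coeff_pol d φ (Nat.zero_le d)
  rw [Nat.sub_zero] at this
  rw [this, hφ]
  simp

lemma natDegree_pol {φ : PowerSeries ℝ} (hφ : PowerSeries.coeff 0 φ = 1) :
    (pol d φ).natDegree = d := by
  apply le_antisymm (natDegree_pol_le d _)
  apply le_natDegree_of_ne_zero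
  have := coeff_pol d φ (Nat.zero_le d)
  rw [Nat.sub_zero] at this
  rw [this, hφ]
  simp

lemma act_rp (φ : PowerSeries ℝ) (x : Fin d → ℝ) :
    act φ (rp x) = pol d (φ * sym d (rp x)) := by
  conv_lhs => rw [← pol_sym (natDegree_rp x).le]
  unfold pol
  rw [mul_act]

lemma coeff_zero_mul {φ ψ : PowerSeries ℝ} (hφ : PowerSeries.coeff 0 φ = 1)
    (hψ : PowerSeries.coeff 0 ψ = 1) : PowerSeries.coeff 0 (φ * ψ) = 1 := by
  rw [PowerSeries.coeff_mul]
  simp [hφ, hψ]

lemma act_heat_monic (h : ℝ) (x : Fin d → ℝ) : (act (heat h) (rp x)).Monic := by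
  rw [act_rp]
  exact pol_monic (coeff_zero_mul (coeff_heat_zero h) (coeff_zero_sym_rp x))

lemma natDegree_act_heat (h : ℝ) (x : Fin d → ℝ) : (act (heat h) (rp x)).natDegree = d := by
  rw [act_rp]
  exact natDegree_pol (coeff_zero_mul (coeff_heat_zero h) (coeff_zero_sym_rp x))

lemma conv_Her (σ : ℝ) (x : Fin d → ℝ) : conv d (Her d σ) (rp x) = act (heat σ) (rp x) := by
  unfold conv
  apply act_congr (natDegree_rp x).le
  intro k hk
  exact coeff_sym_pol d (heat σ) hk

/-- The heat flow keeps real-rootedness. -/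
lemma exists_act_heat (x : Fin d → ℝ) {σ : ℝ} (hσ : 0 ≤ σ) :
    ∃ ξ : Fin d → ℝ, act (heat σ) (rp x) = rp ξ := by
  obtain ⟨ζ, hζ⟩ := exists_Her_eq_rp d hσ
  obtain ⟨ξ, hξ⟩ := exists_conv_eq_rp x ζ
  refine ⟨ξ, ?_⟩
  rw [← conv_Her, hζ, conv_comm (natDegree_rp _).le (natDegree_rp _).le, hξ]

/-- The heat flow keeps simple roots. -/
lemma act_heat_injective (hd : 1 ≤ d) {x ξ : Fin d → ℝ} (hx : Function.Injective x) {σ : ℝ}
    (hσ : 0 ≤ σ) (h : act (heat σ) (rp x) = rp ξ) : Function.Injective ξ := by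
  obtain ⟨ζ, hζ⟩ := exists_Her_eq_rp d hσ
  apply conv_injective hd hx (y := ζ)
  rw [conv_comm (natDegree_rp _).le (natDegree_rp _).le, ← hζ, conv_Her, h]

/-- The heat flow makes roots simple. -/
lemma act_heat_injective' (hd : 1 ≤ d) {x ξ : Fin d → ℝ} {σ : ℝ}
    (hσ : 0 < σ) (h : act (heat σ) (rp x) = rp ξ) : Function.Injective ξ := by
  obtain ⟨ζ, hζ⟩ := exists_Her_eq_rp d hσ.le
  apply conv_injective hd (Her_injective hσ hζ) (y := x)
  rw [← hζ, conv_Her, h]

/-! ### Derivative of the logarithmic discriminant along the heat flow -/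

lemma contDiff_coeff_heat (k : ℕ) : ContDiff ℝ 1 (fun h : ℝ => PowerSeries.coeff k (heat h)) := by
  unfold heat
  simp only [PowerSeries.coeff_mk]
  split_ifs
  · fun_prop
  · exact contDiff_const

lemma hasDerivAt_coeff_heat (k : ℕ) :
    HasDerivAt (fun h : ℝ => PowerSeries.coeff k (heat h)) (if k = 2 then -(1 / 2) else 0) 0 := by
  unfold heat
  simp only [PowerSeries.coeff_mk]
  by_cases hk : Even k
  · simp only [hk, if_true]
    obtain ⟨m, rfl⟩ := hk
    have e1 : (m + m) / 2 = m := by omega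
    rw [e1]
    have h1 : HasDerivAt (fun h : ℝ => -h / 2) (-1 / 2) 0 := ((hasDerivAt_id (0 : ℝ)).neg).div_const 2
    have h2 := (h1.pow m).div_const (Nat.factorial m : ℝ)
    rcases m with _ | _ | m
    · simpa using! h2
    · simp at h2 ⊢
      convert! h2 using 1
      norm_num
    · have e2 : m + 1 + 1 + (m + 1 + 1) ≠ 2 := by omega
      rw [if_neg e2]
      simpa using! h2
  · have h2 : k ≠ 2 := by
      rintro rfl
      exact hk (by decide)
    simp only [hk, h2, if_false]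
    exact hasDerivAt_const _ _

lemma contDiff_coeff_act_heat (x : Fin d → ℝ) (k : ℕ) :
    ContDiff ℝ 1 (fun h : ℝ => (act (heat h) (rp x)).coeff k) := by
  have h1 : (fun h : ℝ => (act (heat h) (rp x)).coeff k) = fun h : ℝ =>
      ∑ j ∈ range (d + 1), PowerSeries.coeff j (heat h) * (derivative^[j] (rp x)).coeff k := by
    ext h
    rw [act_eq_sum (n := d + 1) _ (by rw [natDegree_rp]; omega), finsetSum_coeff]
    apply sum_congr rfl
    intro j _
    rw [coeff_smul, smul_eq_mul]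
  rw [h1]
  apply ContDiff.sum
  intro j _
  exact (contDiff_coeff_heat j).mul contDiff_const

lemma hasDerivAt_eval_act_heat (x : Fin d → ℝ) (z : ℝ) :
    HasDerivAt (fun h : ℝ => (act (heat h) (rp x)).eval z)
      (-(1 / 2) * (derivative (derivative (rp x))).eval z) 0 := by
  have h1 : (fun h : ℝ => (act (heat h) (rp x)).eval z) = fun h : ℝ =>
      ∑ j ∈ range (d + 3), PowerSeries.coeff j (heat h) * (derivative^[j] (rp x)).eval z := by
    ext h
    rw [act_eq_sum (n := d + 3) _ (by rw [natDegree_rp]; omega), eval_finsetSum]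
    apply sum_congr rfl
    intro j _
    rw [eval_smul, smul_eq_mul]
  have h2 : -(1 / 2) * (derivative (derivative (rp x))).eval z =
      ∑ j ∈ range (d + 3), (if j = 2 then -(1 / 2) else 0) * (derivative^[j] (rp x)).eval z := by
    rw [sum_eq_single 2]
    · simp
    · intro j _ hj
      rw [if_neg hj, zero_mul]
    · intro h
      exact absurd (mem_range.mpr (by omega)) h
  rw [h1, h2]
  apply HasDerivAt.fun_sum
  intro j _
  exact (hasDerivAt_coeff_heat j).mul_const _

/-- Root curves of the heat flow. -/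
lemma exists_heat_curves {x : Fin d → ℝ} (hx : Function.Injective x) :
    ∃ ρ : Fin d → ℝ → ℝ, (∀ i, ρ i 0 = x i) ∧ (∀ i, HasDerivAt (ρ i) (J x i) 0) ∧
      ∀ᶠ h in 𝓝 (0 : ℝ), act (heat h) (rp x) = rp (fun i => ρ i h) := by
  obtain ⟨ρ, h1, h2, h3⟩ := exists_root_curves (P := fun h : ℝ => act (heat h) (rp x)) (t₀ := 0)
    (fun h => act_heat_monic h x) (fun h => natDegree_act_heat h x)
    (fun k => contDiff_coeff_act_heat x k) (ν := x) (by rw [heat_zero, one_act]) hx
    (a := fun i => -(1 / 2) * (derivative (derivative (rp x))).eval (x i))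
    (fun i => hasDerivAt_eval_act_heat x (x i))
  refine ⟨ρ, h1, ?_, h3⟩
  intro i
  convert! h2 i using 1
  rw [eval_second_derivative hx]
  have := eval_derivative_rp_ne_zero hx i
  field_simp

lemma eventually_injective {ρ : Fin d → ℝ → ℝ} {x : Fin d → ℝ} {t₀ : ℝ}
    (h0 : ∀ i, ρ i t₀ = x i) (hx : Function.Injective x) (h : ∀ i, ContinuousAt (ρ i) t₀) :
    ∀ᶠ t in 𝓝 t₀, Function.Injective (fun i => ρ i t) := by
  have h1 : ∀ i j, i ≠ j → ∀ᶠ t in 𝓝 t₀, ρ i t ≠ ρ j t := by
    intro i j hij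
    have h2 : Tendsto (fun t => ρ i t - ρ j t) (𝓝 t₀) (𝓝 (x i - x j)) := by
      have h4 := ((h i).sub (h j)).tendsto
      rw [Pi.sub_apply, h0, h0] at h4
      exact h4
    have h3 : x i - x j ≠ 0 := sub_ne_zero.mpr (fun h => hij (hx h))
    filter_upwards [h2.eventually_ne h3] with t ht h
    exact ht (sub_eq_zero.mpr h)
  have h2 : ∀ᶠ t in 𝓝 t₀, ∀ i j, i ≠ j → ρ i t ≠ ρ j t := by
    rw [eventually_all]
    intro i
    rw [eventually_all]
    intro j
    by_cases hij : i = j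
    · simp [hij]
    · filter_upwards [h1 i j hij] with t ht _
      exact ht
  filter_upwards [h2] with t ht i j hij
  by_contra hne
  exact ht i j hne hij

/-- Derivative of the logarithmic discriminant at time `0`. -/
lemma hasDerivAt_lD_zero {x : Fin d → ℝ} (hx : Function.Injective x) :
    HasDerivAt (fun h : ℝ => lD (act (heat h) (rp x))) (2 * ∑ i, J x i ^ 2) 0 := by
  obtain ⟨ρ, h1, h2, h3⟩ := exists_heat_curves hx
  have h4 := hasDerivAt_LD h1 hx h2
  rw [sum_J_identity] at h4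
  apply h4.congr_of_eventuallyEq
  filter_upwards [h3, eventually_injective h1 hx (fun i => (h2 i).continuousAt)] with h h5 h6
  rw [h5, lD_rp h6]

/-- Derivative of the logarithmic discriminant at time `σ ≥ 0`. -/
lemma hasDerivAt_lD {x ξ : Fin d → ℝ} {σ : ℝ} (h : act (heat σ) (rp x) = rp ξ)
    (hξ : Function.Injective ξ) :
    HasDerivAt (fun s : ℝ => lD (act (heat s) (rp x))) (2 * ∑ i, J ξ i ^ 2) σ := by
  have h1 := hasDerivAt_lD_zero hξ
  have h2 : (fun s : ℝ => lD (act (heat s) (rp x))) =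
      fun s : ℝ => (fun h : ℝ => lD (act (heat h) (rp ξ))) (s - σ) := by
    ext s
    simp only
    rw [← h, ← mul_act, heat_mul, sub_add_cancel]
  rw [h2]
  have h3 : HasDerivAt (fun h : ℝ => lD (act (heat h) (rp ξ))) (2 * ∑ i, J ξ i ^ 2) (σ - σ) := by
    rw [sub_self]; exact h1
  have h4 := h3.comp_sub_const σ σ
  exact h4

/-! ### Rescaling and the limit at infinity -/

lemma rescale_heat (c σ : ℝ) : PowerSeries.rescale c (heat σ) = heat (c ^ 2 * σ) := by
  ext n
  rw [PowerSeries.coeff_rescale]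
  unfold heat
  rw [PowerSeries.coeff_mk, PowerSeries.coeff_mk]
  by_cases hn : Even n
  · simp only [hn, if_true]
    obtain ⟨m, rfl⟩ := hn
    have e1 : (m + m) / 2 = m := by omega
    have e2 : c ^ (m + m) = (c ^ 2) ^ m := by rw [← pow_mul]; congr 1; ring
    have e3 : -(c ^ 2 * σ) / 2 = c ^ 2 * (-σ / 2) := by ring
    rw [e1, e2, e3, mul_pow, mul_div_assoc]
  · simp only [hn, if_false, mul_zero]

lemma pol_congr {φ ψ : PowerSeries ℝ}
    (h : ∀ k ≤ d, PowerSeries.coeff k φ = PowerSeries.coeff k ψ) : pol d φ = pol d ψ :=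
  act_congr (by simp) h

lemma rp_mul_eq_pol (c : ℝ) (x : Fin d → ℝ) :
    rp (fun i => c * x i) = pol d (PowerSeries.rescale c (sym d (rp x))) := by
  apply ext_coeff_sub (natDegree_rp _).le (natDegree_pol_le d _)
  intro k hk
  rw [coeff_rp_mul c x hk, coeff_pol d _ hk, PowerSeries.coeff_rescale, coeff_sym d _ hk]
  have := descFactorial_ne_zero (K := ℝ) hk
  field_simp

/-- The rescaled flow, extended to time infinity (`τ = 0`). -/
noncomputable def WW (φ : PowerSeries ℝ) (d : ℕ) (τ : ℝ) : ℝ[X] :=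
  pol d (heat 1 * PowerSeries.rescale τ φ)

lemma WW_monic {φ : PowerSeries ℝ} (hφ : PowerSeries.coeff 0 φ = 1) (τ : ℝ) :
    (WW φ d τ).Monic := by
  apply pol_monic (coeff_zero_mul (coeff_heat_zero _) _)
  rw [PowerSeries.coeff_rescale, hφ]
  simp

lemma natDegree_WW {φ : PowerSeries ℝ} (hφ : PowerSeries.coeff 0 φ = 1) (τ : ℝ) :
    (WW φ d τ).natDegree = d := by
  apply natDegree_pol (coeff_zero_mul (coeff_heat_zero _) _)
  rw [PowerSeries.coeff_rescale, hφ]
  simp

lemma WW_zero {φ : PowerSeries ℝ} (hφ : PowerSeries.coeff 0 φ = 1) : WW φ d 0 = Her d 1 := by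
  unfold WW Her
  congr 1
  have : PowerSeries.rescale (0 : ℝ) φ = 1 := by
    ext n
    rw [PowerSeries.coeff_rescale, PowerSeries.coeff_one]
    rcases n with _ | n
    · simpa using hφ
    · simp
  rw [this, mul_one]

lemma contDiff_coeff_WW (φ : PowerSeries ℝ) (k : ℕ) :
    ContDiff ℝ 1 (fun τ : ℝ => (WW φ d τ).coeff k) := by
  unfold WW
  by_cases hk : k ≤ d
  · have h1 : (fun τ : ℝ => (pol d (heat 1 * PowerSeries.rescale τ φ)).coeff k) = fun τ : ℝ =>
        (∑ x ∈ antidiagonal (d - k), PowerSeries.coeff x.1 (heat (1 : ℝ)) *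
          (τ ^ x.2 * PowerSeries.coeff x.2 φ)) * (d.descFactorial (d - k) : ℝ) := by
      ext τ
      rw [coeff_pol' d _ hk, PowerSeries.coeff_mul]
      simp only [PowerSeries.coeff_rescale]
    rw [h1]
    fun_prop
  · have h1 : (fun τ : ℝ => (pol d (heat 1 * PowerSeries.rescale τ φ)).coeff k) =
        fun _ => (0 : ℝ) := by
      ext τ
      apply coeff_eq_zero_of_natDegree_lt
      exact lt_of_le_of_lt (natDegree_pol_le d _) (by omega)
    rw [h1]
    exact contDiff_const

/-- Root curves, version with continuity only. -/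
theorem exists_root_curves_cont {P : ℝ → ℝ[X]} (hm : ∀ t, (P t).Monic)
    (hd : ∀ t, (P t).natDegree = d) (hc : ∀ k, ContDiff ℝ 1 fun t => (P t).coeff k) {t₀ : ℝ}
    {ν : Fin d → ℝ} (h0 : P t₀ = rp ν) (hν : Function.Injective ν) :
    ∃ ρ : Fin d → ℝ → ℝ, (∀ i, ρ i t₀ = ν i) ∧ (∀ i, ContinuousAt (ρ i) t₀) ∧
      ∀ᶠ t in 𝓝 t₀, P t = rp (fun i => ρ i t) := by
  have hdiff : ∀ z, Differentiable ℝ (fun t => (P t).eval z) := by
    intro z
    have h1 : (fun t => (P t).eval z) = fun t => ∑ k ∈ range (d + 1), (P t).coeff k * z ^ k := by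
      ext t
      rw [eval_eq_sum_range, hd]
    rw [h1]
    apply Differentiable.fun_sum
    intro k _
    exact ((hc k).differentiable one_ne_zero).mul_const _
  obtain ⟨ρ, h1, h2, h3⟩ := exists_root_curves hm hd hc h0 hν
    (a := fun i => deriv (fun t => (P t).eval (ν i)) t₀) (fun i => (hdiff (ν i) t₀).hasDerivAt)
  exact ⟨ρ, h1, fun i => (h2 i).continuousAt, h3⟩

lemma exists_WW_curves {φ : PowerSeries ℝ} (hφ : PowerSeries.coeff 0 φ = 1) {ζ : Fin d → ℝ}
    (hζ : Her d (1 : ℝ) = rp ζ) :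
    ∃ ρ : Fin d → ℝ → ℝ, (∀ i, ρ i 0 = ζ i) ∧ (∀ i, ContinuousAt (ρ i) 0) ∧
      ∀ᶠ t in 𝓝 (0 : ℝ), WW φ d t = rp (fun i => ρ i t) :=
  exists_root_curves_cont (fun t => WW_monic hφ t) (fun t => natDegree_WW hφ t)
    (fun k => contDiff_coeff_WW φ k) (by rw [WW_zero hφ, hζ]) (Her_injective one_pos hζ)

/-- Convergence of the rescaled logarithmic discriminant. -/
lemma tendsto_lD_WW {φ : PowerSeries ℝ} (hφ : PowerSeries.coeff 0 φ = 1) :
    Tendsto (fun τ : ℝ => lD (WW φ d τ)) (𝓝 0) (𝓝 (lD (Her d (1 : ℝ)))) := by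
  obtain ⟨ζ, hζ⟩ := exists_Her_eq_rp d (zero_le_one (α := ℝ))
  have hζi := Her_injective one_pos hζ
  obtain ⟨ρ, h1, h2, h3⟩ := exists_WW_curves hφ hζ
  have h4 := continuousAt_LD h1 hζi h2
  have h5 : Tendsto (fun t => LD (fun i => ρ i t)) (𝓝 0) (𝓝 (lD (Her d (1 : ℝ)))) := by
    have h6 : LD (fun i => ρ i 0) = lD (Her d (1 : ℝ)) := by
      rw [hζ, lD_rp hζi]
      congr 1
      ext i
      exact h1 i
    rw [← h6]
    exact h4
  apply h5.congr'
  filter_upwards [h3, eventually_injective h1 hζi h2] with t h6 h7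
  rw [h6, lD_rp h7]

lemma LD_mul {ξ : Fin d → ℝ} (hξ : Function.Injective ξ) {c : ℝ} (hc : 0 < c) :
    LD (fun i => c * ξ i) = LD ξ + (d * (d - 1) : ℝ) * Real.log c := by
  unfold LD
  have h1 : ∀ i, ∑ j ∈ univ.erase i, Real.log (c * ξ i - c * ξ j) =
      ∑ j ∈ univ.erase i, Real.log (ξ i - ξ j) + (d - 1 : ℝ) * Real.log c := by
    intro i
    have h2 : ∀ j ∈ univ.erase i, Real.log (c * ξ i - c * ξ j) =
        Real.log (ξ i - ξ j) + Real.log c := by
      intro j hj
      rw [← mul_sub, Real.log_mul hc.ne', add_comm]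
      rw [sub_ne_zero]
      intro h
      exact (mem_erase.mp hj).1 (hξ h).symm
    rw [sum_congr rfl h2, sum_add_distrib, sum_const, card_erase_of_mem (mem_univ i), card_univ,
      Fintype.card_fin, nsmul_eq_mul, Nat.cast_sub (by have := i.2; omega), Nat.cast_one]
  simp only [h1]
  rw [sum_add_distrib, sum_const, card_univ, Fintype.card_fin, nsmul_eq_mul]
  ring

/-- The rescaling identity. -/
lemma rp_inv_sqrt_eq_WW {x ξ : Fin d → ℝ} {σ : ℝ} (hσ : 0 < σ)
    (h : act (heat σ) (rp x) = rp ξ) :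
    rp (fun i => (1 / Real.sqrt σ) * ξ i) = WW (sym d (rp x)) d (1 / Real.sqrt σ) := by
  rw [rp_mul_eq_pol]
  unfold WW
  apply pol_congr
  intro k hk
  have h1 : PowerSeries.coeff k (sym d (rp ξ)) =
      PowerSeries.coeff k (heat σ * sym d (rp x)) := by
    rw [← h, act_rp, coeff_sym_pol d _ hk]
  have h2 : heat (1 : ℝ) = PowerSeries.rescale (1 / Real.sqrt σ) (heat σ) := by
    rw [rescale_heat, div_pow, Real.sq_sqrt hσ.le]
    congr 1
    field_simp
  rw [h2, ← map_mul, PowerSeries.coeff_rescale, PowerSeries.coeff_rescale, h1]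

/-- The logarithmic discriminant at time `σ > 0` in terms of the rescaled flow. -/
lemma lD_act_heat (hd : 1 ≤ d) (x : Fin d → ℝ) {σ : ℝ} (hσ : 0 < σ) :
    lD (act (heat σ) (rp x)) = lD (WW (sym d (rp x)) d (1 / Real.sqrt σ)) +
      (d * (d - 1) / 2 : ℝ) * Real.log σ := by
  obtain ⟨ξ, hξ⟩ := exists_act_heat x hσ.le
  have hinj := act_heat_injective' hd hσ hξ
  have hs : 0 < 1 / Real.sqrt σ := by
    have := Real.sqrt_pos.mpr hσ
    positivity
  have hinj2 : Function.Injective (fun i => (1 / Real.sqrt σ) * ξ i) := by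
    intro i j hij
    exact hinj (mul_left_cancel₀ hs.ne' hij)
  rw [← rp_inv_sqrt_eq_WW hσ hξ, lD_rp hinj2, LD_mul hinj hs, hξ, lD_rp hinj, one_div,
    Real.log_inv, Real.log_sqrt hσ.le]
  ring

lemma tendsto_one_div_sqrt : Tendsto (fun σ : ℝ => 1 / Real.sqrt σ) atTop (𝓝 0) := by
  have h1 : Tendsto (fun σ : ℝ => Real.sqrt σ) atTop atTop := Real.tendsto_sqrt_atTop
  exact h1.const_div_atTop 1

/-- The limit of the renormalised logarithmic discriminant. -/
lemma tendsto_lD_act_heat (hd : 1 ≤ d) (x : Fin d → ℝ) :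
    Tendsto (fun σ : ℝ => lD (act (heat σ) (rp x)) - (d * (d - 1) / 2 : ℝ) * Real.log σ) atTop
      (𝓝 (lD (Her d (1 : ℝ)))) := by
  have h1 := (tendsto_lD_WW (d := d) (coeff_zero_sym_rp x)).comp tendsto_one_div_sqrt
  apply h1.congr'
  filter_upwards [eventually_gt_atTop 0] with σ hσ
  rw [lD_act_heat hd x hσ]
  simp

end Pool.Agent.Lib_helper19.FF
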