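import Mathlib
import Pool.Agent.Lib_helper19.FF.Basic
import Pool.Agent.Lib_helper19.FF.RealRooted
import Pool.Agent.Lib_helper19.FF.PermPoly
import Pool.Agent.Lib_helper19.FF.Key
import Pool.Agent.Lib_helper19.FF.Stam
import Pool.Agent.Lib_helper19.FF.Heat
import Pool.Agent.Lib_helper19.FF.Flow

set_option autoImplicit false

/-!
# Second order asymptotics of the logarithmic discriminant near Hermite polynomials
-/

open Polynomial Finset Filter
open scoped Topology

namespace Pool.Agent.Lib_helper19.FF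

variable {d : ℕ}

/-- Second order expansion of the logarithm along a filter. -/
lemma log_asymp {ι : Type*} {l : Filter ι} {u g : ι → ℝ} {w : ℝ} (hg : ∀ᶠ t in l, g t ≠ 0)
    (hg0 : Tendsto g l (𝓝 0)) (hu : Tendsto (fun t => u t / g t) l (𝓝 w)) :
    Tendsto (fun t => (Real.log (1 + u t) - u t) / (g t) ^ 2) l (𝓝 (-(w ^ 2) / 2)) := by
  have hu0 : Tendsto u l (𝓝 0) := by
    have h1 := hu.mul hg0
    rw [mul_zero] at h1
    apply h1.congr'
    filter_upwards [hg] with t ht
    field_simp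
  have hsmall : ∀ᶠ t in l, |u t| ≤ 1 / 2 := by
    have h1 : Tendsto (fun t => |u t|) l (𝓝 0) := by simpa using hu0.abs
    exact (h1.eventually (gt_mem_nhds (by norm_num : (0 : ℝ) < 1 / 2))).mono (fun t ht => le_of_lt ht)
  -- main part and error
  have h2 : Tendsto (fun t => -((u t / g t) ^ 2) / 2) l (𝓝 (-(w ^ 2) / 2)) :=
    ((hu.pow 2).neg).div_const 2
  have h3 : Tendsto (fun t => (Real.log (1 + u t) - u t + (u t) ^ 2 / 2) / (g t) ^ 2) l (𝓝 0) := by
    have h4 : Tendsto (fun t => 2 * |u t| * (u t / g t) ^ 2) l (𝓝 0) := by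
      have h5 : Tendsto (fun t => |u t|) l (𝓝 0) := by simpa using hu0.abs
      have := (h5.const_mul 2).mul (hu.pow 2)
      simpa using this
    apply squeeze_zero_norm' _ h4
    filter_upwards [hsmall, hg] with t ht hgt
    have h6 := Real.abs_log_sub_add_sum_range_le (x := -u t) (by rw [abs_neg]; linarith) 2
    rw [sum_range_succ, sum_range_succ, sum_range_zero] at h6
    simp only [abs_neg, sub_neg_eq_add] at h6
    have h7 : |u t| ^ (2 + 1) / (1 - |u t|) ≤ 2 * |u t| ^ 3 := by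
      rw [div_le_iff₀ (by linarith)]
      have h8 : 0 ≤ |u t| ^ 3 := by positivity
      have h9 : |u t| ^ 3 * 1 ≤ |u t| ^ 3 * (2 * (1 - |u t|)) :=
        mul_le_mul_of_nonneg_left (by linarith) h8
      have h10 : |u t| ^ (2 + 1) = |u t| ^ 3 * 1 := by ring
      rw [h10]
      linarith
    have h9 : |Real.log (1 + u t) - u t + (u t) ^ 2 / 2| ≤ 2 * |u t| ^ 3 := by
      refine le_trans (le_of_eq ?_) (h6.trans h7)
      congr 1
      push_cast
      ring
    rw [Real.norm_eq_abs, abs_div, abs_of_pos (by positivity : 0 < (g t) ^ 2), div_le_iff₀ (by positivity)]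
    refine h9.trans (le_of_eq ?_)
    have h10 : (u t / g t) ^ 2 * (g t) ^ 2 = |u t| ^ 2 := by
      rw [sq_abs]
      field_simp
    rw [mul_assoc, h10]
    ring
  have h4 := h2.add h3
  rw [add_zero] at h4
  apply h4.congr'
  filter_upwards [hg] with t ht
  field_simp
  ring

/-- `WW` as a perturbation of the Hermite polynomial. -/
lemma WW_eq_sum (φ : PowerSeries ℝ) (t : ℝ) :
    WW φ d t = ∑ k ∈ range (d + 1), (t ^ k * PowerSeries.coeff k φ) •
      derivative^[k] (Her d (1 : ℝ)) := by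
  unfold WW pol
  rw [mul_comm, mul_act]
  change act (PowerSeries.rescale t φ) (Her d (1 : ℝ)) = _
  rw [act_eq_sum (n := d + 1) _ (by rw [natDegree_Her]; omega)]
  apply sum_congr rfl
  intro k _
  rw [PowerSeries.coeff_rescale]

/-- First order displacement of the roots. -/
noncomputable def eta (m : ℕ) (ζ : Fin d → ℝ) (i : Fin d) : ℝ :=
  -(derivative^[m] (Her d (1 : ℝ))).eval (ζ i) / (Her d (1 : ℝ)).derivative.eval (ζ i)

lemma tendsto_displacement {φ : PowerSeries ℝ} {m : ℕ} (hm : 1 ≤ m) (hmd : m ≤ d)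
    (h0 : PowerSeries.coeff 0 φ = 1)
    (hlow : ∀ k, 0 < k → k < m → PowerSeries.coeff k φ = 0) {ζ : Fin d → ℝ}
    (hζ : Her d (1 : ℝ) = rp ζ) {ρ : Fin d → ℝ → ℝ} (h1 : ∀ i, ρ i 0 = ζ i)
    (h2 : ∀ i, ContinuousAt (ρ i) 0)
    (h3 : ∀ᶠ t in 𝓝 (0 : ℝ), WW φ d t = rp (fun i => ρ i t)) (i : Fin d) :
    Tendsto (fun t => (ρ i t - ζ i) / t ^ m) (𝓝[≠] 0) (𝓝 (PowerSeries.coeff m φ * eta m ζ i)) := by
  have hζi := Her_injective one_pos hζ
  have hH' : (Her d (1 : ℝ)).derivative.eval (ζ i) ≠ 0 := by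
    rw [hζ]
    exact eval_derivative_rp_ne_zero hζi i
  -- numerator
  have hnum : Tendsto (fun t : ℝ => (WW φ d t).eval (ζ i) / t ^ m) (𝓝[≠] 0)
      (𝓝 (PowerSeries.coeff m φ * (derivative^[m] (Her d (1 : ℝ))).eval (ζ i))) := by
    have hcont : Continuous (fun t : ℝ => ∑ k ∈ range (d + 1),
        (if k < m then 0 else t ^ (k - m) * PowerSeries.coeff k φ) *
          (derivative^[k] (Her d (1 : ℝ))).eval (ζ i)) := by
      apply continuous_finsetSum
      intro k _
      split_ifs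
      · exact continuous_const
      · fun_prop
    have hval : (∑ k ∈ range (d + 1),
        (if k < m then 0 else (0 : ℝ) ^ (k - m) * PowerSeries.coeff k φ) *
          (derivative^[k] (Her d (1 : ℝ))).eval (ζ i)) =
        PowerSeries.coeff m φ * (derivative^[m] (Her d (1 : ℝ))).eval (ζ i) := by
      rw [sum_eq_single m]
      · simp
      · intro k _ hk
        split_ifs with h
        · ring
        · rw [zero_pow (by omega)]
          ring
      · intro h
        exact absurd (mem_range.mpr (by omega)) h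
    have h5 := hcont.tendsto 0
    rw [hval] at h5
    apply (h5.mono_left nhdsWithin_le_nhds).congr'
    filter_upwards [self_mem_nhdsWithin] with t ht
    have ht : t ≠ 0 := ht
    rw [WW_eq_sum, eval_finsetSum, sum_div]
    apply sum_congr rfl
    intro k _
    rw [eval_smul, smul_eq_mul]
    split_ifs with h
    · rcases Nat.eq_zero_or_pos k with rfl | hk
      · have : (Her d (1 : ℝ)).eval (ζ i) = 0 := by rw [hζ]; exact eval_rp_self ζ i
        simp [this]
      · rw [hlow k hk h]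
        simp
    · have : t ^ k = t ^ (k - m) * t ^ m := by
        rw [← pow_add]
        congr 1
        omega
      rw [this]
      field_simp
  -- denominator
  have hden : Tendsto (fun t : ℝ => ∏ j ∈ univ.erase i, (ζ i - ρ j t)) (𝓝[≠] 0)
      (𝓝 ((Her d (1 : ℝ)).derivative.eval (ζ i))) := by
    have h5 : (Her d (1 : ℝ)).derivative.eval (ζ i) = ∏ j ∈ univ.erase i, (ζ i - ρ j 0) := by
      rw [hζ, eval_derivative_rp_self]
      apply prod_congr rfl
      intro j _
      rw [h1]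
    rw [h5]
    apply Tendsto.mono_left _ nhdsWithin_le_nhds
    apply tendsto_finsetProd
    intro j _
    exact (h2 j).tendsto.const_sub _
  have h6 := (hnum.neg).div hden hH'
  have e : PowerSeries.coeff m φ * eta m ζ i =
      -(PowerSeries.coeff m φ * (derivative^[m] (Her d (1 : ℝ))).eval (ζ i)) /
        (Her d (1 : ℝ)).derivative.eval (ζ i) := by
    unfold eta
    ring
  rw [e]
  apply h6.congr'
  filter_upwards [self_mem_nhdsWithin, h3.filter_mono nhdsWithin_le_nhds,
    hden.eventually_ne hH'] with t ht h7 h8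
  have ht : t ≠ 0 := ht
  rw [Pi.div_apply, h7, eval_rp, ← mul_prod_erase univ _ (mem_univ i)]
  field_simp
  ring

lemma coeff_WW_eq {φ : PowerSeries ℝ} {m : ℕ} (h0 : PowerSeries.coeff 0 φ = 1)
    (hlow : ∀ k, 0 < k → k < m → PowerSeries.coeff k φ = 0) (t : ℝ) {k : ℕ} (hk : k < m)
    (hkd : k ≤ d) : (WW φ d t).coeff (d - k) = (Her d (1 : ℝ)).coeff (d - k) := by
  unfold WW Her
  rw [coeff_pol d _ hkd, coeff_pol d _ hkd, PowerSeries.coeff_mul]
  congr 1
  rw [sum_eq_single (k, 0)]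
  · rw [PowerSeries.coeff_rescale, h0]
    simp
  · rintro ⟨i, j⟩ hij hne
    have := HasAntidiagonal.mem_antidiagonal.mp hij
    simp only at this
    have hj : 0 < j := by
      rcases Nat.eq_zero_or_pos j with rfl | h
      · exfalso
        apply hne
        rw [Prod.mk.injEq]
        omega
      · exact h
    rw [PowerSeries.coeff_rescale, hlow j hj (by omega)]
    ring
  · intro h
    exact absurd (HasAntidiagonal.mem_antidiagonal.mpr (by simp)) h

/-- The constant in the expansion. -/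
noncomputable def alpha (m : ℕ) (ζ : Fin d → ℝ) : ℝ :=
  (∑ i, eta m ζ i ^ 2 + ∑ i, ∑ j ∈ univ.erase i, ((eta m ζ i - eta m ζ j) / (ζ i - ζ j)) ^ 2) / 2

lemma alpha_pos {m : ℕ} (hmd : m ≤ d) (hm : 1 ≤ m) {ζ : Fin d → ℝ}
    (hζ : Her d (1 : ℝ) = rp ζ) : 0 < alpha m ζ := by
  have hζi := Her_injective one_pos hζ
  unfold alpha
  have h1 : 0 ≤ ∑ i, ∑ j ∈ univ.erase i, ((eta m ζ i - eta m ζ j) / (ζ i - ζ j)) ^ 2 :=
    sum_nonneg (fun i _ => sum_nonneg (fun j _ => sq_nonneg _))
  have h2 : 0 < ∑ i, eta m ζ i ^ 2 := by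
    apply lt_of_le_of_ne (sum_nonneg (fun i _ => sq_nonneg _))
    intro hcon
    have h3 : ∀ i, eta m ζ i = 0 := by
      intro i
      have := (sum_eq_zero_iff_of_nonneg (fun i _ => sq_nonneg (eta m ζ i))).mp hcon.symm i
        (mem_univ i)
      exact pow_eq_zero_iff (two_ne_zero) |>.mp this
    have h4 : ∀ i, (derivative^[m] (Her d (1 : ℝ))).eval (ζ i) = 0 := by
      intro i
      have h5 := h3 i
      unfold eta at h5
      have h6 : (Her d (1 : ℝ)).derivative.eval (ζ i) ≠ 0 := by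
        rw [hζ]
        exact eval_derivative_rp_ne_zero hζi i
      rw [div_eq_zero_iff] at h5
      rcases h5 with h5 | h5
      · linarith
      · exact absurd h5 h6
    have h5 : derivative^[m] (Her d (1 : ℝ)) = 0 := by
      apply eq_zero_of_natDegree_lt_card_of_eval_eq_zero _ hζi h4
      rw [Fintype.card_fin]
      refine lt_of_le_of_lt (natDegree_iterate_derivative _ _) ?_
      rw [natDegree_Her]
      omega
    have h6 := congrArg (fun p => p.coeff (d - m)) h5
    simp only [coeff_zero] at h6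
    rw [coeff_iterate_derivative, Nat.sub_add_cancel hmd, coeff_Her_top, nsmul_eq_mul,
      mul_one] at h6
    exact absurd h6 (descFactorial_ne_zero hmd)
  linarith

/-- **Second order expansion of the logarithmic discriminant.** -/
theorem tendsto_lD_second {φ : PowerSeries ℝ} {m : ℕ} (hm : 3 ≤ m) (hmd : m ≤ d)
    (h0 : PowerSeries.coeff 0 φ = 1)
    (hlow : ∀ k, 0 < k → k < m → PowerSeries.coeff k φ = 0) {ζ : Fin d → ℝ}
    (hζ : Her d (1 : ℝ) = rp ζ) :
    Tendsto (fun t => (lD (WW φ d t) - lD (Her d (1 : ℝ))) / (t ^ m) ^ 2) (𝓝[≠] 0)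
      (𝓝 (-(alpha m ζ * PowerSeries.coeff m φ ^ 2))) := by
  have hζi := Her_injective one_pos hζ
  obtain ⟨ρ, h1, h2, h3⟩ := exists_WW_curves h0 hζ
  have hdisp := fun i => tendsto_displacement (by omega) hmd h0 hlow hζ h1 h2 h3 i
  set c := PowerSeries.coeff m φ with hc
  set g : ℝ → ℝ := fun t => t ^ m with hg
  have hg0 : Tendsto g (𝓝[≠] 0) (𝓝 0) := by
    have : Tendsto g (𝓝 0) (𝓝 (0 ^ m)) := (continuous_pow m).tendsto 0
    rw [zero_pow (by omega)] at this
    exact this.mono_left nhdsWithin_le_nhds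
  have hgne : ∀ᶠ t in 𝓝[≠] (0 : ℝ), g t ≠ 0 := by
    filter_upwards [self_mem_nhdsWithin] with t ht
    exact pow_ne_zero _ ht
  -- the relative displacements
  set u : Fin d → Fin d → ℝ → ℝ := fun i j t => ((ρ i t - ζ i) - (ρ j t - ζ j)) / (ζ i - ζ j)
    with hu
  have hulim : ∀ i j, Tendsto (fun t => u i j t / g t) (𝓝[≠] 0)
      (𝓝 (c * ((eta m ζ i - eta m ζ j) / (ζ i - ζ j)))) := by
    intro i j
    have h4 := ((hdisp i).sub (hdisp j)).div_const (ζ i - ζ j)
    have e : c * ((eta m ζ i - eta m ζ j) / (ζ i - ζ j)) =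
      (c * eta m ζ i - c * eta m ζ j) / (ζ i - ζ j) := by ring
    rw [e]
    apply h4.congr
    intro t
    simp only [hu, hg]
    ring
  have hlog : ∀ i j, Tendsto (fun t => (Real.log (1 + u i j t) - u i j t) / (g t) ^ 2) (𝓝[≠] 0)
      (𝓝 (-((c * ((eta m ζ i - eta m ζ j) / (ζ i - ζ j))) ^ 2) / 2)) := fun i j =>
    log_asymp hgne hg0 (hulim i j)
  -- the sum of the logarithmic parts
  have hA : Tendsto (fun t => ∑ i, ∑ j ∈ univ.erase i,
      (Real.log (1 + u i j t) - u i j t) / (g t) ^ 2) (𝓝[≠] 0)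
      (𝓝 (∑ i, ∑ j ∈ univ.erase i,
        (-((c * ((eta m ζ i - eta m ζ j) / (ζ i - ζ j))) ^ 2) / 2))) := by
    apply tendsto_finsetSum
    intro i _
    apply tendsto_finsetSum
    intro j _
    exact hlog i j
  -- the sum of squares of displacements
  have hB : Tendsto (fun t => ∑ i, ((ρ i t - ζ i) / g t) ^ 2) (𝓝[≠] 0)
      (𝓝 (∑ i, (c * eta m ζ i) ^ 2)) := by
    apply tendsto_finsetSum
    intro i _
    exact (hdisp i).pow 2
  have hC := hA.sub (hB.div_const 2)
  have elim : (∑ i, ∑ j ∈ univ.erase i,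
        (-((c * ((eta m ζ i - eta m ζ j) / (ζ i - ζ j))) ^ 2) / 2)) -
        (∑ i, (c * eta m ζ i) ^ 2) / 2 = -(alpha m ζ * c ^ 2) := by
    have e1 : (∑ i, ∑ j ∈ univ.erase i,
        (-((c * ((eta m ζ i - eta m ζ j) / (ζ i - ζ j))) ^ 2) / 2)) =
        (∑ i, ∑ j ∈ univ.erase i, ((eta m ζ i - eta m ζ j) / (ζ i - ζ j)) ^ 2) *
          (-(c ^ 2) / 2) := by
      rw [sum_mul]
      apply sum_congr rfl
      intro i _
      rw [sum_mul]
      apply sum_congr rfl
      intro j _
      ring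
    have e2 : ∑ i, (c * eta m ζ i) ^ 2 = c ^ 2 * ∑ i, eta m ζ i ^ 2 := by
      rw [mul_sum]
      apply sum_congr rfl
      intro i _
      ring
    rw [e1, e2]
    unfold alpha
    ring
  rw [elim] at hC
  apply hC.congr'
  filter_upwards [self_mem_nhdsWithin, h3.filter_mono nhdsWithin_le_nhds,
    (eventually_injective h1 hζi h2).filter_mono nhdsWithin_le_nhds] with t ht h4 h5
  have ht : t ≠ 0 := ht
  have hgt : g t ≠ 0 := pow_ne_zero _ ht
  -- difference of logarithmic discriminants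
  have e1 : LD (fun i => ρ i t) - LD ζ = ∑ i, ∑ j ∈ univ.erase i, Real.log (1 + u i j t) := by
    unfold LD
    rw [← sum_sub_distrib]
    apply sum_congr rfl
    intro i _
    rw [← sum_sub_distrib]
    apply sum_congr rfl
    intro j hj
    have hne : i ≠ j := (mem_erase.mp hj).1.symm
    have n1 : ζ i - ζ j ≠ 0 := sub_ne_zero.mpr (fun h => hne (hζi h))
    have n2 : ρ i t - ρ j t ≠ 0 := sub_ne_zero.mpr (fun h => hne (h5 h))
    rw [← Real.log_div n2 n1]
    congr 1
    simp only [hu]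
    field_simp
    ring
  -- the linear part
  have e2 : ∑ i, ∑ j ∈ univ.erase i, u i j t = ∑ i, (ρ i t - ζ i) * ζ i := by
    have e3 : ∑ i, ∑ j ∈ univ.erase i, u i j t =
        ∑ i, ∑ j ∈ univ.erase i, (ρ i t - ζ i) / (ζ i - ζ j) -
          ∑ i, ∑ j ∈ univ.erase i, (ρ j t - ζ j) / (ζ i - ζ j) := by
      rw [← sum_sub_distrib]
      apply sum_congr rfl
      intro i _
      rw [← sum_sub_distrib]
      apply sum_congr rfl
      intro j _
      simp only [hu]
      rw [sub_div]
    have e4 : ∀ f : Fin d → Fin d → ℝ, ∑ i, ∑ j ∈ univ.erase i, f i j =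
        ∑ i, ∑ j ∈ univ.erase i, f j i := by
      intro f
      apply sum_comm'
      intro i j
      simp only [mem_univ, mem_erase, ne_eq, and_true, true_and]
      exact ⟨fun h => fun h' => h h'.symm, fun h => fun h' => h h'.symm⟩
    have e5 : ∑ i, ∑ j ∈ univ.erase i, (ρ i t - ζ i) / (ζ i - ζ j) =
        ∑ i, (ρ i t - ζ i) * J ζ i := by
      apply sum_congr rfl
      intro i _
      rw [J, mul_sum]
      apply sum_congr rfl
      intro j _
      rw [mul_one_div]
    have e6 : ∑ i, ∑ j ∈ univ.erase i, (ρ j t - ζ j) / (ζ i - ζ j) =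
        -∑ i, (ρ i t - ζ i) * J ζ i := by
      rw [e4, ← e5, ← sum_neg_distrib]
      apply sum_congr rfl
      intro i _
      rw [← sum_neg_distrib]
      apply sum_congr rfl
      intro j _
      rw [← neg_sub (ζ i) (ζ j), div_neg]
    rw [e3, e5, e6, sub_neg_eq_add, ← sum_add_distrib]
    apply sum_congr rfl
    intro i _
    rw [J_Her one_pos hζ i]
    ring
  -- the sum of squares is preserved
  have e7 : ∑ i, (ρ i t) ^ 2 = ∑ i, ζ i ^ 2 := by
    have c1 := coeff_WW_eq (d := d) h0 hlow t (k := 1) (by omega) (by omega)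
    have c2 := coeff_WW_eq (d := d) h0 hlow t (k := 2) (by omega) (by omega)
    rw [h4, hζ, coeff_rp_one _ (by omega), coeff_rp_one _ (by omega)] at c1
    rw [h4, hζ] at c2
    have c3 := coeff_rp_two (fun i => ρ i t) (by omega : 2 ≤ d)
    have c4 := coeff_rp_two ζ (by omega : 2 ≤ d)
    rw [c2, c4, neg_inj.mp c1] at c3
    linarith
  have e8 : ∑ i, (ρ i t - ζ i) * ζ i = -(∑ i, (ρ i t - ζ i) ^ 2) / 2 := by
    have : ∑ i, (ρ i t) ^ 2 = ∑ i, ζ i ^ 2 + 2 * ∑ i, (ρ i t - ζ i) * ζ i +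
        ∑ i, (ρ i t - ζ i) ^ 2 := by
      rw [mul_sum, ← sum_add_distrib, ← sum_add_distrib]
      apply sum_congr rfl
      intro i _
      ring
    linarith
  rw [h4, lD_rp h5, hζ, lD_rp hζi, e1]
  have e9 : ∑ i, ((ρ i t - ζ i) / g t) ^ 2 = (∑ i, (ρ i t - ζ i) ^ 2) / (g t) ^ 2 := by
    rw [sum_div]
    apply sum_congr rfl
    intro i _
    rw [div_pow]
  have e10 : ∑ i, ∑ j ∈ univ.erase i, (Real.log (1 + u i j t) - u i j t) / (g t) ^ 2 =
      ((∑ i, ∑ j ∈ univ.erase i, Real.log (1 + u i j t)) -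
        ∑ i, ∑ j ∈ univ.erase i, u i j t) / (g t) ^ 2 := by
    rw [← sum_sub_distrib, sum_div]
    apply sum_congr rfl
    intro i _
    rw [← sum_sub_distrib, sum_div]
  rw [e9, e10, e2, e8]
  ring

end Pool.Agent.Lib_helper19.FF
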