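import Mathlib

set_option autoImplicit false

/-!
# Finite free convolution, discriminants, generalized Hermite polynomials: the definitions
-/

open Polynomial Finset

namespace Pool.Agent.Lib_helper19.FF.Defs

/-- The monic polynomial `∏ (x - r_i)` with root vector `r`. -/
noncomputable def rootPoly {d : ℕ} (r : Fin d → ℝ) : ℝ[X] := ∏ i, (X - C (r i))

/-- The number `a_i` for which `p = ∑ (-1)^i a_i x^(d-i)` (for `p` of degree at most `d`). -/
noncomputable def signedCoeff (d : ℕ) (p : ℝ[X]) (i : ℕ) : ℝ := (-1) ^ i * p.coeff (d - i)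

/-- The finite free additive convolution
`∑_i (-1)^i x^(d-i) ∑_{j+k=i} (d-j)! (d-k)! / (d! (d-i)!) a_j b_k`. -/
noncomputable def ffConv (d : ℕ) (p q : ℝ[X]) : ℝ[X] :=
  ∑ i ∈ range (d + 1), C ((-1) ^ i * ∑ jk ∈ antidiagonal i,
    ((Nat.factorial (d - jk.1) * Nat.factorial (d - jk.2) : ℝ) /
      (Nat.factorial d * Nat.factorial (d - i) : ℝ)) *
      (signedCoeff d p jk.1 * signedCoeff d q jk.2)) * X ^ (d - i)

/-- The discriminant `∏_{i<j} (r_i - r_j)^2` of the polynomial with root vector `r`. -/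
def Dis {d : ℕ} (r : Fin d → ℝ) : ℝ := ∏ i, ∏ j ∈ Ioi i, (r i - r j) ^ 2

/-- `exp(2h) = Dis^(1/N)` with `N = d.choose 2`. -/
noncomputable def entropyPower {d : ℕ} (r : Fin d → ℝ) : ℝ := Dis r ^ (1 / (d.choose 2 : ℝ))

/-- The operator `-μ D - v/(2(d-1)) D²`. -/
noncomputable def hermiteOp (d : ℕ) (μ v : ℝ) (f : ℝ[X]) : ℝ[X] :=
  C (-μ) * derivative f - C (v / (2 * (d - 1))) * derivative (derivative f)

/-- The generalized Hermite polynomial `exp(-μ D - v/(2(d-1)) D²) x^d`; the terms `k > d` of the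
exponential series vanish, because the operator lowers the degree. -/
noncomputable def genHermite (d : ℕ) (μ v : ℝ) : ℝ[X] :=
  ∑ k ∈ range (d + 1), C (1 / (Nat.factorial k : ℝ)) * (hermiteOp d μ v)^[k] (X ^ d)

end Pool.Agent.Lib_helper19.FF.Defs
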