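import Mathlib
import Pool.Agent.Lib_helper19.FF.Basic
import Pool.Agent.Lib_helper19.FF.RealRooted
import Pool.Agent.Lib_helper19.FF.Key
import Pool.Agent.Lib_helper19.FF.Stam
import Pool.Agent.Lib_helper19.FF.Heat
import Pool.Agent.Lib_helper19.FF.Flow

set_option autoImplicit false

/-!
# The finite free entropy power inequality
-/

open Polynomial Finset Filter
open scoped Topology

namespace Pool.Agent.Lib_helper19.FF

variable {d : ℕ}

/-- The entropy deficit along the flow. -/
noncomputable def Phi (a b : ℝ) (x y z : Fin d → ℝ) (s : ℝ) : ℝ :=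
  lD (act (heat s) (rp z)) - a * lD (act (heat (a * s)) (rp x)) -
    b * lD (act (heat (b * s)) (rp y))

lemma conv_flow {x y z : Fin d → ℝ} (h : conv d (rp x) (rp y) = rp z) {a b : ℝ} (hab : a + b = 1)
    (s : ℝ) : conv d (act (heat (a * s)) (rp x)) (act (heat (b * s)) (rp y)) =
      act (heat s) (rp z) := by
  rw [conv_act_right, conv_act_left (natDegree_rp x).le (natDegree_rp y).le, h, ← mul_act,
    heat_mul]
  congr 2
  rw [← add_mul, add_comm b a, hab, one_mul]

lemma hasDerivAt_Phi (hd : 2 ≤ d) {x y z : Fin d → ℝ} (hx : Function.Injective x)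
    (hy : Function.Injective y) (hz : Function.Injective z) (h : conv d (rp x) (rp y) = rp z)
    {a b : ℝ} (ha : 0 < a) (hb : 0 < b) (hab : a + b = 1) {s : ℝ} (hs : 0 ≤ s) :
    ∃ D ≤ 0, HasDerivAt (Phi a b x y z) D s := by
  obtain ⟨ξ, hξ⟩ := exists_act_heat x (mul_nonneg ha.le hs)
  obtain ⟨η, hη⟩ := exists_act_heat y (mul_nonneg hb.le hs)
  obtain ⟨ζ, hζ⟩ := exists_act_heat z hs
  have hd1 : 1 ≤ d := by omega
  have iξ := act_heat_injective hd1 hx (mul_nonneg ha.le hs) hξ
  have iη := act_heat_injective hd1 hy (mul_nonneg hb.le hs) hη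
  have iζ := act_heat_injective hd1 hz hs hζ
  have hc : conv d (rp ξ) (rp η) = rp ζ := by
    rw [← hξ, ← hη, ← hζ]
    exact conv_flow h hab s
  have hst := stam hd iξ iη iζ hc hab
  refine ⟨2 * ∑ i, J ζ i ^ 2 - a * (a * (2 * ∑ i, J ξ i ^ 2)) - b * (b * (2 * ∑ i, J η i ^ 2)),
    ?_, ?_⟩
  · nlinarith
  · unfold Phi
    have h1 := hasDerivAt_lD hζ iζ
    have h2 := hasDerivAt_lD hξ iξ
    have h3 := hasDerivAt_lD hη iη
    have hm : ∀ c : ℝ, HasDerivAt (fun s : ℝ => c * s) c s := by
      intro c
      simpa using! (hasDerivAt_id s).const_mul c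
    have h4 := h2.comp s (hm a)
    have h5 := h3.comp s (hm b)
    have h6 := (h1.sub (h4.const_mul a)).sub (h5.const_mul b)
    convert! h6 using 1
    ring

lemma antitoneOn_Phi (hd : 2 ≤ d) {x y z : Fin d → ℝ} (hx : Function.Injective x)
    (hy : Function.Injective y) (hz : Function.Injective z) (h : conv d (rp x) (rp y) = rp z)
    {a b : ℝ} (ha : 0 < a) (hb : 0 < b) (hab : a + b = 1) :
    AntitoneOn (Phi a b x y z) (Set.Ici 0) := by
  apply antitoneOn_of_deriv_nonpos (convex_Ici 0)
  · intro s hs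
    obtain ⟨D, -, hD⟩ := hasDerivAt_Phi hd hx hy hz h ha hb hab (s := s) hs
    exact hD.continuousAt.continuousWithinAt
  · intro s hs
    rw [interior_Ici] at hs
    obtain ⟨D, -, hD⟩ := hasDerivAt_Phi hd hx hy hz h ha hb hab (s := s) (le_of_lt hs)
    exact hD.differentiableAt.differentiableWithinAt
  · intro s hs
    rw [interior_Ici] at hs
    obtain ⟨D, hD0, hD⟩ := hasDerivAt_Phi hd hx hy hz h ha hb hab (s := s) (le_of_lt hs)
    rw [hD.deriv]
    exact hD0

lemma tendsto_Phi (hd : 2 ≤ d) (x y z : Fin d → ℝ) {a b : ℝ} (ha : 0 < a) (hb : 0 < b)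
    (hab : a + b = 1) : Tendsto (Phi a b x y z) atTop
      (𝓝 (-(d * (d - 1) / 2 : ℝ) * (a * Real.log a + b * Real.log b))) := by
  have hd1 : 1 ≤ d := by omega
  have h1 := tendsto_lD_act_heat hd1 z
  have h2 := (tendsto_lD_act_heat hd1 x).comp (tendsto_id.const_mul_atTop ha)
  have h3 := (tendsto_lD_act_heat hd1 y).comp (tendsto_id.const_mul_atTop hb)
  have h4 := ((h1.sub (h2.const_mul a)).sub (h3.const_mul b)).add_const
    (-(d * (d - 1) / 2 : ℝ) * (a * Real.log a + b * Real.log b))
  have e : lD (Her d (1 : ℝ)) - a * lD (Her d (1 : ℝ)) - b * lD (Her d (1 : ℝ)) = 0 := by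
    have : b = 1 - a := by linarith
    rw [this]; ring
  rw [e, zero_add] at h4
  apply h4.congr'
  filter_upwards [eventually_gt_atTop 0] with s hs
  simp only [Function.comp_apply, id_eq]
  unfold Phi
  rw [Real.log_mul ha.ne' hs.ne', Real.log_mul hb.ne' hs.ne']
  have : b = 1 - a := by linarith
  rw [this]
  ring

/-- **The entropy power inequality in Lieb's form.** -/
theorem lieb (hd : 2 ≤ d) {x y z : Fin d → ℝ} (hx : Function.Injective x)
    (hy : Function.Injective y) (hz : Function.Injective z) (h : conv d (rp x) (rp y) = rp z)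
    {a b : ℝ} (ha : 0 < a) (hb : 0 < b) (hab : a + b = 1) {s : ℝ} (hs : 0 ≤ s) :
    -(d * (d - 1) / 2 : ℝ) * (a * Real.log a + b * Real.log b) ≤ Phi a b x y z s := by
  apply le_of_tendsto (tendsto_Phi hd x y z ha hb hab)
  filter_upwards [eventually_ge_atTop s] with t ht
  exact antitoneOn_Phi hd hx hy hz h ha hb hab hs (hs.trans ht : (0 : ℝ) ≤ t) ht

lemma Phi_zero (a b : ℝ) {x y z : Fin d → ℝ} (hx : Function.Injective x)
    (hy : Function.Injective y) (hz : Function.Injective z) :
    Phi a b x y z 0 = LD z - a * LD x - b * LD y := by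
  unfold Phi
  rw [mul_zero, mul_zero, heat_zero, one_act, one_act, one_act, lD_rp hx, lD_rp hy, lD_rp hz]

/-- If the inequality is an equality at time `0` then it is one for all times. -/
lemma Phi_eq_of_eq (hd : 2 ≤ d) {x y z : Fin d → ℝ} (hx : Function.Injective x)
    (hy : Function.Injective y) (hz : Function.Injective z) (h : conv d (rp x) (rp y) = rp z)
    {a b : ℝ} (ha : 0 < a) (hb : 0 < b) (hab : a + b = 1)
    (heq : Phi a b x y z 0 = -(d * (d - 1) / 2 : ℝ) * (a * Real.log a + b * Real.log b))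
    {s : ℝ} (hs : 0 ≤ s) :
    Phi a b x y z s = -(d * (d - 1) / 2 : ℝ) * (a * Real.log a + b * Real.log b) := by
  apply le_antisymm
  · rw [← heq]
    exact antitoneOn_Phi hd hx hy hz h ha hb hab (Set.self_mem_Ici) hs hs
  · exact lieb hd hx hy hz h ha hb hab hs

/-! ### The discriminant -/

/-- The discriminant as a function of the root vector. -/
def disc (x : Fin d → ℝ) : ℝ := ∏ i, ∏ j ∈ Ioi i, (x i - x j) ^ 2

lemma disc_nonneg (x : Fin d → ℝ) : 0 ≤ disc x :=
  prod_nonneg (fun _ _ => prod_nonneg (fun _ _ => sq_nonneg _))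

lemma disc_pos {x : Fin d → ℝ} (hx : Function.Injective x) : 0 < disc x := by
  apply prod_pos
  intro i _
  apply prod_pos
  intro j hj
  have h1 : x i - x j ≠ 0 := by
    rw [sub_ne_zero]
    intro h
    exact (mem_Ioi.mp hj).ne (hx h)
  positivity

lemma injective_of_disc_pos {x : Fin d → ℝ} (h : 0 < disc x) : Function.Injective x := by
  intro i j hij
  by_contra hne
  have key : ∀ i j : Fin d, i < j → x i = x j → disc x = 0 := by
    intro i j hlt hij
    unfold disc
    apply prod_eq_zero (mem_univ i)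
    apply prod_eq_zero (mem_Ioi.mpr hlt)
    rw [hij]; ring
  rcases lt_or_gt_of_ne hne with h1 | h1
  · rw [key i j h1 hij] at h; exact lt_irrefl _ h
  · rw [key j i h1 hij.symm] at h; exact lt_irrefl _ h

lemma log_disc {x : Fin d → ℝ} (hx : Function.Injective x) : Real.log (disc x) = LD x := by
  have hne : ∀ i j, i ≠ j → x i - x j ≠ 0 := fun i j hij => sub_ne_zero.mpr (fun h => hij (hx h))
  unfold disc LD
  rw [Real.log_prod]
  · have h1 : ∀ i, Real.log (∏ j ∈ Ioi i, (x i - x j) ^ 2) =
        ∑ j ∈ Ioi i, Real.log (x i - x j) + ∑ j ∈ Ioi i, Real.log (x j - x i) := by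
      intro i
      rw [Real.log_prod, ← sum_add_distrib]
      · apply sum_congr rfl
        intro j _
        rw [Real.log_pow, ← neg_sub (x i) (x j), Real.log_neg_eq_log]
        push_cast
        ring
      · intro j hj
        have := hne i j (mem_Ioi.mp hj).ne
        positivity
    simp only [h1]
    rw [sum_add_distrib]
    have h2 : ∑ i : Fin d, ∑ j ∈ Ioi i, Real.log (x j - x i) =
        ∑ i : Fin d, ∑ j ∈ Iio i, Real.log (x i - x j) := by
      apply sum_comm'
      intro i j
      simp
    rw [h2, ← sum_add_distrib]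
    apply sum_congr rfl
    intro i _
    rw [← sum_union]
    · apply sum_congr _ (fun _ _ => rfl)
      ext j
      simp only [mem_union, mem_Ioi, mem_Iio, mem_erase, mem_univ, and_true]
      constructor
      · rintro (h | h)
        · exact h.ne'
        · exact h.ne
      · intro h
        rcases lt_or_gt_of_ne h with h | h
        · exact Or.inr h
        · exact Or.inl h
    · rw [disjoint_left]
      intro j h1 h2
      exact absurd (mem_Ioi.mp h1) (not_lt.mpr (mem_Iio.mp h2).le)
  · intro i _
    rw [prod_ne_zero_iff]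
    intro j hj
    have := hne i j (mem_Ioi.mp hj).ne
    positivity

lemma choose_two_real (d : ℕ) : ((d.choose 2 : ℕ) : ℝ) = (d * (d - 1) / 2 : ℝ) := by
  rw [Nat.cast_choose_two]

/-- The `N`-th root of the discriminant. -/
noncomputable def power (x : Fin d → ℝ) : ℝ := disc x ^ (1 / (d.choose 2 : ℝ))

lemma power_nonneg (x : Fin d → ℝ) : 0 ≤ power x := Real.rpow_nonneg (disc_nonneg x) _

lemma power_pos {x : Fin d → ℝ} (hx : Function.Injective x) : 0 < power x :=
  Real.rpow_pos_of_pos (disc_pos hx) _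

lemma log_power (hd : 2 ≤ d) {x : Fin d → ℝ} (hx : Function.Injective x) :
    (d * (d - 1) / 2 : ℝ) * Real.log (power x) = LD x := by
  have h0 : (0 : ℝ) < d.choose 2 := by exact_mod_cast Nat.choose_pos hd
  unfold power
  rw [Real.log_rpow (disc_pos hx), log_disc hx, ← choose_two_real]
  field_simp

/-- The entropy power inequality for simple roots. -/
theorem epi_simple (hd : 2 ≤ d) {x y z : Fin d → ℝ} (hx : Function.Injective x)
    (hy : Function.Injective y) (hz : Function.Injective z) (h : conv d (rp x) (rp y) = rp z) :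
    power x + power y ≤ power z := by
  have h0 : (0 : ℝ) < (d * (d - 1) / 2 : ℝ) := by
    rw [← choose_two_real]
    exact_mod_cast Nat.choose_pos hd
  set P := power x with hP
  set Q := power y with hQ
  have hP0 : 0 < P := power_pos hx
  have hQ0 : 0 < Q := power_pos hy
  have hab : P / (P + Q) + Q / (P + Q) = 1 := by field_simp
  have h1 := lieb hd hx hy hz h (a := P / (P + Q)) (b := Q / (P + Q)) (by positivity)
    (by positivity) hab le_rfl
  rw [Phi_zero _ _ hx hy hz, ← log_power hd hx, ← log_power hd hy, ← log_power hd hz, ← hP, ← hQ,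
    Real.log_div hP0.ne' (by positivity), Real.log_div hQ0.ne' (by positivity)] at h1
  have h2 : (d * (d - 1) / 2 : ℝ) * Real.log (P + Q) ≤
      (d * (d - 1) / 2 : ℝ) * Real.log (power z) := by
    have e : Real.log (P + Q) = (P / (P + Q) + Q / (P + Q)) * Real.log (P + Q) := by
      rw [hab, one_mul]
    rw [e]
    linarith
  have h3 : Real.log (P + Q) ≤ Real.log (power z) := le_of_mul_le_mul_left h2 h0
  exact (Real.log_le_log_iff (by positivity) (power_pos hz)).mp h3

end Pool.Agent.Lib_helper19.FF
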