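import Mathlib
import Pool.Agent.Lib_helper19.FF.Basic
import Pool.Agent.Lib_helper19.FF.RealRooted
import Pool.Agent.Lib_helper19.FF.Key
import Pool.Agent.Lib_helper19.FF.Stam
import Pool.Agent.Lib_helper19.FF.Heat
import Pool.Agent.Lib_helper19.FF.Flow
import Pool.Agent.Lib_helper19.FF.EPI

set_option autoImplicit false

/-!
# The finite free entropy power inequality for arbitrary real roots
-/

open Polynomial Finset Filter
open scoped Topology

namespace Pool.Agent.Lib_helper19.FF

variable {d : ℕ}

lemma power_eq_zero (hd : 2 ≤ d) {x : Fin d → ℝ} (h : disc x = 0) : power x = 0 := by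
  have h0 : (0 : ℝ) < d.choose 2 := by exact_mod_cast Nat.choose_pos hd
  unfold power
  rw [h, Real.zero_rpow]
  positivity

/-- The case in which the first polynomial may have multiple roots. -/
lemma epi_degenerate (hd : 2 ≤ d) {x y z : Fin d → ℝ} (hy : Function.Injective y)
    (h : conv d (rp x) (rp y) = rp z) : power y ≤ power z := by
  have hd1 : 1 ≤ d := by omega
  have hz : Function.Injective z := by
    apply conv_injective hd1 hy (y := x)
    rw [conv_comm (natDegree_rp _).le (natDegree_rp _).le, h]
  have h0 : (0 : ℝ) < (d * (d - 1) / 2 : ℝ) := by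
    rw [← choose_two_real]
    exact_mod_cast Nat.choose_pos hd
  -- continuity of the right side at time zero
  have hcont : Tendsto (fun h : ℝ => lD (act (heat h) (rp z))) (𝓝[>] 0) (𝓝 (LD z)) := by
    have h1 := (hasDerivAt_lD_zero hz).continuousAt.tendsto
    rw [heat_zero, one_act, lD_rp hz] at h1
    exact h1.mono_left nhdsWithin_le_nhds
  have hle : LD y ≤ LD z := by
    apply ge_of_tendsto hcont
    filter_upwards [self_mem_nhdsWithin] with ε hε
    have hε : 0 < ε := hε
    obtain ⟨ξ, hξ⟩ := exists_act_heat x hε.le
    obtain ⟨ζ, hζ⟩ := exists_act_heat z hε.le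
    have iξ := act_heat_injective' hd1 hε hξ
    have iζ := act_heat_injective' hd1 hε hζ
    have hc : conv d (rp ξ) (rp y) = rp ζ := by
      rw [← hξ, ← hζ, conv_act_left (natDegree_rp _).le (natDegree_rp _).le, h]
    have h1 := epi_simple hd iξ hy iζ hc
    have h2 : power y ≤ power ζ := by
      have := power_nonneg ξ
      linarith
    have h3 : Real.log (power y) ≤ Real.log (power ζ) := Real.log_le_log (power_pos hy) h2
    rw [hζ, lD_rp iζ, ← log_power hd hy, ← log_power hd iζ]
    exact mul_le_mul_of_nonneg_left h3 h0.le
  rw [← log_power hd hy, ← log_power hd hz] at hle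
  exact (Real.log_le_log_iff (power_pos hy) (power_pos hz)).mp (le_of_mul_le_mul_left hle h0)

/-- **The entropy power inequality.** -/
theorem epi (hd : 2 ≤ d) {x y z : Fin d → ℝ} (h : conv d (rp x) (rp y) = rp z) :
    power x + power y ≤ power z := by
  have hd1 : 1 ≤ d := by omega
  rcases (disc_nonneg x).eq_or_lt with hx | hx
  · rw [power_eq_zero hd hx.symm, zero_add]
    rcases (disc_nonneg y).eq_or_lt with hy | hy
    · rw [power_eq_zero hd hy.symm]
      exact power_nonneg z
    · exact epi_degenerate hd (injective_of_disc_pos hy) h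
  · have ix := injective_of_disc_pos hx
    rcases (disc_nonneg y).eq_or_lt with hy | hy
    · rw [power_eq_zero hd hy.symm, add_zero]
      apply epi_degenerate hd ix (x := y)
      rw [conv_comm (natDegree_rp _).le (natDegree_rp _).le, h]
    · exact epi_simple hd ix (injective_of_disc_pos hy) (conv_injective hd1 ix h) h

end Pool.Agent.Lib_helper19.FF
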