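import Mathlib
import Pool.Agent.Lib_helper19.FF.Basic
import Pool.Agent.Lib_helper19.FF.RealRooted
import Pool.Agent.Lib_helper19.FF.PermPoly
import Pool.Agent.Lib_helper19.FF.Key
import Pool.Agent.Lib_helper19.FF.Stam
import Pool.Agent.Lib_helper19.FF.Heat
import Pool.Agent.Lib_helper19.FF.Flow
import Pool.Agent.Lib_helper19.FF.EPI
import Pool.Agent.Lib_helper19.FF.General
import Pool.Agent.Lib_helper19.FF.Asym

set_option autoImplicit false

/-!
# The equality case
-/

open Polynomial Finset Filter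
open scoped Topology

namespace Pool.Agent.Lib_helper19.FF

variable {d : ℕ}

lemma lD_pol_heat {ψ : PowerSeries ℝ} {σ : ℝ} (hσ : 0 < σ) {ξ : Fin d → ℝ}
    (hinj : Function.Injective ξ) (hξ : pol d (heat σ * ψ) = rp ξ) :
    lD (pol d (heat σ * ψ)) = lD (WW ψ d (1 / Real.sqrt σ)) +
      (d * (d - 1) / 2 : ℝ) * Real.log σ := by
  have hs : 0 < 1 / Real.sqrt σ := by
    have := Real.sqrt_pos.mpr hσ
    positivity
  have hinj2 : Function.Injective (fun i => (1 / Real.sqrt σ) * ξ i) := by
    intro i j hij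
    exact hinj (mul_left_cancel₀ hs.ne' hij)
  have h0 : rp (fun i => (1 / Real.sqrt σ) * ξ i) = WW ψ d (1 / Real.sqrt σ) := by
    rw [rp_mul_eq_pol]
    unfold WW
    apply pol_congr
    intro k hk
    have h1 : PowerSeries.coeff k (sym d (rp ξ)) = PowerSeries.coeff k (heat σ * ψ) := by
      rw [← hξ, coeff_sym_pol d _ hk]
    have h2 : heat (1 : ℝ) = PowerSeries.rescale (1 / Real.sqrt σ) (heat σ) := by
      rw [rescale_heat, div_pow, Real.sq_sqrt hσ.le]
      congr 1
      field_simp
    rw [h2, ← map_mul, PowerSeries.coeff_rescale, PowerSeries.coeff_rescale, h1]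
  rw [← h0, lD_rp hinj2, LD_mul hinj hs, hξ, lD_rp hinj, one_div,
    Real.log_inv, Real.log_sqrt hσ.le]
  ring

lemma tendsto_ratio {c κ : ℝ} (hc : 0 < c) :
    Tendsto (fun s : ℝ => s / (c * s + κ)) atTop (𝓝 (1 / c)) := by
  have h1 : Tendsto (fun s : ℝ => 1 / (c + κ / s)) atTop (𝓝 (1 / (c + 0))) := by
    have h2 : Tendsto (fun s : ℝ => κ / s) atTop (𝓝 0) := tendsto_id.const_div_atTop κ
    have h3 := (tendsto_const_nhds (x := c)).add h2
    exact (tendsto_const_nhds (x := (1 : ℝ))).div h3 (by rw [add_zero]; exact hc.ne')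
  rw [add_zero] at h1
  apply h1.congr'
  filter_upwards [eventually_gt_atTop 0] with s hs
  have : s * (c + κ / s) = c * s + κ := by field_simp
  rw [← this]
  by_cases h : c + κ / s = 0
  · simp [h]
  · field_simp

lemma tendsto_inv_sqrt {c κ : ℝ} (hc : 0 < c) :
    Tendsto (fun s : ℝ => 1 / Real.sqrt (c * s + κ)) atTop (𝓝[≠] 0) := by
  have h1 : Tendsto (fun s : ℝ => c * s + κ) atTop atTop :=
    tendsto_atTop_add_const_right _ _ (tendsto_id.const_mul_atTop hc)
  apply tendsto_nhdsWithin_of_tendsto_nhds_of_eventually_within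
  · exact tendsto_one_div_sqrt.comp h1
  · filter_upwards [h1.eventually_gt_atTop 0] with s hs
    have := Real.sqrt_pos.mpr hs
    simp only [Set.mem_compl_iff, Set.mem_singleton_iff]
    positivity

lemma tendsto_G {ψ : PowerSeries ℝ} {m : ℕ} (hm : 3 ≤ m) (hmd : m ≤ d)
    (h0 : PowerSeries.coeff 0 ψ = 1)
    (hlow : ∀ k, 0 < k → k < m → PowerSeries.coeff k ψ = 0) {ζ : Fin d → ℝ}
    (hζ : Her d (1 : ℝ) = rp ζ) {c κ : ℝ} (hc : 0 < c) :
    Tendsto (fun s : ℝ => (lD (WW ψ d (1 / Real.sqrt (c * s + κ))) - lD (Her d (1 : ℝ))) * s ^ m)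
      atTop (𝓝 (-(alpha m ζ * PowerSeries.coeff m ψ ^ 2) * (1 / c) ^ m)) := by
  have h1 := (tendsto_lD_second hm hmd h0 hlow hζ).comp (tendsto_inv_sqrt (κ := κ) hc)
  have h2 := h1.mul ((tendsto_ratio (κ := κ) hc).pow m)
  apply h2.congr'
  have h3 : Tendsto (fun s : ℝ => c * s + κ) atTop atTop :=
    tendsto_atTop_add_const_right _ _ (tendsto_id.const_mul_atTop hc)
  filter_upwards [h3.eventually_gt_atTop 0] with s hs
  simp only [Function.comp_apply]
  have h4 : ((1 / Real.sqrt (c * s + κ)) ^ m) ^ 2 = 1 / (c * s + κ) ^ m := by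
    rw [← pow_mul, mul_comm m 2, pow_mul, div_pow, Real.sq_sqrt hs.le, one_pow, div_pow, one_pow]
  rw [h4, div_pow]
  field_simp

lemma tendsto_log_part (u : ℝ) :
    Tendsto (fun s : ℝ => (Real.log (s + u) - Real.log s - u / s) * s ^ 2) atTop
      (𝓝 (-(u ^ 2) / 2)) := by
  have hg0 : Tendsto (fun s : ℝ => 1 / s) atTop (𝓝 0) := tendsto_id.const_div_atTop 1
  have hg : ∀ᶠ s : ℝ in atTop, 1 / s ≠ 0 := by
    filter_upwards [eventually_gt_atTop 0] with s hs
    positivity
  have hu : Tendsto (fun s : ℝ => (u / s) / (1 / s)) atTop (𝓝 u) := by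
    apply (tendsto_const_nhds (x := u)).congr'
    filter_upwards [eventually_gt_atTop 0] with s hs
    field_simp
  have h1 := log_asymp hg hg0 hu
  apply h1.congr'
  filter_upwards [eventually_gt_atTop 0, eventually_gt_atTop (-u)] with s hs hs2
  have h2 : Real.log (s + u) - Real.log s = Real.log (1 + u / s) := by
    rw [← Real.log_div (by linarith) hs.ne']
    congr 1
    field_simp
  rw [h2]
  field_simp

/-- The symbol with the Hermite part removed. -/
noncomputable def kap (d : ℕ) (x : Fin d → ℝ) : ℝ := -2 * PowerSeries.coeff 2 (sym d (rp x))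

noncomputable def psi (x : Fin d → ℝ) : PowerSeries ℝ := heat (-(kap d x)) * sym d (rp x)

lemma sym_eq_heat_mul_psi (x : Fin d → ℝ) : sym d (rp x) = heat (kap d x) * psi x := by
  unfold psi
  rw [← mul_assoc, heat_mul, add_neg_cancel, heat_zero, one_mul]

lemma coeff_psi_zero (x : Fin d → ℝ) : PowerSeries.coeff 0 (psi x) = 1 :=
  coeff_zero_mul (coeff_heat_zero _) (coeff_zero_sym_rp x)

lemma coeff_sym_one (hd : 1 ≤ d) {x : Fin d → ℝ} (hx : ∑ i, x i = 0) :
    PowerSeries.coeff 1 (sym d (rp x)) = 0 := by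
  rw [coeff_sym d _ hd, coeff_rp_one x hd, hx]
  simp

lemma coeff_psi_one (hd : 1 ≤ d) {x : Fin d → ℝ} (hx : ∑ i, x i = 0) :
    PowerSeries.coeff 1 (psi x) = 0 := by
  have h2 : antidiagonal 1 = {(0, 1), (1, 0)} := by decide
  unfold psi
  rw [PowerSeries.coeff_mul, h2, sum_insert (by decide), sum_singleton]
  simp [coeff_sym_one hd hx]

lemma coeff_psi_two (hd : 1 ≤ d) {x : Fin d → ℝ} (hx : ∑ i, x i = 0) :
    PowerSeries.coeff 2 (psi x) = 0 := by
  have h2 : antidiagonal 2 = {(0, 2), (1, 1), (2, 0)} := by decide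
  unfold psi
  rw [PowerSeries.coeff_mul, h2, sum_insert (by decide), sum_insert (by decide), sum_singleton]
  simp only [coeff_heat_zero, coeff_heat_one, coeff_heat_two, coeff_zero_sym_rp]
  unfold kap
  ring

lemma kap_eq (hd : 2 ≤ d) {x : Fin d → ℝ} (hx : ∑ i, x i = 0) :
    kap d x = (∑ i, x i ^ 2) / (d * (d - 1)) := by
  have h1 := coeff_rp_two x hd
  rw [hx] at h1
  unfold kap
  rw [coeff_sym d _ hd]
  have h2 : (d.descFactorial 2 : ℝ) = d * (d - 1) := by
    rw [Nat.descFactorial_succ, Nat.descFactorial_one]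
    rw [Nat.cast_mul, Nat.cast_sub (by omega)]
    push_cast
    ring
  rw [h2]
  have h3 : (rp x).coeff (d - 2) = -(∑ i, x i ^ 2) / 2 := by linarith
  rw [h3]
  ring

lemma kap_nonneg (hd : 2 ≤ d) {x : Fin d → ℝ} (hx : ∑ i, x i = 0) : 0 ≤ kap d x := by
  rw [kap_eq hd hx]
  have h1 : (0 : ℝ) ≤ d := Nat.cast_nonneg d
  have h2 : (0 : ℝ) ≤ d - 1 := by
    have : (2 : ℝ) ≤ d := by exact_mod_cast hd
    linarith
  have h3 : 0 ≤ ∑ i, x i ^ 2 := sum_nonneg (fun i _ => sq_nonneg _)
  positivity

/-- If the Hermite-free part of the symbol is trivial, the polynomial is a Hermite polynomial. -/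
lemma eq_Her_of_psi {x : Fin d → ℝ}
    (h : ∀ k, 0 < k → k ≤ d → PowerSeries.coeff k (psi x) = 0) : rp x = Her d (kap d x) := by
  have h1 : rp x = pol d (heat (kap d x) * psi x) := by
    rw [← sym_eq_heat_mul_psi, pol_sym (natDegree_rp x).le]
  rw [h1]
  unfold Her
  apply pol_congr
  intro k hk
  rw [PowerSeries.coeff_mul, sum_eq_single (k, 0)]
  · rw [coeff_psi_zero, mul_one]
  · rintro ⟨i, j⟩ hij hne
    have := HasAntidiagonal.mem_antidiagonal.mp hij
    simp only at this
    have hj : 0 < j := by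
      rcases Nat.eq_zero_or_pos j with rfl | h
      · exfalso
        apply hne
        rw [Prod.mk.injEq]
        omega
      · exact h
    rw [h j hj (by omega), mul_zero]
  · intro h
    exact absurd (HasAntidiagonal.mem_antidiagonal.mpr (by simp)) h

/-- The final inequality. -/
lemma final_ineq {a b cx cy : ℝ} (ha : 0 < a) (hb : 0 < b) (hab : a + b = 1) {m : ℕ} (hm : 3 ≤ m)
    (h : (cx + cy) ^ 2 = a * (cx ^ 2 * (1 / a) ^ m) + b * (cy ^ 2 * (1 / b) ^ m)) :
    cx = 0 ∧ cy = 0 := by
  have ha1 : a < 1 := by linarith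
  have hb1 : b < 1 := by linarith
  have key : ∀ c t : ℝ, 0 < t → t < 1 → c ^ 2 / t ^ 2 ≤ t * (c ^ 2 * (1 / t) ^ m) := by
    intro c t ht ht1
    have h1 : (1 / t) ^ 3 ≤ (1 / t) ^ m := by
      apply pow_le_pow_right₀ _ hm
      rw [le_div_iff₀ ht]
      linarith
    have h2 : c ^ 2 / t ^ 2 = t * (c ^ 2 * (1 / t) ^ 3) := by
      field_simp
    rw [h2]
    apply mul_le_mul_of_nonneg_left _ ht.le
    exact mul_le_mul_of_nonneg_left h1 (sq_nonneg c)
  have h1 := key cx a ha ha1
  have h2 := key cy b hb hb1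
  set p := cx / a with hp
  set q := cy / b with hq
  have e1 : cx = a * p := by rw [hp]; field_simp
  have e2 : cy = b * q := by rw [hq]; field_simp
  have h3 : cx ^ 2 / a ^ 2 = p ^ 2 := by rw [hp]; ring
  have h4 : cy ^ 2 / b ^ 2 = q ^ 2 := by rw [hq]; ring
  have h5 : p ^ 2 + q ^ 2 ≤ (cx + cy) ^ 2 := by
    rw [h, ← h3, ← h4]
    linarith
  rw [e1, e2] at h5
  have hb' : b = 1 - a := by linarith
  have h6 : p ^ 2 + q ^ 2 - (a * p + b * q) ^ 2 = b * p ^ 2 + a * q ^ 2 + a * b * (p - q) ^ 2 := by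
    rw [hb']
    ring
  have h7 : 0 ≤ a * b * (p - q) ^ 2 := by positivity
  have h8 : 0 ≤ b * p ^ 2 := by positivity
  have h9 : 0 ≤ a * q ^ 2 := by positivity
  have h10 : b * p ^ 2 = 0 := by linarith
  have h11 : a * q ^ 2 = 0 := by linarith
  have h12 : p = 0 := by
    rcases mul_eq_zero.mp h10 with h | h
    · exact absurd h hb.ne'
    · exact pow_eq_zero_iff (two_ne_zero) |>.mp h
  have h13 : q = 0 := by
    rcases mul_eq_zero.mp h11 with h | h
    · exact absurd h ha.ne'
    · exact pow_eq_zero_iff (two_ne_zero) |>.mp h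
  rw [e1, e2, h12, h13]
  simp

/-- Lowest coefficients of a product. -/
lemma coeff_mul_low {φ ψ : PowerSeries ℝ} {m : ℕ} (hm : 1 ≤ m) (hφ : PowerSeries.coeff 0 φ = 1)
    (hψ : PowerSeries.coeff 0 ψ = 1)
    (hφl : ∀ k, 0 < k → k < m → PowerSeries.coeff k φ = 0)
    (hψl : ∀ k, 0 < k → k < m → PowerSeries.coeff k ψ = 0) :
    (∀ k, 0 < k → k < m → PowerSeries.coeff k (φ * ψ) = 0) ∧
      PowerSeries.coeff m (φ * ψ) = PowerSeries.coeff m φ + PowerSeries.coeff m ψ := by
  have key : ∀ k, 0 < k → k ≤ m → PowerSeries.coeff k (φ * ψ) =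
      PowerSeries.coeff k φ + PowerSeries.coeff k ψ := by
    intro k hk hkm
    rw [PowerSeries.coeff_mul]
    have h1 : ∑ x ∈ antidiagonal k, PowerSeries.coeff x.1 φ * PowerSeries.coeff x.2 ψ =
        ∑ x ∈ ({(k, 0), (0, k)} : Finset (ℕ × ℕ)),
          PowerSeries.coeff x.1 φ * PowerSeries.coeff x.2 ψ := by
      symm
      apply sum_subset
      · intro x hx
        simp only [mem_insert, mem_singleton] at hx
        rcases hx with rfl | rfl <;> simp
      · rintro ⟨i, j⟩ hij hne
        have h2 := HasAntidiagonal.mem_antidiagonal.mp hij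
        simp only at h2
        simp only [mem_insert, mem_singleton, Prod.mk.injEq, not_or, not_and] at hne
        have hi : 0 < i := by
          rcases Nat.eq_zero_or_pos i with rfl | h
          · exact absurd (by omega) (hne.2 rfl)
          · exact h
        have hj : 0 < j := by
          rcases Nat.eq_zero_or_pos j with rfl | h
          · exact absurd rfl (hne.1 (by omega))
          · exact h
        simp only
        rw [hφl i hi (by omega), zero_mul]
    rw [h1, sum_pair (by
      intro h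
      rw [Prod.mk.injEq] at h
      omega)]
    simp [hφ, hψ]
  refine ⟨fun k hk hkm => ?_, key m hm le_rfl⟩
  rw [key k hk hkm.le, hφl k hk hkm, hψl k hk hkm, add_zero]

/-- **Equality case for centred polynomials.** -/
theorem equality_centred (hd : 2 ≤ d) {x y z : Fin d → ℝ} (hx : Function.Injective x)
    (hy : Function.Injective y) (hz : Function.Injective z) (h : conv d (rp x) (rp y) = rp z)
    (cx : ∑ i, x i = 0) (cy : ∑ i, y i = 0) (heq : power x + power y = power z) :
    rp x = Her d (kap d x) ∧ rp y = Her d (kap d y) := by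
  have hd1 : 1 ≤ d := by omega
  have hN : (0 : ℝ) < (d * (d - 1) / 2 : ℝ) := by
    rw [← choose_two_real]
    exact_mod_cast Nat.choose_pos hd
  by_contra hcon
  -- the minimal index
  have hex : ∃ k, 0 < k ∧ k ≤ d ∧
      ¬ (PowerSeries.coeff k (psi x) = 0 ∧ PowerSeries.coeff k (psi y) = 0) := by
    by_contra hno
    push Not at hno
    apply hcon
    exact ⟨eq_Her_of_psi (fun k hk hkd => (hno k hk hkd).1),
      eq_Her_of_psi (fun k hk hkd => (hno k hk hkd).2)⟩
  classical
  set m := Nat.find hex with hm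
  obtain ⟨hm0, hmd, hmne⟩ := Nat.find_spec hex
  rw [← hm] at hm0 hmd hmne
  have hlow : ∀ k, 0 < k → k < m → PowerSeries.coeff k (psi x) = 0 ∧
      PowerSeries.coeff k (psi y) = 0 := by
    intro k hk hkm
    by_contra hne
    exact Nat.find_min hex hkm ⟨hk, by omega, hne⟩
  have hm3 : 3 ≤ m := by
    by_contra hlt
    push Not at hlt
    apply hmne
    interval_cases m
    · exact ⟨coeff_psi_one hd1 cx, coeff_psi_one hd1 cy⟩
    · exact ⟨coeff_psi_two hd1 cx, coeff_psi_two hd1 cy⟩
  obtain ⟨hlz, hmz⟩ := coeff_mul_low (m := m) (by omega) (coeff_psi_zero x) (coeff_psi_zero y)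
    (fun k hk hkm => (hlow k hk hkm).1) (fun k hk hkm => (hlow k hk hkm).2)
  have hz0 : PowerSeries.coeff 0 (psi x * psi y) = 1 :=
    coeff_zero_mul (coeff_psi_zero x) (coeff_psi_zero y)
  obtain ⟨ζ, hζ⟩ := exists_Her_eq_rp d (zero_le_one (α := ℝ))
  -- the weights
  set P := power x with hP
  set Q := power y with hQ
  have hP0 : 0 < P := power_pos hx
  have hQ0 : 0 < Q := power_pos hy
  set a := P / (P + Q) with ha_def
  set b := Q / (P + Q) with hb_def
  have ha : 0 < a := by positivity
  have hb : 0 < b := by positivity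
  have hab : a + b = 1 := by rw [ha_def, hb_def]; field_simp
  have hPhi0 : Phi a b x y z 0 =
      -(d * (d - 1) / 2 : ℝ) * (a * Real.log a + b * Real.log b) := by
    rw [Phi_zero _ _ hx hy hz, ← log_power hd hx, ← log_power hd hy, ← log_power hd hz, ← heq,
      ← hP, ← hQ]
    have l1 : Real.log a = Real.log P - Real.log (P + Q) :=
      Real.log_div hP0.ne' (by positivity)
    have l2 : Real.log b = Real.log Q - Real.log (P + Q) :=
      Real.log_div hQ0.ne' (by positivity)
    rw [l1, l2]
    have e : Real.log (P + Q) = (a + b) * Real.log (P + Q) := by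
      rw [hab, one_mul]
    linear_combination (d * (d - 1) / 2 : ℝ) * e
  set κx := kap d x with hκx
  set κy := kap d y with hκy
  have hκx0 : 0 ≤ κx := kap_nonneg hd cx
  have hκy0 : 0 ≤ κy := kap_nonneg hd cy
  set N := (d * (d - 1) / 2 : ℝ) with hNdef
  set H := lD (Her d (1 : ℝ)) with hH
  -- the identity along the flow
  have hid : ∀ s : ℝ, 0 < s →
      (lD (WW (psi x * psi y) d (1 / Real.sqrt (1 * s + (κx + κy)))) - H) -
        a * (lD (WW (psi x) d (1 / Real.sqrt (a * s + κx))) - H) -
        b * (lD (WW (psi y) d (1 / Real.sqrt (b * s + κy))) - H) =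
      -N * (Real.log (s + (κx + κy)) - a * (Real.log (s + κx / a)) -
        b * (Real.log (s + κy / b))) := by
    intro s hs
    have h1 := Phi_eq_of_eq hd hx hy hz h ha hb hab hPhi0 hs.le
    have has : 0 < a * s := mul_pos ha hs
    have hbs : 0 < b * s := mul_pos hb hs
    obtain ⟨ξ, hξ⟩ := exists_act_heat x has.le
    obtain ⟨η, hη⟩ := exists_act_heat y hbs.le
    obtain ⟨ω, hω⟩ := exists_act_heat z hs.le
    have iξ := act_heat_injective' hd1 has hξ
    have iη := act_heat_injective' hd1 hbs hη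
    have iω := act_heat_injective' hd1 hs hω
    have ex : act (heat (a * s)) (rp x) = pol d (heat (a * s + κx) * psi x) := by
      rw [act_rp, sym_eq_heat_mul_psi, ← mul_assoc, heat_mul]
    have ey : act (heat (b * s)) (rp y) = pol d (heat (b * s + κy) * psi y) := by
      rw [act_rp, sym_eq_heat_mul_psi, ← mul_assoc, heat_mul]
    have ez : act (heat s) (rp z) = pol d (heat (1 * s + (κx + κy)) * (psi x * psi y)) := by
      rw [← h, conv_eq_pol _ (natDegree_rp y).le]
      unfold pol
      rw [← mul_act, sym_eq_heat_mul_psi x, sym_eq_heat_mul_psi y]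
      congr 1
      rw [one_mul, ← heat_mul, ← heat_mul]
      ring
    have lx := lD_pol_heat (ψ := psi x) (by positivity : 0 < a * s + κx) iξ (by rw [← ex, hξ])
    have ly := lD_pol_heat (ψ := psi y) (by positivity : 0 < b * s + κy) iη (by rw [← ey, hη])
    have lz := lD_pol_heat (ψ := psi x * psi y) (by positivity : 0 < 1 * s + (κx + κy)) iω
      (by rw [← ez, hω])
    unfold Phi at h1
    rw [ez, ex, ey, lx, ly, lz] at h1
    have g1 : Real.log (a * s + κx) = Real.log a + Real.log (s + κx / a) := by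
      rw [← Real.log_mul ha.ne' (by positivity)]
      congr 1
      field_simp
    have g2 : Real.log (b * s + κy) = Real.log b + Real.log (s + κy / b) := by
      rw [← Real.log_mul hb.ne' (by positivity)]
      congr 1
      field_simp
    rw [g1, g2, one_mul] at h1
    rw [one_mul]
    have hb' : b = 1 - a := by linarith
    rw [hb'] at h1 ⊢
    linear_combination h1
  have Gz := tendsto_G (κ := κx + κy) hm3 hmd hz0 hlz hζ (one_pos)
  have Gx := tendsto_G (κ := κx) hm3 hmd (coeff_psi_zero x)
    (fun k hk hkm => (hlow k hk hkm).1) hζ ha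
  have Gy := tendsto_G (κ := κy) hm3 hmd (coeff_psi_zero y)
    (fun k hk hkm => (hlow k hk hkm).2) hζ hb
  rw [← hH] at Gx Gy Gz
  have Gall := (Gz.sub (Gx.const_mul a)).sub (Gy.const_mul b)
  -- step 1: equality of the normalised variances
  have huv : κx / a = κy / b := by
    have hpow : Tendsto (fun s : ℝ => s ^ 2 / s ^ m) atTop (𝓝 0) :=
      tendsto_pow_div_pow_atTop_zero (by omega)
    have t1 := Gall.mul hpow
    rw [mul_zero] at t1
    have t2 : Tendsto (fun s : ℝ => -N * ((Real.log (s + (κx + κy)) - Real.log s -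
        (κx + κy) / s) * s ^ 2 - a * ((Real.log (s + κx / a) - Real.log s -
        (κx / a) / s) * s ^ 2) - b * ((Real.log (s + κy / b) - Real.log s -
        (κy / b) / s) * s ^ 2))) atTop
        (𝓝 (-N * (-((κx + κy) ^ 2) / 2 - a * (-((κx / a) ^ 2) / 2) -
          b * (-((κy / b) ^ 2) / 2)))) :=
      (((tendsto_log_part (κx + κy)).sub ((tendsto_log_part (κx / a)).const_mul a)).sub
        ((tendsto_log_part (κy / b)).const_mul b)).const_mul (-N)
    have t3 : -N * (-((κx + κy) ^ 2) / 2 - a * (-((κx / a) ^ 2) / 2) -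
          b * (-((κy / b) ^ 2) / 2)) = 0 := by
      refine tendsto_nhds_unique (t2.congr' ?_) t1
      filter_upwards [eventually_gt_atTop 0] with s hs
      have h1 := hid s hs
      have e1 : s ^ m * (s ^ 2 / s ^ m) = s ^ 2 := by
        have := pow_ne_zero m hs.ne'
        field_simp
      have e2 : a * (κx / a / s) + b * (κy / b / s) = (κx + κy) / s := by
        field_simp
      have e3 : a * Real.log s + b * Real.log s = Real.log s := by
        rw [← add_mul, hab, one_mul]
      linear_combination (-s ^ 2) * h1 - N * s ^ 2 * e2 - N * s ^ 2 * e3 -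
        ((lD (WW (psi x * psi y) d (1 / Real.sqrt (1 * s + (κx + κy)))) - H) -
        a * (lD (WW (psi x) d (1 / Real.sqrt (a * s + κx))) - H) -
        b * (lD (WW (psi y) d (1 / Real.sqrt (b * s + κy))) - H)) * e1
    have e1 : κx = a * (κx / a) := by field_simp
    have e2 : κy = b * (κy / b) := by field_simp
    set u := κx / a
    set v := κy / b
    rw [e1, e2] at t3
    have hb' : b = 1 - a := by linarith
    have t4 : N * (a * b * (u - v) ^ 2) = 0 := by
      rw [hb'] at t3 ⊢
      linear_combination -2 * t3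
    have t5 : (u - v) ^ 2 = 0 := by
      rcases mul_eq_zero.mp t4 with h | h
      · exact absurd h hN.ne'
      · rcases mul_eq_zero.mp h with h | h
        · exact absurd h (mul_pos ha hb).ne'
        · exact h
    have t6 := pow_eq_zero_iff (two_ne_zero) |>.mp t5
    linarith
  -- step 2: comparison of the leading coefficients
  have hu2 : κx + κy = κx / a := by
    have e1 : κx = a * (κx / a) := by field_simp
    have e2 : κy = b * (κy / b) := by field_simp
    rw [← huv] at e2
    calc κx + κy = a * (κx / a) + b * (κx / a) := by rw [← e1, ← e2]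
      _ = (a + b) * (κx / a) := by ring
      _ = κx / a := by rw [hab, one_mul]
  have hzero : ∀ s : ℝ, 0 < s →
      (lD (WW (psi x * psi y) d (1 / Real.sqrt (1 * s + (κx + κy)))) - H) -
        a * (lD (WW (psi x) d (1 / Real.sqrt (a * s + κx))) - H) -
        b * (lD (WW (psi y) d (1 / Real.sqrt (b * s + κy))) - H) = 0 := by
    intro s hs
    rw [hid s hs, ← huv, hu2]
    have hb' : b = 1 - a := by linarith
    rw [hb']
    ring
  have hlim : -(alpha m ζ * PowerSeries.coeff m (psi x * psi y) ^ 2) * (1 / 1) ^ m -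
      a * (-(alpha m ζ * PowerSeries.coeff m (psi x) ^ 2) * (1 / a) ^ m) -
      b * (-(alpha m ζ * PowerSeries.coeff m (psi y) ^ 2) * (1 / b) ^ m) = 0 := by
    refine tendsto_nhds_unique Gall ?_
    apply tendsto_const_nhds.congr'
    filter_upwards [eventually_gt_atTop 0] with s hs
    have h1 := hzero s hs
    linear_combination (-s ^ m) * h1
  have hα := alpha_pos hmd (by omega) hζ
  have hfin : (PowerSeries.coeff m (psi x) + PowerSeries.coeff m (psi y)) ^ 2 =
      a * (PowerSeries.coeff m (psi x) ^ 2 * (1 / a) ^ m) +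
      b * (PowerSeries.coeff m (psi y) ^ 2 * (1 / b) ^ m) := by
    rw [← hmz]
    apply mul_left_cancel₀ hα.ne'
    rw [div_one, one_pow] at hlim
    linear_combination -hlim
  exact hmne (final_ineq ha hb hab hm3 hfin)

end Pool.Agent.Lib_helper19.FF
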