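import Mathlib
import Pool.Agent.Lib_helper19.FF.Basic
import Pool.Agent.Lib_helper19.FF.RealRooted
import Pool.Agent.Lib_helper19.FF.Heat
import Pool.Agent.Lib_helper19.FF.Flow
import Pool.Agent.Lib_helper19.FF.EPI
import Pool.Agent.Lib_helper19.FF.Equality

set_option autoImplicit false

/-!
# Translations, generalized Hermite polynomials, and the equality case in general
-/

open Polynomial Finset Filter
open scoped Topology

namespace Pool.Agent.Lib_helper19.FF

variable {d : ℕ}

/-- The power series `exp (μ T)`. -/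
noncomputable def expS (μ : ℝ) : PowerSeries ℝ :=
  PowerSeries.mk fun n => μ ^ n / (Nat.factorial n : ℝ)

lemma derivative_expS (μ : ℝ) : PowerSeries.derivative ℝ (expS μ) = μ • expS μ := by
  ext n
  rw [PowerSeries.coeff_derivative, map_smul, smul_eq_mul]
  unfold expS
  rw [PowerSeries.coeff_mk, PowerSeries.coeff_mk, Nat.factorial_succ]
  have h1 : (Nat.factorial n : ℝ) ≠ 0 := by exact_mod_cast Nat.factorial_ne_zero n
  have h2 : ((n : ℝ) + 1) ≠ 0 := by exact_mod_cast Nat.succ_ne_zero n
  push_cast
  field_simp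
  ring

lemma act_expS_X_mul (μ : ℝ) (f : ℝ[X]) :
    act (expS μ) (X * f) = (X + C μ) * act (expS μ) f := by
  rw [act_X_mul, derivative_expS, smul_act, smul_eq_C_mul]
  ring

lemma act_expS_X_pow (μ : ℝ) (n : ℕ) : act (expS μ) (X ^ n) = (X + C μ) ^ n := by
  induction n with
  | zero =>
    rw [pow_zero, pow_zero, act_eq_sum (n := 1) _ (by simp)]
    simp [expS]
  | succ n ih => rw [pow_succ', act_expS_X_mul, ih, pow_succ']

lemma act_expS (μ : ℝ) (f : ℝ[X]) : act (expS μ) f = f.comp (X + C μ) := by
  induction f using Polynomial.induction_on' with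
  | add p q hp hq => rw [act_add, hp, hq, add_comp]
  | monomial n a =>
    rw [← C_mul_X_pow_eq_monomial, act_C_mul, act_expS_X_pow, mul_comp, C_comp, X_pow_comp]

lemma act_expS_rp (μ : ℝ) (x : Fin d → ℝ) : act (expS μ) (rp x) = rp (fun i => x i - μ) := by
  rw [act_expS]
  unfold rp
  rw [Polynomial.prod_comp]
  apply prod_congr rfl
  intro i _
  rw [sub_comp, X_comp, C_comp, C_sub]
  ring

lemma disc_shift (x : Fin d → ℝ) (μ : ℝ) : disc (fun i => x i - μ) = disc x := by
  unfold disc
  apply prod_congr rfl
  intro i _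
  apply prod_congr rfl
  intro j _
  ring

lemma power_shift (x : Fin d → ℝ) (μ : ℝ) : power (fun i => x i - μ) = power x := by
  unfold power
  rw [disc_shift]

/-- **The equality case.** -/
theorem equality_case (hd : 2 ≤ d) {x y z : Fin d → ℝ} (hx : Function.Injective x)
    (hy : Function.Injective y) (h : conv d (rp x) (rp y) = rp z)
    (heq : power x + power y = power z) :
    ∃ μ ν κ ρ : ℝ, 0 ≤ κ ∧ 0 ≤ ρ ∧ rp x = pol d (expS (-μ) * heat κ) ∧
      rp y = pol d (expS (-ν) * heat ρ) := by
  have hd1 : 1 ≤ d := by omega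
  have hz : Function.Injective z := conv_injective hd1 hx h
  have hd0 : (d : ℝ) ≠ 0 := by
    have : d ≠ 0 := by omega
    exact_mod_cast this
  set mx := (∑ i, x i) / d with hmx
  set my := (∑ i, y i) / d with hmy
  set x' : Fin d → ℝ := fun i => x i - mx with hx'
  set y' : Fin d → ℝ := fun i => y i - my with hy'
  set z' : Fin d → ℝ := fun i => (z i - my) - mx with hz'
  have ix : Function.Injective x' := fun i j hij => hx (by simpa [hx'] using hij)
  have iy : Function.Injective y' := fun i j hij => hy (by simpa [hy'] using hij)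
  have iz : Function.Injective z' := fun i j hij => hz (by simpa [hz'] using hij)
  have hc : conv d (rp x') (rp y') = rp z' := by
    rw [hx', hy', ← act_expS_rp mx x, ← act_expS_rp my y, conv_act_left
      (natDegree_rp _).le ((natDegree_act_le _ _).trans (natDegree_rp _).le), conv_act_right, h,
      act_expS_rp my z, act_expS_rp mx]
  have sx : ∑ i, x' i = 0 := by
    rw [hx']
    simp only
    rw [sum_sub_distrib, sum_const, card_univ, Fintype.card_fin, nsmul_eq_mul, hmx]
    field_simp
    ring
  have sy : ∑ i, y' i = 0 := by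
    rw [hy']
    simp only
    rw [sum_sub_distrib, sum_const, card_univ, Fintype.card_fin, nsmul_eq_mul, hmy]
    field_simp
    ring
  have hp : power x' + power y' = power z' := by
    rw [hx', hy', hz', power_shift, power_shift, power_shift (fun i => z i - my) mx,
      power_shift, heq]
  obtain ⟨e1, e2⟩ := equality_centred hd ix iy iz hc sx sy hp
  have hexp : ∀ μ : ℝ, expS (-μ) * expS μ = 1 := by
    intro μ
    -- uniqueness of the coefficients of a series with zero derivative
    ext n
    rcases n with _ | n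
    · simp [PowerSeries.coeff_mul, expS]
    · have h1 : PowerSeries.derivative ℝ (expS (-μ) * expS μ) = 0 := by
        rw [Derivation.leibniz, derivative_expS, derivative_expS]
        simp only [smul_eq_mul, PowerSeries.smul_eq_C_mul, map_neg]
        ring
      have h2 := congrArg (PowerSeries.coeff n) h1
      rw [PowerSeries.coeff_derivative, map_zero] at h2
      have h3 : ((n : ℝ) + 1) ≠ 0 := by exact_mod_cast Nat.succ_ne_zero n
      rw [PowerSeries.coeff_one, if_neg (Nat.succ_ne_zero n)]
      exact (mul_eq_zero.mp h2).resolve_right h3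
  refine ⟨mx, my, kap d x', kap d y', kap_nonneg hd sx, kap_nonneg hd sy, ?_, ?_⟩
  · unfold pol
    rw [mul_act]
    change rp x = act (expS (-mx)) (Her d (kap d x'))
    rw [← e1, hx', ← act_expS_rp mx x, ← mul_act, hexp, one_act]
  · unfold pol
    rw [mul_act]
    change rp y = act (expS (-my)) (Her d (kap d y'))
    rw [← e2, hy', ← act_expS_rp my y, ← mul_act, hexp, one_act]

/-! ### Generalized Hermite polynomials as exponentials of differential operators -/

/-- The symbol `-μ T - (κ/2) T²`. -/
noncomputable def tauS (μ κ : ℝ) : PowerSeries ℝ :=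
  PowerSeries.C (-μ) * PowerSeries.X - PowerSeries.C (κ / 2) * PowerSeries.X ^ 2

lemma derivative_tauS (μ κ : ℝ) :
    PowerSeries.derivative ℝ (tauS μ κ) = PowerSeries.C (-μ) - PowerSeries.C κ * PowerSeries.X := by
  ext n
  rw [PowerSeries.coeff_derivative]
  unfold tauS
  rw [map_sub, map_sub, PowerSeries.coeff_C_mul, PowerSeries.coeff_C_mul, PowerSeries.coeff_C_mul,
    PowerSeries.coeff_X, PowerSeries.coeff_X_pow, PowerSeries.coeff_X, PowerSeries.coeff_C]
  rcases n with _ | _ | n
  · simp
  · simp
    norm_num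
  · simp

lemma X_dvd_tauS (μ κ : ℝ) : PowerSeries.X ∣ tauS μ κ := by
  unfold tauS
  exact dvd_sub (Dvd.intro_left _ rfl) (Dvd.dvd.mul_left (dvd_pow_self _ (two_ne_zero)) _)

lemma coeff_tauS_pow {μ κ : ℝ} {n k : ℕ} (h : n < k) :
    PowerSeries.coeff n (tauS μ κ ^ k) = 0 := by
  have h1 : PowerSeries.X ^ k ∣ tauS μ κ ^ k := pow_dvd_pow_of_dvd (X_dvd_tauS μ κ) k
  exact PowerSeries.X_pow_dvd_iff.mp h1 n h

/-- Truncated exponential. -/
noncomputable def expT (D : ℕ) (μ κ : ℝ) : PowerSeries ℝ :=
  ∑ k ∈ range (D + 1), (1 / (Nat.factorial k : ℝ)) • tauS μ κ ^ k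

lemma derivative_expT (D : ℕ) (μ κ : ℝ) :
    PowerSeries.derivative ℝ (expT D μ κ) = PowerSeries.derivative ℝ (tauS μ κ) *
      (expT D μ κ - (1 / (Nat.factorial D : ℝ)) • tauS μ κ ^ D) := by
  unfold expT
  rw [map_sum]
  have h1 : ∀ k, PowerSeries.derivative ℝ ((1 / (Nat.factorial (k + 1) : ℝ)) • tauS μ κ ^ (k + 1)) =
      PowerSeries.derivative ℝ (tauS μ κ) * ((1 / (Nat.factorial k : ℝ)) • tauS μ κ ^ k) := by
    intro k
    rw [Derivation.map_smul, Derivation.leibniz_pow, Nat.factorial_succ, Nat.add_sub_cancel,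
      smul_eq_mul, ← Nat.cast_smul_eq_nsmul ℝ, smul_smul, mul_smul_comm]
    have h1 : (Nat.factorial k : ℝ) ≠ 0 := by exact_mod_cast Nat.factorial_ne_zero k
    have h2 : ((k : ℝ) + 1) ≠ 0 := by exact_mod_cast Nat.succ_ne_zero k
    rw [mul_comm (PowerSeries.derivative ℝ (tauS μ κ))]
    congr 1
    push_cast
    field_simp
  rw [sum_range_succ', pow_zero]
  have h2 : PowerSeries.derivative ℝ ((1 / (Nat.factorial 0 : ℝ)) • (1 : PowerSeries ℝ)) = 0 := by
    rw [Derivation.map_smul, Derivation.map_one_eq_zero, smul_zero]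
  rw [h2, add_zero, sum_congr rfl (fun k _ => h1 k), ← mul_sum]
  congr 1
  rw [sum_range_succ]
  ring

lemma derivative_expS_mul_heat (μ κ : ℝ) :
    PowerSeries.derivative ℝ (expS (-μ) * heat κ) = PowerSeries.derivative ℝ (tauS μ κ) *
      (expS (-μ) * heat κ) := by
  rw [Derivation.leibniz, derivative_expS, derivative_heat, derivative_tauS]
  simp only [smul_eq_mul, PowerSeries.smul_eq_C_mul, map_neg]
  ring

lemma coeff_expT (D : ℕ) (μ κ : ℝ) (n : ℕ) (hn : n ≤ D) :
    PowerSeries.coeff n (expT D μ κ) = PowerSeries.coeff n (expS (-μ) * heat κ) := by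
  induction n using Nat.strong_induction_on with
  | _ n ih =>
    rcases n with _ | n
    · have h1 : PowerSeries.coeff 0 (expT D μ κ) = 1 := by
        unfold expT
        rw [map_sum, sum_eq_single 0]
        · simp
        · intro k _ hk
          rw [map_smul, coeff_tauS_pow (by omega), smul_zero]
        · simp
      rw [h1, coeff_zero_mul _ (coeff_heat_zero _)]
      simp [expS]
    · have h1 := congrArg (PowerSeries.coeff n) (derivative_expT D μ κ)
      have h2 := congrArg (PowerSeries.coeff n) (derivative_expS_mul_heat μ κ)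
      rw [PowerSeries.coeff_derivative] at h1 h2
      have h3 : PowerSeries.coeff n (PowerSeries.derivative ℝ (tauS μ κ) *
          (expT D μ κ - (1 / (Nat.factorial D : ℝ)) • tauS μ κ ^ D)) =
          PowerSeries.coeff n (PowerSeries.derivative ℝ (tauS μ κ) * (expS (-μ) * heat κ)) := by
        rw [PowerSeries.coeff_mul, PowerSeries.coeff_mul]
        apply sum_congr rfl
        intro x hx
        have hx' := HasAntidiagonal.mem_antidiagonal.mp hx
        rw [map_sub, map_smul, coeff_tauS_pow (by omega), smul_zero, sub_zero,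
          ih x.2 (by omega) (by omega)]
      have h4 : (((n : ℝ)) + 1) ≠ 0 := by exact_mod_cast Nat.succ_ne_zero n
      apply mul_right_cancel₀ h4
      rw [h1, h2, h3]

lemma tauS_act (μ κ : ℝ) (f : ℝ[X]) : act (tauS μ κ) f =
    C (-μ) * derivative f - C (κ / 2) * derivative (derivative f) := by
  have e : tauS μ κ = (-μ) • PowerSeries.X + (-(κ / 2)) • PowerSeries.X ^ 2 := by
    unfold tauS
    simp only [PowerSeries.smul_eq_C_mul, map_neg]
    ring
  rw [e, add_act, smul_act, smul_act, X_act, X_pow_act, smul_eq_C_mul, smul_eq_C_mul]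
  simp only [Function.iterate_succ, Function.iterate_zero, Function.comp_apply, id_eq, C_neg]
  ring

lemma expT_pol (μ κ : ℝ) (T : ℝ[X] → ℝ[X])
    (hT : ∀ f, T f = C (-μ) * derivative f - C (κ / 2) * derivative (derivative f)) :
    ∑ k ∈ range (d + 1), C (1 / (Nat.factorial k : ℝ)) * T^[k] (X ^ d) =
      pol d (expS (-μ) * heat κ) := by
  have h1 : ∀ k f, T^[k] f = act (tauS μ κ ^ k) f := by
    intro k
    induction k with
    | zero => intro f; simp
    | succ k ih =>
      intro f
      rw [Function.iterate_succ_apply', ih, pow_succ', mul_act, hT, tauS_act]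
  have h2 : pol d (expS (-μ) * heat κ) = pol d (expT d μ κ) :=
    pol_congr (fun k hk => (coeff_expT d μ κ k hk).symm)
  rw [h2]
  unfold pol expT
  have h3 : ∀ (s : Finset ℕ) (F : ℕ → PowerSeries ℝ) (f : ℝ[X]), act (∑ k ∈ s, F k) f =
      ∑ k ∈ s, act (F k) f := by
    intro s F f
    induction s using Finset.induction_on with
    | empty =>
      rw [sum_empty, sum_empty]
      unfold act
      simp
    | insert a s ha ih => rw [sum_insert ha, sum_insert ha, add_act, ih]
  rw [h3]
  apply sum_congr rfl
  intro k _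
  rw [smul_act, h1, smul_eq_C_mul]

end Pool.Agent.Lib_helper19.FF
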