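import Mathlib
import Pool.Agent.Lib_helper19.FF.Defs
import Pool.Agent.Lib_helper19.FF.Basic
import Pool.Agent.Lib_helper19.FF.RealRooted
import Pool.Agent.Lib_helper19.FF.EPI
import Pool.Agent.Lib_helper19.FF.General
import Pool.Agent.Lib_helper19.FF.Equality
import Pool.Agent.Lib_helper19.FF.Shift

set_option autoImplicit false

/-!
# From the literal definitions to the working ones
-/

open Polynomial Finset

namespace Pool.Agent.Lib_helper19.FF

open Defs

variable {d : ℕ}

lemma rootPoly_eq (r : Fin d → ℝ) : rootPoly r = rp r := rfl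

lemma entropyPower_eq (r : Fin d → ℝ) : entropyPower r = power r := rfl

lemma desc_mul_fact {i : ℕ} (hi : i ≤ d) :
    (d.descFactorial i : ℝ) * (Nat.factorial (d - i) : ℝ) = (Nat.factorial d : ℝ) := by
  have := Nat.factorial_mul_descFactorial hi
  rw [← this]
  push_cast
  ring

lemma ffConv_eq {p q : ℝ[X]} (hq : q.natDegree ≤ d) : ffConv d p q = conv d p q := by
  apply ext_coeff_sub _ (natDegree_conv_le p hq)
  · intro i hi
    rw [coeff_conv p hq hi]
    unfold ffConv
    rw [finsetSum_coeff, sum_eq_single i]
    · rw [coeff_C_mul, coeff_X_pow, if_pos rfl, mul_one, mul_sum, mul_sum]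
      apply sum_congr rfl
      rintro ⟨j, k⟩ hjk
      have hjk' := HasAntidiagonal.mem_antidiagonal.mp hjk
      simp only at hjk' ⊢
      unfold signedCoeff
      have hj : j ≤ d := by omega
      have hk : k ≤ d := by omega
      have e1 := desc_mul_fact (d := d) hi
      have e2 := desc_mul_fact (d := d) hj
      have e3 := desc_mul_fact (d := d) hk
      have n1 : (d.descFactorial i : ℝ) ≠ 0 := descFactorial_ne_zero hi
      have n2 : (d.descFactorial j : ℝ) ≠ 0 := descFactorial_ne_zero hj
      have n3 : (d.descFactorial k : ℝ) ≠ 0 := descFactorial_ne_zero hk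
      have n4 : (Nat.factorial d : ℝ) ≠ 0 := by exact_mod_cast Nat.factorial_ne_zero d
      have f1 : (Nat.factorial (d - i) : ℝ) = (Nat.factorial d : ℝ) / d.descFactorial i := by
        rw [← e1]; field_simp
      have f2 : (Nat.factorial (d - j) : ℝ) = (Nat.factorial d : ℝ) / d.descFactorial j := by
        rw [← e2]; field_simp
      have f3 : (Nat.factorial (d - k) : ℝ) = (Nat.factorial d : ℝ) / d.descFactorial k := by
        rw [← e3]; field_simp
      have s : ((-1 : ℝ) ^ i) * ((-1) ^ j * (-1) ^ k) = 1 := by
        rw [← pow_add, hjk', ← mul_pow]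
        simp
      rw [f1, f2, f3]
      have e4 : (-1 : ℝ) ^ i * ((Nat.factorial d : ℝ) / d.descFactorial j *
          ((Nat.factorial d : ℝ) / d.descFactorial k) /
          ((Nat.factorial d : ℝ) * ((Nat.factorial d : ℝ) / d.descFactorial i)) *
          ((-1) ^ j * p.coeff (d - j) * ((-1) ^ k * q.coeff (d - k)))) =
          ((-1 : ℝ) ^ i * ((-1) ^ j * (-1) ^ k)) * ((d.descFactorial i : ℝ) *
            (p.coeff (d - j) / (d.descFactorial j : ℝ) *
              (q.coeff (d - k) / (d.descFactorial k : ℝ)))) := by
        field_simp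
      rw [e4, s, one_mul]
    · intro j hj hji
      simp only [mem_range] at hj
      rw [coeff_C_mul, coeff_X_pow, if_neg (by omega), mul_zero]
    · intro h
      simp only [mem_range] at h
      omega
  · unfold ffConv
    apply natDegree_sum_le_of_forall_le
    intro i _
    refine (natDegree_C_mul_X_pow_le _ _).trans ?_
    omega

lemma genHermite_eq (hd : 2 ≤ d) (μ κ : ℝ) :
    genHermite d μ ((d - 1) * κ) = pol d (expS (-μ) * heat κ) := by
  unfold genHermite
  apply expT_pol
  intro f
  unfold hermiteOp
  have h1 : (d : ℝ) - 1 ≠ 0 := by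
    have : (2 : ℝ) ≤ d := by exact_mod_cast hd
    linarith
  have h2 : (d - 1 : ℝ) * κ / (2 * (d - 1)) = κ / 2 := by field_simp
  rw [h2]

end Pool.Agent.Lib_helper19.FF
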